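import Mathlib
import Pool.Agent.U581.BM.Brown

/-!
# Project LB: the error term of the circle problem is locally a Brownian motion

Statements of the packages.
-/

set_option autoImplicit false

namespace Pool.Agent.U581.LB

open Real MeasureTheory Filter Topology ProbabilityTheory Pool.Agent.U581.BM
open scoped BoundedContinuousFunction NNReal

/-- the number of representations as a sum of two squares -/
noncomputable def r2 (n : ℕ) : ℝ := (Nat.card {p : ℤ × ℤ // p.1 ^ 2 + p.2 ^ 2 = (n : ℤ)} : ℝ)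

/-- the coefficients of the Voronoi series -/
noncomputable def cf (n : ℕ) : ℝ := r2 n / π * (n : ℝ) ^ (-(3 / 4) : ℝ)

/-- the squarefree part of `n` -/
noncomputable def sf (n : ℕ) : ℕ := (Nat.sq_mul_squarefree n).choose

/-- the square root of the quotient of `n` by its squarefree part -/
noncomputable def rt (n : ℕ) : ℕ := (Nat.sq_mul_squarefree n).choose_spec.choose

theorem rt_sf (n : ℕ) : rt n ^ 2 * sf n = n :=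
  (Nat.sq_mul_squarefree n).choose_spec.choose_spec.1

theorem sf_sqf (n : ℕ) : Squarefree (sf n) :=
  (Nat.sq_mul_squarefree n).choose_spec.choose_spec.2

/-! ## Number theory -/

/-- **package RS** -/
def S_RS : Prop :=
  Tendsto (fun X : ℕ => (∑ n ∈ Finset.Icc 1 X, r2 n ^ 2) / (X * log X)) atTop (𝓝 4)

/-- **package VAR** (from `S_RS` and `S_UP`) -/
def S_VAR : Prop := ∀ ε : ℝ, 0 < ε → ∃ h₀ : ℝ, 0 < h₀ ∧ ∀ h : ℝ, 0 < h → h ≤ h₀ →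
  ∃ N₀ : ℕ, ∀ N : ℕ, N₀ ≤ N →
    |∑ n ∈ Finset.Icc 1 N, cf n ^ 2 * (1 - cos (2 * π * (√n * h))) - 16 * (h * log (1 / h))| ≤
      ε * (h * log (1 / h))

/-- **package UP** -/
def S_UP : Prop := ∃ C : ℝ, 0 < C ∧ (∀ X : ℕ, 1 ≤ X →
    ∑ n ∈ Finset.Icc 1 X, r2 n ^ 2 ≤ C * (X * (1 + log X))) ∧
  ∀ (N : ℕ) (h : ℝ), 0 < h → h ≤ 1 →
    ∑ n ∈ Finset.Icc 1 N, cf n ^ 2 * min 2 (2 * π ^ 2 * (n * h ^ 2)) ≤ C * (h * (1 + log (1 / h)))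

/-! ## Trigonometric polynomials on the torus -/

/-- the indices of a block -/
noncomputable def blk (N q : ℕ) : Finset ℕ := (Finset.Icc 1 N).filter (fun n => sf n = q)

/-- the block `q` of a trigonometric polynomial -/
noncomputable def Yq (c : ℕ → ℂ) (N q : ℕ) (x : ℝ) : ℝ :=
  ∑ n ∈ blk N q, (c n * Complex.exp (((2 * π * (rt n * x) : ℝ) : ℂ) * Complex.I)).re

/-- the supremum bound of a block -/
noncomputable def bq (c : ℕ → ℂ) (N q : ℕ) : ℝ := ∑ n ∈ blk N q, ‖c n‖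

/-- the variance of a block -/
noncomputable def vq (c : ℕ → ℂ) (N q : ℕ) : ℝ := (1 / 2) * ∑ n ∈ blk N q, ‖c n‖ ^ 2

/-- the trigonometric polynomial -/
noncomputable def Y (c : ℕ → ℂ) (N : ℕ) (θ : ℕ → ℝ) : ℝ := ∑ q ∈ Finset.Icc 1 N, Yq c N q (θ q)

/-- the variance -/
noncomputable def V (c : ℕ → ℂ) (N : ℕ) : ℝ := (1 / 2) * ∑ n ∈ Finset.Icc 1 N, ‖c n‖ ^ 2

/-- the uniform distribution on the unit interval -/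
noncomputable def u01 : Measure ℝ := volume.restrict (Set.Ioc 0 1)

instance : IsProbabilityMeasure u01 := ⟨by simp [u01]⟩

/-- independent uniform angles -/
noncomputable def Th : Measure (ℕ → ℝ) := Measure.infinitePi fun _ : ℕ => u01

instance : IsProbabilityMeasure Th := by unfold Th; infer_instance

/-- the bounds of the blocks of the increments -/
noncomputable def Bh (N q : ℕ) (h : ℝ) : ℝ := ∑ n ∈ blk N q, cf n * min 2 (2 * π * (√n * h))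

/-- the variances of the blocks of the increments -/
noncomputable def Vh (N q : ℕ) (h : ℝ) : ℝ :=
  ∑ n ∈ blk N q, cf n ^ 2 * min 2 (2 * π ^ 2 * (n * h ^ 2))

/-- **package BLK** -/
def S_BLK : Prop := ∃ C : ℝ, 0 < C ∧ ∀ (N : ℕ) (h : ℝ), 0 < h → h ≤ 1 →
  ∑ q ∈ Finset.Icc 1 N, Bh N q h * Vh N q h ≤ C * h ^ (9 / 4 : ℝ) ∧
  ∑ q ∈ Finset.Icc 1 N, Bh N q h ^ 2 * Vh N q h ≤ C * h ^ (5 / 2 : ℝ)

/-- **package CLT** -/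
def S_CLT : Prop := ∀ (c : ℕ → ℂ) (N : ℕ),
  ‖(∏ q ∈ Finset.Icc 1 N, ∫ x in (0 : ℝ)..1, Complex.exp (((Yq c N q x : ℝ) : ℂ) * Complex.I)) -
      ((exp (-(V c N / 2)) : ℝ) : ℂ)‖ ≤
    ∑ q ∈ Finset.Icc 1 N, (bq c N q * vq c N q + bq c N q ^ 2 * vq c N q)

/-- **package FOUR** -/
def S_FOUR : Prop := ∀ (c : ℕ → ℂ) (N : ℕ),
  Measurable (Y c N) ∧
  ∫ θ, Complex.exp (((Y c N θ : ℝ) : ℂ) * Complex.I) ∂Th =
    ∏ q ∈ Finset.Icc 1 N, ∫ x in (0 : ℝ)..1, Complex.exp (((Yq c N q x : ℝ) : ℂ) * Complex.I) ∧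
  ∫ θ, Y c N θ ^ 4 ∂Th ≤ 3 * V c N ^ 2 + ∑ q ∈ Finset.Icc 1 N, bq c N q ^ 2 * vq c N q

/-- **package TIGHT** -/
def S_TIGHT : Prop := ∀ K ε η : ℝ, 0 < K → 0 < ε → 0 < η → ∃ N₀ : ℕ, ∀ N : ℕ, N₀ ≤ N →
  ∃ M₀ : ℕ, ∀ M : ℕ, M₀ ≤ M → ∀ (Ω : Type) [MeasurableSpace Ω] (P : Measure Ω)
    [IsProbabilityMeasure P] (S : ℕ → Ω → ℝ), (∀ i, Measurable (S i)) →
    (∀ i, ∃ B : ℝ, ∀ ω, |S i ω| ≤ B) →
    (∀ i j : ℕ, i ≤ j → j ≤ M →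
      ∫ ω, (S j ω - S i ω) ^ 4 ∂P ≤ K * (((j : ℝ) - i) / M) ^ (3 / 2 : ℝ)) →
    P.real {ω | ε < ‖polygon M (fun i => S i ω) - interp N (polygon M (fun i => S i ω))‖} ≤ η

/-! ## From radii to the torus -/

/-- **package KW** (Kronecker and Weyl, for the square roots of the squarefree numbers) -/
def S_KW : Prop := ∀ (P : ℕ → Measure ℝ), (∀ k, IsProbabilityMeasure (P k)) →
  (∀ θ : ℝ, θ ≠ 0 →
    Tendsto (fun k => ∫ x, Complex.exp (((θ * x : ℝ) : ℂ) * Complex.I) ∂(P k)) atTop (𝓝 0)) →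
  ∀ (S : Finset ℕ), (∀ q ∈ S, Squarefree q) → ∀ f : ℕ → ℝ → ℂ, (∀ q, Continuous (f q)) →
  (∀ q x, f q (x + 1) = f q x) →
  Tendsto (fun k => ∫ x, ∏ q ∈ S, f q (√q * x) ∂(P k)) atTop
    (𝓝 (∏ q ∈ S, ∫ x in (0 : ℝ)..1, f q x))

/-- the error term -/
noncomputable def Pc (R : ℝ) : ℝ :=
  (Nat.card {p : ℤ × ℤ // (p.1 : ℝ) ^ 2 + (p.2 : ℝ) ^ 2 ≤ R ^ 2} : ℝ) - π * R ^ 2

/-- the truncated Voronoi series -/
noncomputable def UN (N : ℕ) (R : ℝ) : ℝ :=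
  ∑ n ∈ Finset.Icc 1 N, cf n * cos (2 * π * (R * √n) - 3 * π / 4)

/-- probability measures on `[c₁, c₂]` whose Fourier transform decays (as `R461.GC.Adm`) -/
structure AdmL (c₁ c₂ K s T : ℝ) (μ : Measure ℝ) : Prop where
  prob : IsProbabilityMeasure μ
  supp : ∀ᵐ x ∂μ, c₁ ≤ x ∧ x ≤ c₂
  dec : ∀ t : ℝ, T ^ (1 / 10 : ℝ) ≤ |t| → |t| ≤ T ^ 2 →
    ‖∫ x, Complex.exp (((t * x : ℝ) : ℂ) * Complex.I) ∂μ‖ ≤ K * |t| ^ (-s)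

/-- **package MS** (mean square approximation, also at shifted radii) -/
def S_MS : Prop := ∀ c₁ c₂ K s : ℝ, 0 < c₁ → 1 / 3 < s → ∀ h : ℝ, 0 ≤ h → ∀ η : ℝ, 0 < η →
  ∃ L₀ : ℕ, ∀ L : ℕ, L₀ ≤ L → ∃ T₀ : ℝ, ∀ T : ℝ, T₀ ≤ T → ∀ μ : Measure ℝ, AdmL c₁ c₂ K s T μ →
    ∫ x, (Pc (T * x + h) / √(T * x) - UN (L ^ 2) (T * x + h)) ^ 2 ∂μ ≤ η

/-! ## The assembly -/

/-- the normalising constant -/
noncomputable def sg (ρ : ℝ) : ℝ := 4 * √(ρ * log (1 / ρ))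

/-- the path of the error term above `R` -/
noncomputable def pathR (ρ : ℝ) (M : ℕ) (R : ℝ) : C(unitInterval, ℝ) :=
  polygon M fun i => (Pc (R + ρ * (i / M)) - Pc R) / (√R * sg ρ)

/-- the coefficients of the increments -/
noncomputable def cc (ρ u : ℝ) (n : ℕ) : ℂ :=
  ((cf n / sg ρ : ℝ) : ℂ) * Complex.exp (((-(3 * π / 4) : ℝ) : ℂ) * Complex.I) *
    (Complex.exp (((2 * π * (√n * (ρ * u)) : ℝ) : ℂ) * Complex.I) - 1)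

/-- the path on the torus -/
noncomputable def pathT (ρ : ℝ) (M N : ℕ) (θ : ℕ → ℝ) : C(unitInterval, ℝ) :=
  polygon M fun i => Y (cc ρ (i / M)) N θ

/-- **package LIM** (from `S_KW`, `S_FOUR`, `S_MS`) -/
def S_LIM : Prop := ∀ c₁ c₂ K s : ℝ, 0 < c₁ → 1 / 3 < s → ∀ (ρ : ℝ) (M : ℕ), 0 < ρ → ρ < 1 → 0 < M →
  ∀ (F : C(unitInterval, ℝ) →ᵇ ℝ) (ε : ℝ), 0 < ε → ∃ L₀ : ℕ, ∀ L : ℕ, L₀ ≤ L → ∃ T₀ : ℝ, ∀ T : ℝ,
    T₀ ≤ T → ∀ μ : Measure ℝ, AdmL c₁ c₂ K s T μ →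
    |∫ x, F (pathR ρ M (T * x)) ∂μ - ∫ θ, F (pathT ρ M (L ^ 2) θ) ∂Th| ≤ ε

/-- **package TOR** (from `S_VAR`, `S_UP`, `S_BLK`, `S_CLT`, `S_FOUR`, `S_TIGHT`): the invariance
principle on the torus -/
def S_TOR : Prop := ∀ (ρ : ℕ → ℝ) (M L : ℕ → ℕ), (∀ j, 0 < ρ j ∧ ρ j < 1) → Tendsto ρ atTop (𝓝 0) →
  Tendsto M atTop atTop →
  (∀ a b : ℕ, 0 < a → a ≤ b → Tendsto (fun j => (∑ n ∈ Finset.Icc 1 (L j ^ 2),
    cf n ^ 2 * (1 - cos (2 * π * (√n * (ρ j * ((a : ℝ) / b)))))) / sg (ρ j) ^ 2) atTop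
      (𝓝 ((a : ℝ) / b))) →
  ∀ {Ω : Type} [MeasurableSpace Ω] (P : Measure Ω) (B : ℝ≥0 → Ω → ℝ), IsBrownianReal B P →
  ∀ F : C(unitInterval, ℝ) →ᵇ ℝ,
    Tendsto (fun j => ∫ θ, F (pathT (ρ j) (M j) (L j ^ 2) θ) ∂Th) atTop (𝓝 (∫ ω, F (bpath B ω) ∂P))

/-- **the theorem** -/
def S_MAIN : Prop := ∀ c₁ c₂ K s : ℝ, 0 < c₁ → 1 / 3 < s →
  ∀ {Ω : Type} [MeasurableSpace Ω] (P : Measure Ω) (B : ℝ≥0 → Ω → ℝ), IsBrownianReal B P →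
  ∀ (F : C(unitInterval, ℝ) →ᵇ ℝ) (ε : ℝ), 0 < ε →
  ∃ (ρ₀ : ℝ) (M₀ : ℕ), 0 < ρ₀ ∧ ∀ (ρ : ℝ) (M : ℕ), 0 < ρ → ρ ≤ ρ₀ → M₀ ≤ M → ∃ T₀ : ℝ, ∀ T : ℝ,
    T₀ ≤ T → ∀ μ : Measure ℝ, AdmL c₁ c₂ K s T μ →
    |∫ x, F (pathR ρ M (T * x)) ∂μ - ∫ ω, F (bpath B ω) ∂P| ≤ ε

end Pool.Agent.U581.LB
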