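import Pool.Agent.U581.LB.TorC

/-!
# Project LQ: the local invariance principle for the circle problem in the full range of widths

Statements of the packages.
-/

set_option autoImplicit false

namespace Pool.Agent.U581.LB

open Real MeasureTheory Filter Topology ProbabilityTheory Pool.Agent.U581.BM
open scoped BoundedContinuousFunction NNReal

/-- the trigonometric polynomial on the line -/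
noncomputable def G (c : ℕ → ℂ) (N : ℕ) (R : ℝ) : ℝ :=
  ∑ n ∈ Finset.Icc 1 N, (c n * Complex.exp (((2 * π * (√n * R) : ℝ) : ℂ) * Complex.I)).re

/-- the path of the truncated Voronoi series above `R` -/
noncomputable def pathU (ρ : ℝ) (M L : ℕ) (R : ℝ) : C(unitInterval, ℝ) :=
  polygon M fun i => (UN (L ^ 2) (R + ρ * (i / M)) - UN (L ^ 2) R) / sg ρ

/-- **package LOW** (sums of square roots are not too small) -/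
def S_LOW : Prop := ∀ (k N : ℕ) (n : Fin k → ℕ) (e : Fin k → ℤ), 1 ≤ k → 1 ≤ N →
  (∀ i, 1 ≤ n i ∧ n i ≤ N) → (∀ i, e i = 1 ∨ e i = -1) →
  (∀ q : ℕ, ∑ i ∈ Finset.univ.filter (fun i => Pool.Agent.U581.LB.sf (n i) = q), e i * (rt (n i) : ℤ) = 0) ∨
    1 / ((k : ℝ) * N) ^ (2 ^ k) ≤ |∑ i, (e i : ℝ) * √(n i)|

/-- **package MOM** (from `S_LOW`): moments on the line and on the torus -/
def S_MOM : Prop := ∀ (c₁ c₂ K s T : ℝ) (μ : Measure ℝ), AdmL c₁ c₂ K s T μ → 0 ≤ K → 0 ≤ s →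
  1 ≤ T → ∀ k N : ℕ, 1 ≤ k → 1 ≤ N →
  T ^ (1 / 10 : ℝ) ≤ 2 * π * T / ((k : ℝ) * N) ^ (2 ^ k) → 2 * π * ((k : ℝ) * N) * T ≤ T ^ 2 →
  ∀ c : ℕ → ℂ, |∫ x, G c N (T * x) ^ k ∂μ - ∫ θ, Y c N θ ^ k ∂Th| ≤
    K * T ^ (-(s / 10)) * (∑ n ∈ Finset.Icc 1 N, ‖c n‖) ^ k

/-- **package MB1**: exponential moments on the torus -/
def S_MB1 : Prop := ∀ (c : ℕ → ℂ) (N m : ℕ) (Q : Finset ℕ), Q ⊆ Finset.Icc 1 N →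
  (∀ q ∈ Q, bq c N q ≤ 1) →
  ∫ θ, (∑ q ∈ Q, Yq c N q (θ q)) ^ (2 * m) ∂Th ≤
    2 * ((2 * m).factorial : ℝ) / 16 ^ m * exp (8 * exp 4 * ∑ q ∈ Q, vq c N q)

/-- **package DIV**: blocks of the increments -/
def S_DIV : Prop := ∀ ε : ℝ, 0 < ε → ∃ C : ℝ, 0 < C ∧ ∀ (N q : ℕ) (h : ℝ), 1 ≤ q → 0 < h → h ≤ 1 →
  Bh N q h ≤ C * (q : ℝ) ^ (-(1 / 2) : ℝ) * h ^ (1 / 2 - ε) ∧
  Vh N q h ≤ C * (q : ℝ) ^ (-(1 / 2) : ℝ) * h ^ (2 - ε)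

/-- **package MB2** (from `S_MB1`, `S_DIV`, `S_UP`): moments on the torus -/
def S_MB : Prop := ∀ A : ℝ, 0 ≤ A → ∃ C : ℝ, 0 < C ∧ ∀ m : ℕ, ∃ ρ₀ : ℝ, 0 < ρ₀ ∧ ∀ ρ : ℝ,
  0 < ρ → ρ ≤ ρ₀ → ∀ (c : ℕ → ℂ) (N : ℕ), Dom c A (sg ρ) ρ →
    ∫ θ, Y c N θ ^ (2 * m) ∂Th ≤ C * ((2 * m).factorial : ℝ) / 4 ^ m

/-- **package VARQ** (from `S_VAR`, `S_UP`) -/
def S_VARQ : Prop := ∀ ε : ℝ, 0 < ε → ∃ h₀ : ℝ, 0 < h₀ ∧ h₀ ≤ 1 ∧ ∀ h : ℝ, 0 < h → h ≤ h₀ →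
  ∀ N : ℕ, h ^ (-3 : ℝ) ≤ N →
    |∑ n ∈ Finset.Icc 1 N, cf n ^ 2 * (1 - cos (2 * π * (√n * h))) - 16 * (h * log (1 / h))| ≤
      ε * (h * log (1 / h))

/-- **package MSQ** (quantitative mean square approximation) -/
def S_MSQ : Prop := ∀ c₁ c₂ K s : ℝ, 0 < c₁ → 1 / 3 < s → ∃ C τ T₀ : ℝ, 0 < C ∧ 0 < τ ∧
  ∀ (T h : ℝ) (L : ℕ), T₀ ≤ T → 0 ≤ h → h ≤ 1 → 1 ≤ L → (L : ℝ) ≤ T ^ τ →
  ∀ μ : Measure ℝ, AdmL c₁ c₂ K s T μ →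
    ∫ x, (Pc (T * x + h) / √(T * x) - UN (L ^ 2) (T * x + h)) ^ 2 ∂μ ≤ C * (L : ℝ) ^ (-τ)

/-- **package APX** (from `S_MSQ`) -/
def S_APX : Prop := ∀ c₁ c₂ K s : ℝ, 0 < c₁ → 1 / 3 < s → ∃ C τ T₀ : ℝ, 0 < C ∧ 0 < τ ∧
  ∀ (T ρ : ℝ) (M L : ℕ), T₀ ≤ T → 0 < ρ → ρ < 1 → 1 ≤ M → 1 ≤ L → (L : ℝ) ≤ T ^ τ →
  ∀ μ : Measure ℝ, AdmL c₁ c₂ K s T μ → ∀ ε : ℝ, 0 < ε →
    μ.real {x | ε < ‖pathR ρ M (T * x) - pathU ρ M L (T * x)‖} ≤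
      C * (M + 1) * (L : ℝ) ^ (-τ) / (ε ^ 2 * sg ρ ^ 2)

/-- **package SLU** (a theorem of Slutsky) -/
def S_SLU : Prop := ∀ [MeasurableSpace C(unitInterval, ℝ)] [BorelSpace C(unitInterval, ℝ)]
  (ν : ℕ → Measure ℝ) (X X' : ℕ → ℝ → C(unitInterval, ℝ)) {Ω : Type} [MeasurableSpace Ω]
  (P : Measure Ω) [IsProbabilityMeasure P] (Z : Ω → C(unitInterval, ℝ)),
  (∀ j, IsProbabilityMeasure (ν j)) → (∀ j, Measurable (X j)) → (∀ j, Measurable (X' j)) →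
  AEMeasurable Z P →
  (∀ F : C(unitInterval, ℝ) →ᵇ ℝ,
    Tendsto (fun j => ∫ x, F (X' j x) ∂ν j) atTop (𝓝 (∫ ω, F (Z ω) ∂P))) →
  (∀ ε : ℝ, 0 < ε → Tendsto (fun j => (ν j).real {x | ε < ‖X j x - X' j x‖}) atTop (𝓝 0)) →
  ∀ F : C(unitInterval, ℝ) →ᵇ ℝ,
    Tendsto (fun j => ∫ x, F (X j x) ∂ν j) atTop (𝓝 (∫ ω, F (Z ω) ∂P))

/-- **package RM**: measurability of the path of the error term -/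
def S_RM : Prop := ∀ [MeasurableSpace C(unitInterval, ℝ)] [BorelSpace C(unitInterval, ℝ)]
  (ρ T : ℝ) (M L : ℕ), Measurable (fun x => pathR ρ M (T * x)) ∧
    Measurable (fun x => pathU ρ M L (T * x))

/-- **the sequential form** (from `S_UP`, `S_BLK`, `S_CLT`, `S_FOUR`, `S_TIGHT`, `S_MOM`, `S_MB`,
`S_VARQ`, `S_APX`, `S_SLU`, `S_RM`) -/
def S_SEQ : Prop := ∀ c₁ c₂ K s : ℝ, 0 < c₁ → 1 / 3 < s → ∀ (T ρ : ℕ → ℝ) (M : ℕ → ℕ)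
  (μ : ℕ → Measure ℝ), (∀ j, AdmL c₁ c₂ K s (T j) (μ j)) → (∀ j, 1 < T j) →
  Tendsto T atTop atTop → (∀ j, 0 < ρ j ∧ ρ j < 1) → Tendsto ρ atTop (𝓝 0) →
  Tendsto M atTop atTop →
  (∀ δ : ℝ, 0 < δ → ∀ᶠ j in atTop, T j ^ (-δ) ≤ ρ j ∧ (M j : ℝ) ≤ T j ^ δ) →
  ∀ {Ω : Type} [MeasurableSpace Ω] (P : Measure Ω) (B : ℝ≥0 → Ω → ℝ), IsBrownianReal B P →
  ∀ F : C(unitInterval, ℝ) →ᵇ ℝ,
    Tendsto (fun j => ∫ x, F (pathR (ρ j) (M j) (T j * x)) ∂μ j) atTop (𝓝 (∫ ω, F (bpath B ω) ∂P))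

/-- **the theorem, uniformly in the full range of widths** (from `S_SEQ`) -/
def S_MAINQ : Prop := ∀ c₁ c₂ K s : ℝ, 0 < c₁ → 1 / 3 < s →
  ∀ {Ω : Type} [MeasurableSpace Ω] (P : Measure Ω) (B : ℝ≥0 → Ω → ℝ), IsBrownianReal B P →
  ∀ (F : C(unitInterval, ℝ) →ᵇ ℝ) (ε : ℝ), 0 < ε →
  ∃ (ρ₀ δ T₀ : ℝ) (M₀ : ℕ), 0 < ρ₀ ∧ 0 < δ ∧ ∀ (T ρ : ℝ) (M : ℕ), T₀ ≤ T → T ^ (-δ) ≤ ρ →
    ρ ≤ ρ₀ → M₀ ≤ M → (M : ℝ) ≤ T ^ δ → ∀ μ : Measure ℝ, AdmL c₁ c₂ K s T μ →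
    |∫ x, F (pathR ρ M (T * x)) ∂μ - ∫ ω, F (bpath B ω) ∂P| ≤ ε

end Pool.Agent.U581.LB
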