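import Pool.Agent.U581.LB.JA

/-!
# Project LJ: the sequential form with a cosine
-/

set_option autoImplicit false

namespace Pool.Agent.U581.LB

open Real MeasureTheory Filter Topology ProbabilityTheory Pool.Agent.U581.BM
open scoped BoundedContinuousFunction NNReal

theorem int_exp {X : Type*} [MeasurableSpace X] {P : Measure X} [IsProbabilityMeasure P]
    {g : X → ℝ} (hg : Measurable g) :
    Integrable (fun x => Complex.exp (((g x : ℝ) : ℂ) * Complex.I)) P := by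
  refine Integrable.of_bound (Measurable.aestronglyMeasurable ?_) 1
    (Eventually.of_forall fun θ => (Complex.norm_exp_ofReal_mul_I _).le)
  exact Complex.measurable_exp.comp ((Complex.measurable_ofReal.comp hg).mul_const _)

theorem norm_int_exp {X : Type*} [MeasurableSpace X] {P : Measure X} [IsProbabilityMeasure P]
    (g : X → ℝ) : ‖∫ x, Complex.exp (((g x : ℝ) : ℂ) * Complex.I) ∂P‖ ≤ 1 := by
  refine (norm_integral_le_of_norm_le_const (C := 1) (Eventually.of_forall fun x =>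
    (Complex.norm_exp_ofReal_mul_I _).le)).trans ?_
  simp

theorem expdiff2 {X : Type*} [MeasurableSpace X] {P : Measure X} [IsProbabilityMeasure P]
    {H : X → ℝ} (hH : Measurable H) (s : Finset ℕ) (t : ℕ → ℝ) {f g : ℕ → X → ℝ}
    (hf : ∀ i, Measurable (f i)) (hg : ∀ i, Measurable (g i))
    (hi : ∀ i, Integrable (fun x => |f i x - g i x|) P) :
    ‖∫ x, Complex.exp (((H x + ∑ i ∈ s, t i * f i x : ℝ) : ℂ) * Complex.I) ∂P -
      ∫ x, Complex.exp (((H x + ∑ i ∈ s, t i * g i x : ℝ) : ℂ) * Complex.I) ∂P‖ ≤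
      ∑ i ∈ s, |t i| * ∫ x, |f i x - g i x| ∂P := by
  have ie : ∀ h : ℕ → X → ℝ, (∀ i, Measurable (h i)) →
      Integrable (fun x => Complex.exp (((H x + ∑ i ∈ s, t i * h i x : ℝ) : ℂ) * Complex.I)) P :=
    fun h hh => int_exp (hH.add (Finset.measurable_fun_sum _ fun i _ => (hh _).const_mul _))
  rw [← integral_sub (ie f hf) (ie g hg)]
  have i3 : ∀ i ∈ s, Integrable (fun x => |t i| * |f i x - g i x|) P := fun i _ =>
    (hi i).const_mul _
  have hb : ∀ x, ‖Complex.exp (((H x + ∑ i ∈ s, t i * f i x : ℝ) : ℂ) * Complex.I) -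
      Complex.exp (((H x + ∑ i ∈ s, t i * g i x : ℝ) : ℂ) * Complex.I)‖ ≤
      ∑ i ∈ s, |t i| * |f i x - g i x| := by
    intro x
    have h1 : ∀ a b : ℝ, ‖Complex.exp ((a : ℂ) * Complex.I) - Complex.exp ((b : ℂ) * Complex.I)‖
        ≤ |a - b| := by
      intro a b
      have e : Complex.exp ((a : ℂ) * Complex.I) - Complex.exp ((b : ℂ) * Complex.I) =
          Complex.exp ((b : ℂ) * Complex.I) *
            (Complex.exp (((a - b : ℝ) : ℂ) * Complex.I) - 1) := by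
        rw [mul_sub, ← Complex.exp_add, mul_one]
        congr 2
        push_cast
        ring
      rw [e, norm_mul, Complex.norm_exp_ofReal_mul_I, one_mul]
      have := Real.norm_exp_I_mul_ofReal_sub_one_le (x := a - b)
      rw [mul_comm Complex.I] at this
      exact this
    refine (h1 _ _).trans ?_
    rw [add_sub_add_left_eq_sub, ← Finset.sum_sub_distrib]
    refine (Finset.abs_sum_le_sum_abs _ _).trans (Finset.sum_le_sum fun i _ => ?_)
    rw [← mul_sub, abs_mul]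
  refine (norm_integral_le_of_norm_le (integrable_finsetSum _ i3) (Eventually.of_forall hb)).trans ?_
  rw [integral_finsetSum _ i3]
  refine le_of_eq (Finset.sum_congr rfl fun i _ => ?_)
  rw [integral_const_mul]

/-- the limit of the characteristic function -/
noncomputable def gam (N : ℕ) (t : ℕ → ℝ) : ℂ :=
  ((exp (-((∑ i ∈ Finset.range (N + 1), ∑ j ∈ Finset.range (N + 1),
      t i * t j * min ((pt N i : unitInterval) : ℝ) ((pt N j : unitInterval) : ℝ)) / 2)) : ℝ) : ℂ)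

theorem UN_cont (N : ℕ) : Continuous (UN N) := by
  unfold UN
  fun_prop

section

variable {c₁ c₂ K s : ℝ} {T ρ : ℕ → ℝ} {L : ℕ → ℕ} {μ : ℕ → Measure ℝ}

theorem Seq.diff (S : Seq c₁ c₂ K s T ρ (fun j => L j ^ 2) μ) (hUP : S_UP) (hBLK : S_BLK)
    (hFOUR : S_FOUR) (hMOM : S_MOM) {M : ℕ → ℕ} (hM : Tendsto M atTop atTop)
    {H : ℕ → ℝ → ℝ} (hH : ∀ j, Measurable (H j)) (N : ℕ) (t : ℕ → ℝ) :
    Tendsto (fun j => (∫ x, Complex.exp (((H j x + ∑ i ∈ Finset.range (N + 1), t i *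
        pathU (ρ j) (M j) (L j) (T j * x) (pt N i) : ℝ) : ℂ) * Complex.I) ∂μ j) -
        ∫ x, Complex.exp (((H j x + ∑ i ∈ Finset.range (N + 1), t i *
        G (cc (ρ j) ((pt N i : unitInterval) : ℝ)) (L j ^ 2) (T j * x) : ℝ) : ℂ) * Complex.I)
          ∂μ j) atTop (𝓝 0) := by
  have hμ : ∀ j, IsProbabilityMeasure (μ j) := fun j => (S.adm j).prob
  have hs := S.s0
  obtain ⟨K4, hK4, hfour⟩ := four_incr hUP hBLK hFOUR
  have evM : ∀ᶠ j in atTop, 0 < M j := hM.eventually (eventually_gt_atTop 0)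
  have mG : ∀ (c : ℕ → ℂ) (N : ℕ) (T : ℝ), Measurable fun x => G c N (T * x) := fun c N T =>
    (G_cont c N).measurable.comp (measurable_const_mul T)
  obtain ⟨A, hA⟩ : ∃ A, A = ∑ i ∈ Finset.range (N + 1), |t i| := ⟨_, rfl⟩
  have hA0 : 0 ≤ A := by rw [hA]; exact Finset.sum_nonneg fun _ _ => abs_nonneg _
  rw [Metric.tendsto_atTop]
  intro ε hε
  obtain ⟨δ, hδ, hδe⟩ : ∃ δ : ℝ, 0 < δ ∧ A * (3 * δ) < ε := by
    refine ⟨ε / (4 * (A + 1)), by positivity, ?_⟩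
    rw [show A * (3 * (ε / (4 * (A + 1)))) = ε * (3 * A / (4 * (A + 1))) by ring]
    have : 3 * A / (4 * (A + 1)) < 1 := by
      rw [div_lt_one (by positivity)]
      linarith
    nlinarith
  have evS : ∀ᶠ j in atTop,
      2 * (K4 * (1 / (M j : ℝ)) ^ (3 / 2 : ℝ) + T j ^ (-(s / 20))) / δ ^ 3 < δ := by
    have h1 : Tendsto (fun j => (1 / (M j : ℝ))) atTop (𝓝 0) := by
      have := tendsto_one_div_atTop_nhds_zero_nat (𝕜 := ℝ)
      exact this.comp hM
    have h2 := h1.rpow_const (p := (3 / 2 : ℝ)) (Or.inr (by norm_num))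
    rw [Real.zero_rpow (by norm_num)] at h2
    have h4 : Tendsto (fun j => T j ^ (-(s / 20))) atTop (𝓝 0) :=
      (tendsto_rpow_neg_atTop (by linarith)).comp S.Tl
    have h3 := (((h2.const_mul K4).add h4).const_mul 2).div_const (δ ^ 3)
    rw [mul_zero, add_zero, mul_zero, zero_div] at h3
    exact h3.eventually (gt_mem_nhds hδ)
  obtain ⟨j0, hj0⟩ := eventually_atTop.1 (evM.and (evS.and (S.four hMOM hUP hfour)))
  refine ⟨j0, fun j hj => ?_⟩
  obtain ⟨g2, g3, g4⟩ := hj0 j hj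
  have hMj : (0 : ℝ) < M j := by exact_mod_cast g2
  have gn := fun i : ℕ => near' (P := μ j) (S := fun u x => G (cc (ρ j) u) (L j ^ 2) (T j * x))
    (fun u => mG _ _ _) (Bd := fun u => ∑ n ∈ Finset.Icc 1 (L j ^ 2), ‖cc (ρ j) u n‖)
    (fun u x => G_bound _ _ _) g2 (e := K4 * (1 / (M j : ℝ)) ^ (3 / 2 : ℝ) + T j ^ (-(s / 20)))
    (by
      intro u v hu huv hv hvM
      refine (g4 u v hu huv hv).trans ?_
      have : (v - u) ^ (3 / 2 : ℝ) ≤ (1 / (M j : ℝ)) ^ (3 / 2 : ℝ) :=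
        Real.rpow_le_rpow (by linarith) (by linarith) (by norm_num)
      have := mul_le_mul_of_nonneg_left this hK4.le
      linarith) (pt N i) hδ
  have h5 := expdiff2 (P := μ j) (hH j) (Finset.range (N + 1)) t
    (f := fun i x => polygon (M j) (fun i => G (cc (ρ j) ((i : ℝ) / M j)) (L j ^ 2) (T j * x))
      (pt N i))
    (g := fun i x => G (cc (ρ j) ((pt N i : unitInterval) : ℝ)) (L j ^ 2) (T j * x))
    (fun i => (gn i).1) (fun i => mG _ _ _) (fun i => (gn i).2.1)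
  rw [dist_zero_right]
  simp_rw [pathU_eq]
  refine lt_of_le_of_lt h5 ?_
  have h7 : ∀ i ∈ Finset.range (N + 1), |t i| * ∫ x, |polygon (M j) (fun i =>
      G (cc (ρ j) ((i : ℝ) / M j)) (L j ^ 2) (T j * x)) (pt N i) -
      G (cc (ρ j) ((pt N i : unitInterval) : ℝ)) (L j ^ 2) (T j * x)| ∂μ j ≤
      |t i| * (3 * δ) := by
    intro i _
    apply mul_le_mul_of_nonneg_left _ (abs_nonneg _)
    refine ((gn i).2.2).trans ?_
    linarith
  refine lt_of_le_of_lt (Finset.sum_le_sum h7) ?_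
  rw [← Finset.sum_mul, ← hA]
  exact hδe

theorem Seq.N0 (S : Seq c₁ c₂ K s T ρ (fun j => L j ^ 2) μ) (N₀ : ℕ) :
    ∀ᶠ j in atTop, N₀ ≤ L j ^ 2 := by
  have h1 : ∀ᶠ j in atTop, ρ j < 1 / ((N₀ : ℝ) + 1) := S.r0.eventually (gt_mem_nhds (by positivity))
  filter_upwards [h1, S.Nr] with j g1 g2
  have hr := S.r01 j
  have h2 : (N₀ : ℝ) + 1 ≤ ρ j ^ (-4 : ℝ) := by
    have h3 : (N₀ : ℝ) + 1 ≤ (ρ j)⁻¹ := by
      rw [lt_div_iff₀ (by positivity)] at g1
      rw [le_inv_comm₀ (by positivity) hr.1, inv_eq_one_div, le_div_iff₀ (by positivity)]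
      exact g1.le
    refine h3.trans ?_
    rw [← Real.rpow_neg_one]
    exact Real.rpow_le_rpow_of_exponent_ge hr.1 hr.2.le (by norm_num)
  have h3 : (N₀ : ℝ) ≤ ((L j ^ 2 : ℕ) : ℝ) := by linarith
  exact_mod_cast h3

theorem Seq.joint (S : Seq c₁ c₂ K s T ρ (fun j => L j ^ 2) μ) (hUP : S_UP) (hBLK : S_BLK)
    (hCLT : S_CLT) (hFOUR : S_FOUR) (hMOM : S_MOM) (hMB : S_MB) (hVARQ : S_VARQ) (hFAC : S_FAC)
    {M : ℕ → ℕ} (hM : Tendsto M atTop atTop) (N₀ : ℕ) (a : ℝ) (N : ℕ) (t : ℕ → ℝ) :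
    Tendsto (fun j => (∫ x, Complex.exp (((a * UN N₀ (T j * x) + ∑ i ∈ Finset.range (N + 1), t i *
        pathU (ρ j) (M j) (L j) (T j * x) (pt N i) : ℝ) : ℂ) * Complex.I) ∂μ j) -
        (∫ x, Complex.exp (((a * UN N₀ (T j * x) : ℝ) : ℂ) * Complex.I) ∂μ j) * gam N t) atTop
        (𝓝 0) := by
  have hμ : ∀ j, IsProbabilityMeasure (μ j) := fun j => (S.adm j).prob
  have mU : ∀ T : ℝ, Measurable fun x => a * UN N₀ (T * x) := fun T =>
    ((UN_cont N₀).measurable.comp (measurable_const_mul T)).const_mul a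
  have hD := S.diff hUP hBLK hFOUR hMOM hM (H := fun j x => a * UN N₀ (T j * x))
    (fun j => mU (T j)) N t
  have hY := torus_char hBLK hCLT hFOUR S.r01 S.r0
      (fun a b ha hab => VAR_lim hVARQ S.r01 S.r0 S.Nr a b ha hab) N t
  obtain ⟨A, hA⟩ : ∃ A, A = ∑ i ∈ Finset.range (N + 1), |t i| := ⟨_, rfl⟩
  have hA0 : 0 ≤ A := by rw [hA]; exact Finset.sum_nonneg fun _ _ => abs_nonneg _
  obtain ⟨Bb, hBb⟩ : ∃ Bb, Bb = ∑ n ∈ Finset.Icc 1 N₀, |a| * cf n := ⟨_, rfl⟩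
  have hB0 : 0 ≤ Bb := by
    rw [hBb]
    exact Finset.sum_nonneg fun n _ => mul_nonneg (abs_nonneg _) (cf_nonneg n)
  have hgam : ‖gam N t‖ ≤ 1 := le_of_tendsto hY.norm (Eventually.of_forall fun j => norm_int_exp _)
  obtain ⟨cj, hcj⟩ : ∃ cj : ℕ → ℕ → ℂ, cj = fun j n => ∑ i ∈ Finset.range (N + 1), (t i : ℂ) *
    cc (ρ j) ((pt N i : unitInterval) : ℝ) n := ⟨_, rfl⟩
  have hdom : ∀ j, Dom (cj j) A (sg (ρ j)) (ρ j) := fun j => by
    rw [hcj, hA]
    exact dom_lin (S.r01 j).1 (Finset.range (N + 1)) t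
      (fun i => ((pt N i : unitInterval) : ℝ)) fun i _ => ⟨(pt N i).2.1, (pt N i).2.2⟩
  have hdom0 : ∀ j, Dom (fun _ => (0 : ℂ)) A (sg (ρ j)) (ρ j) := fun j => by
    refine ⟨fun n => ?_⟩
    rw [norm_zero, zero_pow two_ne_zero]
    have : 0 ≤ min 2 (2 * π ^ 2 * (n * ρ j ^ 2)) := le_min (by norm_num) (by positivity)
    positivity
  have hY' : Tendsto (fun j => ∫ θ, Complex.exp (((Y (cj j) (L j ^ 2) θ : ℝ) : ℂ) * Complex.I) ∂Th)
      atTop (𝓝 (gam N t)) := by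
    refine hY.congr fun j => ?_
    rw [hcj]
    simp_rw [Y_lin]
  -- the joint characteristic function at the points of the grid
  have hJ : Tendsto (fun j => (∫ x, Complex.exp (((a * UN N₀ (T j * x) +
        ∑ i ∈ Finset.range (N + 1), t i * G (cc (ρ j) ((pt N i : unitInterval) : ℝ)) (L j ^ 2)
          (T j * x) : ℝ) : ℂ) * Complex.I) ∂μ j) -
        (∫ x, Complex.exp (((a * UN N₀ (T j * x) : ℝ) : ℂ) * Complex.I) ∂μ j) * gam N t) atTop
        (𝓝 0) := by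
    rw [Metric.tendsto_atTop]
    intro ε hε
    obtain ⟨ρ₀, hρ₀, hfac⟩ := hFAC A N₀ (ε / 8) hA0 (by positivity)
    have ev1 : ∀ᶠ j in atTop, ρ j < ρ₀ := S.r0.eventually (gt_mem_nhds hρ₀)
    have ev2 := S.chr1 hMOM hUP hMB hFOUR hA0 hB0 (show 0 < ε / 8 by positivity)
    have ev3 : ∀ᶠ j in atTop, dist (∫ θ, Complex.exp (((Y (cj j) (L j ^ 2) θ : ℝ) : ℂ) *
        Complex.I) ∂Th) (gam N t) < ε / 8 := (Metric.tendsto_nhds.1 hY') (ε / 8) (by positivity)
    obtain ⟨j0, hj0⟩ := eventually_atTop.1 (ev1.and (ev2.and (ev3.and (S.N0 N₀))))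
    refine ⟨j0, fun j hj => ?_⟩
    obtain ⟨g1, g2, g3, g4⟩ := hj0 j hj
    have k1 := g2 (fun n => c0 N₀ a n + cj j n) ⟨c0 N₀ a, cj j, rfl, fun N' => by
      rw [hBb]; exact c0_l1 N₀ a N', hdom j⟩
    have k2 := g2 (c0 N₀ a) ⟨c0 N₀ a, fun _ => 0, by funext n; simp, fun N' => by
      rw [hBb]; exact c0_l1 N₀ a N', hdom0 j⟩
    have k3 := hfac (ρ j) (S.r01 j).1 g1.le (cj j) (c0 N₀ a) (L j ^ 2) (hdom j)
      (fun n hn => c0_zero N₀ a hn)
    have e1 : ∀ x, G (fun n => c0 N₀ a n + cj j n) (L j ^ 2) (T j * x) = a * UN N₀ (T j * x) +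
        ∑ i ∈ Finset.range (N + 1), t i * G (cc (ρ j) ((pt N i : unitInterval) : ℝ)) (L j ^ 2)
          (T j * x) := by
      intro x
      rw [G_add, G_c0 g4, hcj, G_lin]
    simp_rw [e1] at k1
    simp_rw [G_c0 g4] at k2
    rw [dist_zero_right]
    rw [dist_eq_norm] at g3
    obtain ⟨I1, hI1⟩ : ∃ I1 : ℂ, I1 = ∫ x, Complex.exp (((a * UN N₀ (T j * x) +
        ∑ i ∈ Finset.range (N + 1), t i * G (cc (ρ j) ((pt N i : unitInterval) : ℝ)) (L j ^ 2)
          (T j * x) : ℝ) : ℂ) * Complex.I) ∂μ j := ⟨_, rfl⟩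
    obtain ⟨I2, hI2⟩ : ∃ I2 : ℂ, I2 = ∫ θ, Complex.exp (((Y (fun n => c0 N₀ a n + cj j n)
      (L j ^ 2) θ : ℝ) : ℂ) * Complex.I) ∂Th := ⟨_, rfl⟩
    obtain ⟨I3, hI3⟩ : ∃ I3 : ℂ, I3 = ∫ θ, Complex.exp (((Y (c0 N₀ a) (L j ^ 2) θ : ℝ) : ℂ) *
      Complex.I) ∂Th := ⟨_, rfl⟩
    obtain ⟨I4, hI4⟩ : ∃ I4 : ℂ, I4 = ∫ θ, Complex.exp (((Y (cj j) (L j ^ 2) θ : ℝ) : ℂ) *
      Complex.I) ∂Th := ⟨_, rfl⟩
    obtain ⟨I5, hI5⟩ : ∃ I5 : ℂ, I5 = ∫ x, Complex.exp (((a * UN N₀ (T j * x) : ℝ) : ℂ) *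
      Complex.I) ∂μ j := ⟨_, rfl⟩
    rw [← hI1, ← hI5]
    rw [← hI1, ← hI2] at k1
    rw [← hI5, ← hI3] at k2
    rw [← hI2, ← hI3, ← hI4] at k3
    rw [← hI4] at g3
    have n3 : ‖I3‖ ≤ 1 := by rw [hI3]; exact norm_int_exp _
    have e2 : I1 - I5 * gam N t = (I1 - I2) + (I2 - I3 * I4) + I3 * (I4 - gam N t) +
        (I3 - I5) * gam N t := by ring
    rw [e2]
    have b1 : ‖I3 * (I4 - gam N t)‖ ≤ ε / 8 := by
      rw [norm_mul]
      calc ‖I3‖ * ‖I4 - gam N t‖ ≤ 1 * (ε / 8) :=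
            mul_le_mul n3 g3.le (norm_nonneg _) (by norm_num)
        _ = ε / 8 := one_mul _
    have b2 : ‖(I3 - I5) * gam N t‖ ≤ ε / 8 := by
      rw [norm_mul, norm_sub_rev]
      calc ‖I5 - I3‖ * ‖gam N t‖ ≤ (ε / 8) * 1 :=
            mul_le_mul k2 hgam (norm_nonneg _) (by positivity)
        _ = ε / 8 := mul_one _
    have b3 := norm_add_le ((I1 - I2) + (I2 - I3 * I4) + I3 * (I4 - gam N t)) ((I3 - I5) * gam N t)
    have b4 := norm_add_le ((I1 - I2) + (I2 - I3 * I4)) (I3 * (I4 - gam N t))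
    have b5 := norm_add_le (I1 - I2) (I2 - I3 * I4)
    linarith
  have h8 := hD.add hJ
  rw [zero_add] at h8
  refine h8.congr fun j => ?_
  ring

theorem Seq.tight (S : Seq c₁ c₂ K s T ρ (fun j => L j ^ 2) μ) (hUP : S_UP) (hBLK : S_BLK)
    (hFOUR : S_FOUR) (hTI : S_TIGHT) (hMOM : S_MOM)
    {M : ℕ → ℕ} (hM : Tendsto M atTop atTop)
    (hMT : ∀ δ : ℝ, 0 < δ → ∀ᶠ j in atTop, (M j : ℝ) ≤ T j ^ δ) (ε : ℝ) (hε : 0 < ε) (η : ℝ)
    (hη : 0 < η) : ∃ N0 : ℕ, ∀ N ≥ N0, ∀ᶠ j in atTop,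
      (μ j).real {x | ε < ‖pathU (ρ j) (M j) (L j) (T j * x) -
        interp N (pathU (ρ j) (M j) (L j) (T j * x))‖} ≤ η := by
  have hμ : ∀ j, IsProbabilityMeasure (μ j) := fun j => (S.adm j).prob
  have hs := S.s0
  obtain ⟨K4, hK4, hfour⟩ := four_incr hUP hBLK hFOUR
  have evM : ∀ᶠ j in atTop, 0 < M j := hM.eventually (eventually_gt_atTop 0)
  have mG : ∀ (c : ℕ → ℂ) (N : ℕ) (T : ℝ), Measurable fun x => G c N (T * x) := fun c N T =>
    (G_cont c N).measurable.comp (measurable_const_mul T)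
  obtain ⟨N0, hN0⟩ := hTI (K4 + 1) ε η (by linarith) hε hη
  refine ⟨N0, fun N hN => ?_⟩
  obtain ⟨M0, hM0⟩ := hN0 N hN
  have evM0 : ∀ᶠ j in atTop, M0 ≤ M j := hM.eventually (eventually_ge_atTop M0)
  filter_upwards [evM, evM0, S.four hMOM hUP hfour, hMT (s / 30) (by linarith)] with j g2 g3 g4 g5
  have hM' : (0 : ℝ) < M j := by exact_mod_cast g2
  have hT1 := S.T1 j
  have hT0 : 0 < T j := by linarith
  have ht : T j ^ (-(s / 20)) ≤ (1 / (M j : ℝ)) ^ (3 / 2 : ℝ) := by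
    rw [one_div, Real.inv_rpow hM'.le, Real.rpow_neg hT0.le]
    apply inv_anti₀ (by positivity)
    calc (M j : ℝ) ^ (3 / 2 : ℝ) ≤ (T j ^ (s / 30)) ^ (3 / 2 : ℝ) :=
          Real.rpow_le_rpow hM'.le g5 (by norm_num)
      _ = T j ^ (s / 20) := by
          rw [← Real.rpow_mul hT0.le]
          congr 1
          ring
  have h := hM0 (M j) g3 ℝ (μ j) (fun i x => G (cc (ρ j) ((i : ℝ) / M j)) (L j ^ 2) (T j * x))
    (fun i => mG _ _ _) (fun i => ⟨_, fun x => G_bound _ _ _⟩) ?_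
  · simp_rw [pathU_eq]
    exact h
  · intro a b hab hb
    rcases eq_or_lt_of_le hab with rfl | hlt
    · simp
    have h1 : (a : ℝ) ≤ b := by exact_mod_cast hab
    have h2 : (b : ℝ) ≤ M j := by exact_mod_cast hb
    have h1' : (a : ℝ) + 1 ≤ b := by exact_mod_cast hlt
    have h3 := g4 ((a : ℝ) / M j) ((b : ℝ) / M j) (by positivity) (by gcongr)
      (by rw [div_le_one hM']; exact h2)
    rw [← sub_div] at h3
    refine h3.trans ?_
    have h6 : (1 / (M j : ℝ)) ^ (3 / 2 : ℝ) ≤ (((b : ℝ) - a) / M j) ^ (3 / 2 : ℝ) := by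
      apply Real.rpow_le_rpow (by positivity) _ (by norm_num)
      gcongr
      linarith
    have e : (K4 + 1) * (((b : ℝ) - a) / M j) ^ (3 / 2 : ℝ) =
      K4 * (((b : ℝ) - a) / M j) ^ (3 / 2 : ℝ) + (((b : ℝ) - a) / M j) ^ (3 / 2 : ℝ) := by ring
    rw [e]
    linarith

end

theorem mkL (hAPX : S_APX) {c₁ c₂ K s : ℝ} (hc₁ : 0 < c₁) (hs : 1 / 3 < s) {T ρ : ℕ → ℝ}
    {M : ℕ → ℕ} {μ : ℕ → Measure ℝ} (hadm : ∀ j, AdmL c₁ c₂ K s (T j) (μ j)) (hT1 : ∀ j, 1 < T j)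
    (hT : Tendsto T atTop atTop) (hρ : ∀ j, 0 < ρ j ∧ ρ j < 1) (hρ0 : Tendsto ρ atTop (𝓝 0))
    (hM : Tendsto M atTop atTop)
    (hδ : ∀ δ : ℝ, 0 < δ → ∀ᶠ j in atTop, T j ^ (-δ) ≤ ρ j ∧ (M j : ℝ) ≤ T j ^ δ) :
    ∃ L : ℕ → ℕ, Seq c₁ c₂ K s T ρ (fun j => L j ^ 2) μ ∧ ∀ ε : ℝ, 0 < ε →
      Tendsto (fun j => (μ j).real {x | ε < ‖pathR (ρ j) (M j) (T j * x) -
        pathU (ρ j) (M j) (L j) (T j * x)‖}) atTop (𝓝 0) := by
  obtain ⟨C, τ, T₀, hC, hτ, hapx⟩ := hAPX c₁ c₂ K s hc₁ hs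
  obtain ⟨b, hb2, hbτ⟩ : ∃ b : ℕ, 2 ≤ b ∧ 3 ≤ b * τ := by
    refine ⟨⌈3 / τ⌉₊ + 2, by omega, ?_⟩
    have h1 := Nat.le_ceil (3 / τ)
    rw [div_le_iff₀ hτ] at h1
    push_cast
    nlinarith
  obtain ⟨m, hm⟩ : ∃ m : ℕ → ℝ, m = fun j => max (1 / ρ j) (M j) := ⟨_, rfl⟩
  have hm1 : ∀ j, 1 / ρ j ≤ m j := fun j => by rw [hm]; exact le_max_left _ _
  have hm2 : ∀ j, (M j : ℝ) ≤ m j := fun j => by rw [hm]; exact le_max_right _ _
  have hm0 : ∀ j, 1 ≤ m j := fun j => by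
    refine le_trans ?_ (hm1 j)
    rw [le_div_iff₀ (hρ j).1]
    linarith [(hρ j).2]
  obtain ⟨L, hL⟩ : ∃ L : ℕ → ℕ, L = fun j => ⌈m j ^ b⌉₊ := ⟨_, rfl⟩
  have hL1 : ∀ j, m j ^ b ≤ L j := fun j => by rw [hL]; exact Nat.le_ceil _
  have hL2 : ∀ j, (L j : ℝ) ≤ m j ^ b + 1 := fun j => by
    rw [hL]
    exact (Nat.ceil_lt_add_one (by have := hm0 j; positivity)).le
  have hLone : ∀ j, 1 ≤ L j := fun j => by
    have h1 : (1 : ℝ) ≤ L j := (one_le_pow₀ (hm0 j)).trans (hL1 j)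
    exact_mod_cast h1
  have hmT : ∀ δ : ℝ, 0 < δ → ∀ᶠ j in atTop, m j ≤ T j ^ δ := by
    intro δ hδ0
    filter_upwards [hδ δ hδ0] with j hj
    rw [hm]
    apply max_le _ hj.2
    have hT0 : 0 < T j := by linarith [hT1 j]
    rw [one_div]
    have h1 := inv_anti₀ (by positivity) hj.1
    rwa [Real.rpow_neg hT0.le, inv_inv] at h1
  have hNT : ∀ δ : ℝ, 0 < δ → ∀ᶠ j in atTop, ((L j ^ 2 : ℕ) : ℝ) ≤ T j ^ δ := by
    intro δ hδ0
    have hbp : (0 : ℝ) < b := by exact_mod_cast (by omega : 0 < b)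
    filter_upwards [hmT (δ / (4 * b)) (by positivity), ev_const hT 4 (half_pos hδ0)] with j g1 g2
    have hT0 : 0 < T j := by linarith [hT1 j]
    have h1 : m j ^ b ≤ T j ^ (δ / 4) := by
      calc m j ^ b ≤ (T j ^ (δ / (4 * b))) ^ b :=
            pow_le_pow_left₀ (by linarith [hm0 j]) g1 b
        _ = T j ^ (δ / 4) := by
            rw [← Real.rpow_natCast, ← Real.rpow_mul hT0.le]
            congr 1
            field_simp
    have h2 : (1 : ℝ) ≤ T j ^ (δ / 4) := (one_le_pow₀ (hm0 j)).trans h1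
    have h3 : (L j : ℝ) ≤ 2 * T j ^ (δ / 4) := by linarith [hL2 j]
    push_cast
    calc (L j : ℝ) ^ 2 ≤ (2 * T j ^ (δ / 4)) ^ 2 := pow_le_pow_left₀ (Nat.cast_nonneg _) h3 2
      _ = 4 * (T j ^ (δ / 4) * T j ^ (δ / 4)) := by ring
      _ = 4 * T j ^ (δ / 2) := by
          rw [← Real.rpow_add hT0]
          congr 2
          ring
      _ ≤ T j ^ (δ / 2) * T j ^ (δ / 2) := by gcongr
      _ = T j ^ δ := by
          rw [← Real.rpow_add hT0]
          congr 1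
          ring
  refine ⟨L, ?_, ?_⟩
  · refine ⟨hadm, hs, hT1, hT, hρ, hρ0, fun j => Nat.one_le_pow _ _ (hLone j), hNT, ?_⟩
    refine Eventually.of_forall fun j => ?_
    have h1 : (1 / ρ j) ^ 2 ≤ L j := by
      have h2 : (1 / ρ j) ^ 2 ≤ m j ^ 2 := pow_le_pow_left₀ (by have := (hρ j).1; positivity) (hm1 j) 2
      exact h2.trans ((pow_le_pow_right₀ (hm0 j) hb2).trans (hL1 j))
    have h3 : ((1 / ρ j) ^ 2) ^ 2 ≤ (L j : ℝ) ^ 2 := pow_le_pow_left₀ (by positivity) h1 2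
    have h4 : ρ j ^ (-4 : ℝ) = ((1 / ρ j) ^ 2) ^ 2 := by
      rw [Real.rpow_neg (hρ j).1.le, one_div, ← pow_mul, inv_pow]
      congr 1
      rw [← Real.rpow_natCast]
      norm_num
    rw [h4]
    push_cast
    exact h3
  · intro ε hε
    have hlim : Tendsto (fun j => C / (8 * ε ^ 2) * ρ j) atTop (𝓝 0) := by
      have := hρ0.const_mul (C / (8 * ε ^ 2))
      rwa [mul_zero] at this
    refine squeeze_zero' (Eventually.of_forall fun j => measureReal_nonneg) ?_ hlim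
    filter_upwards [ev_log hρ hρ0, hT.eventually (eventually_ge_atTop T₀), hNT τ hτ,
      hM.eventually (eventually_ge_atTop 1)] with j g1 g2 g3 g4
    have hr := (hρ j).1
    have hLτ : (L j : ℝ) ≤ T j ^ τ := by
      refine le_trans ?_ g3
      have : L j ≤ L j ^ 2 := by
        have := hLone j
        nlinarith
      exact_mod_cast this
    refine (hapx (T j) (ρ j) (M j) (L j) g2 hr (hρ j).2 g4 (hLone j) hLτ (μ j) (hadm j) ε hε).trans ?_
    have hmp : 0 < m j := by linarith [hm0 j]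
    have k1 : (L j : ℝ) ^ (-τ) ≤ m j ^ (-3 : ℝ) := by
      calc (L j : ℝ) ^ (-τ) ≤ (m j ^ b) ^ (-τ) :=
            Real.rpow_le_rpow_of_nonpos (by positivity) (hL1 j) (by linarith)
        _ = m j ^ (-(b * τ)) := by
            rw [← Real.rpow_natCast, ← Real.rpow_mul hmp.le]
            congr 1
            ring
        _ ≤ m j ^ (-3 : ℝ) := Real.rpow_le_rpow_of_exponent_le (hm0 j) (by linarith)
    have k2 : (M j : ℝ) + 1 ≤ 2 * m j := by linarith [hm0 j, hm2 j]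
    have k3 : 16 * ρ j ≤ sg (ρ j) ^ 2 := by
      rw [sg_sq hr (hρ j).2]
      nlinarith
    have k4 : m j ^ (-3 : ℝ) * m j = m j ^ (-2 : ℝ) := by
      nth_rewrite 2 [← Real.rpow_one (m j)]
      rw [← Real.rpow_add hmp]
      norm_num
    have k5 : m j ^ (-2 : ℝ) ≤ ρ j ^ 2 := by
      have h1 : (1 / ρ j) ^ (2 : ℝ) ≤ m j ^ (2 : ℝ) :=
        Real.rpow_le_rpow (by positivity) (hm1 j) (by norm_num)
      rw [Real.rpow_neg hmp.le]
      calc (m j ^ (2 : ℝ))⁻¹ ≤ ((1 / ρ j) ^ (2 : ℝ))⁻¹ := inv_anti₀ (by positivity) h1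
        _ = ρ j ^ 2 := by
            rw [one_div, Real.inv_rpow hr.le, inv_inv, ← Real.rpow_natCast]
            norm_num
    calc C * (M j + 1) * (L j : ℝ) ^ (-τ) / (ε ^ 2 * sg (ρ j) ^ 2)
        ≤ C * (2 * m j) * m j ^ (-3 : ℝ) / (ε ^ 2 * (16 * ρ j)) := by gcongr
      _ = C / (8 * ε ^ 2) * (m j ^ (-3 : ℝ) * m j) / ρ j := by
          field_simp
          ring
      _ = C / (8 * ε ^ 2) * m j ^ (-2 : ℝ) / ρ j := by rw [k4]
      _ ≤ C / (8 * ε ^ 2) * ρ j ^ 2 / ρ j := by gcongr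
      _ = C / (8 * ε ^ 2) * ρ j := by
          field_simp

/-- expansion of the weight -/
theorem wexp {μ : Measure ℝ} [IsProbabilityMeasure μ] {U Z : ℝ → ℝ} (hU : Measurable U)
    (hZ : Measurable Z) (a b : ℝ) :
    ∫ x, ((2 + cos (a * U x + b) : ℝ) : ℂ) * Complex.exp (((Z x : ℝ) : ℂ) * Complex.I) ∂μ =
      2 * ∫ x, Complex.exp (((0 * U x + Z x : ℝ) : ℂ) * Complex.I) ∂μ +
      (1 / 2) * Complex.exp ((b : ℂ) * Complex.I) *
        ∫ x, Complex.exp (((a * U x + Z x : ℝ) : ℂ) * Complex.I) ∂μ +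
      (1 / 2) * Complex.exp (((-b : ℝ) : ℂ) * Complex.I) *
        ∫ x, Complex.exp ((((-a) * U x + Z x : ℝ) : ℂ) * Complex.I) ∂μ := by
  have i0 : ∀ a : ℝ, Integrable (fun x => Complex.exp (((a * U x + Z x : ℝ) : ℂ) * Complex.I)) μ :=
    fun a => int_exp ((hU.const_mul a).add hZ)
  have i1 : Integrable (fun x => 2 * Complex.exp (((0 * U x + Z x : ℝ) : ℂ) * Complex.I) +
      (1 / 2) * Complex.exp ((b : ℂ) * Complex.I) *
        Complex.exp (((a * U x + Z x : ℝ) : ℂ) * Complex.I)) μ :=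
    ((i0 0).const_mul _).add ((i0 a).const_mul _)
  rw [← integral_const_mul, ← integral_const_mul, ← integral_const_mul,
    ← integral_add ((i0 0).const_mul _) ((i0 a).const_mul _),
    ← integral_add i1 ((i0 (-a)).const_mul _)]
  refine integral_congr_ae (Eventually.of_forall fun x => ?_)
  show ((2 + cos (a * U x + b) : ℝ) : ℂ) * Complex.exp (((Z x : ℝ) : ℂ) * Complex.I) =
    2 * Complex.exp (((0 * U x + Z x : ℝ) : ℂ) * Complex.I) +
      (1 / 2) * Complex.exp ((b : ℂ) * Complex.I) *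
        Complex.exp (((a * U x + Z x : ℝ) : ℂ) * Complex.I) +
      (1 / 2) * Complex.exp (((-b : ℝ) : ℂ) * Complex.I) *
        Complex.exp ((((-a) * U x + Z x : ℝ) : ℂ) * Complex.I)
  have e1 : ((cos (a * U x + b) : ℝ) : ℂ) = (1 / 2) * Complex.exp (((a * U x + b : ℝ) : ℂ) *
      Complex.I) + (1 / 2) * Complex.exp (((-(a * U x + b) : ℝ) : ℂ) * Complex.I) := by
    rw [Complex.ofReal_cos, Complex.cos]
    push_cast
    rw [neg_mul]
    ring
  have e2 : Complex.exp (((a * U x + Z x : ℝ) : ℂ) * Complex.I) *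
      Complex.exp ((b : ℂ) * Complex.I) = Complex.exp (((a * U x + b : ℝ) : ℂ) * Complex.I) *
        Complex.exp (((Z x : ℝ) : ℂ) * Complex.I) := by
    rw [← Complex.exp_add, ← Complex.exp_add]
    congr 1
    push_cast
    ring
  have e3 : Complex.exp ((((-a) * U x + Z x : ℝ) : ℂ) * Complex.I) *
      Complex.exp (((-b : ℝ) : ℂ) * Complex.I) =
        Complex.exp (((-(a * U x + b) : ℝ) : ℂ) * Complex.I) *
        Complex.exp (((Z x : ℝ) : ℂ) * Complex.I) := by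
    rw [← Complex.exp_add, ← Complex.exp_add]
    congr 1
    push_cast
    ring
  rw [zero_mul, zero_add, Complex.ofReal_add, e1, Complex.ofReal_ofNat]
  linear_combination (-1 / 2 : ℂ) * e2 + (-1 / 2 : ℂ) * e3

theorem t_COS (hUP : S_UP) (hBLK : S_BLK) (hCLT : S_CLT) (hFOUR : S_FOUR) (hTI : S_TIGHT)
    (hMOM : S_MOM) (hMB : S_MB) (hVARQ : S_VARQ) (hAPX : S_APX) (hSLU : S_SLU) (hRM : S_RM)
    (hFAC : S_FAC) (hTILT : S_TILT) (hSEQ : S_SEQ) : S_COS := by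
  intro c₁ c₂ K s hc₁ hs T ρ M μ hadm hT1 hT hρ hρ0 hM hδ Ω _ P B hB F L₀ a b
  have hP : IsProbabilityMeasure P := hB.isGaussianProcess.isProbabilityMeasure
  let _ : MeasurableSpace C(unitInterval, ℝ) := borel _
  have _ : BorelSpace C(unitInterval, ℝ) := ⟨rfl⟩
  have hμ : ∀ j, IsProbabilityMeasure (μ j) := fun j => (hadm j).prob
  obtain ⟨L, S, hclose⟩ := mkL hAPX hc₁ hs hadm hT1 hT hρ hρ0 hM hδ
  obtain ⟨U, hU⟩ : ∃ U : ℕ → ℝ → ℝ, U = fun j x => UN (L₀ ^ 2) (T j * x) := ⟨_, rfl⟩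
  have mU : ∀ j, Measurable (U j) := fun j => by
    rw [hU]
    exact (UN_cont (L₀ ^ 2)).measurable.comp (measurable_const_mul (T j))
  obtain ⟨w, hw⟩ : ∃ w : ℕ → ℝ → ℝ, w = fun j x => 2 + cos (a * U j x + b) := ⟨_, rfl⟩
  have mw : ∀ j, Measurable (w j) := fun j => by
    rw [hw]
    exact (Real.measurable_cos.comp (((mU j).const_mul a).add_const b)).const_add 2
  have hw13 : ∀ j x, 1 ≤ w j x ∧ w j x ≤ 3 := fun j x => by
    rw [hw]
    have h1 := Real.neg_one_le_cos (a * U j x + b)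
    have h2 := Real.cos_le_one (a * U j x + b)
    constructor
    · show 1 ≤ 2 + cos (a * U j x + b)
      linarith
    · show 2 + cos (a * U j x + b) ≤ 3
      linarith
  choose ν hν1 hν2 hν3 hν4 using fun j => hTILT (μ j) (w j) (hμ j) (mw j) (hw13 j)
  have iw : ∀ j, Integrable (w j) (μ j) := fun j =>
    Integrable.of_bound (mw j).aestronglyMeasurable 3 (Eventually.of_forall fun x => by
      rw [Real.norm_eq_abs, abs_le]
      exact ⟨by linarith [(hw13 j x).1], (hw13 j x).2⟩)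
  have W1 : ∀ j, 1 ≤ ∫ x, w j x ∂μ j := fun j => by
    have := integral_mono (integrable_const (1 : ℝ)) (iw j) (fun x => (hw13 j x).1)
    simpa using this
  have W3 : ∀ j, ∫ x, w j x ∂μ j ≤ 3 := fun j => by
    have := integral_mono (iw j) (integrable_const (3 : ℝ)) (fun x => (hw13 j x).2)
    simpa using this
  have hMT : ∀ δ : ℝ, 0 < δ → ∀ᶠ j in atTop, (M j : ℝ) ≤ T j ^ δ :=
    fun δ h => (hδ δ h).mono fun j hj => hj.2
  -- convergence under the tilted measures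
  have hconv : ∀ F' : C(unitInterval, ℝ) →ᵇ ℝ,
      Tendsto (fun j => ∫ x, F' (pathU (ρ j) (M j) (L j) (T j * x)) ∂ν j) atTop
        (𝓝 (∫ ω, F' (bpath B ω) ∂P)) := by
    intro F'
    refine donsker_abs (ν := ν) (X := fun j x => pathU (ρ j) (M j) (L j) (T j * x))
      (Z := bpath B) (P := P) (fun j => (hRM (ρ j) (T j) (M j) (L j)).2) (bpath_aem hB) ?_ ?_ F'
    · intro N t
      rw [bchar hB N t]
      have hj := fun a' : ℝ => S.joint hUP hBLK hCLT hFOUR hMOM hMB hVARQ hFAC hM (L₀ ^ 2) a' N t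
      obtain ⟨Z, hZ⟩ : ∃ Z : ℕ → ℝ → ℝ, Z = fun j x => ∑ i ∈ Finset.range (N + 1), t i *
        pathU (ρ j) (M j) (L j) (T j * x) (pt N i) := ⟨_, rfl⟩
      have mZ : ∀ j, Measurable (Z j) := fun j => by
        rw [hZ]
        exact Finset.measurable_fun_sum _ fun i _ => ((continuous_eval_const _).measurable.comp
          (hRM (ρ j) (T j) (M j) (L j)).2).const_mul _
      have k0 := (hj 0).const_mul 2
      have k1 := (hj a).const_mul ((1 / 2) * Complex.exp ((b : ℂ) * Complex.I))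
      have k2 := (hj (-a)).const_mul ((1 / 2) * Complex.exp (((-b : ℝ) : ℂ) * Complex.I))
      have k3 := (k0.add k1).add k2
      simp only [mul_zero, add_zero] at k3
      have k4 : Tendsto (fun j => (∫ x, (w j x : ℂ) * Complex.exp (((Z j x : ℝ) : ℂ) *
          Complex.I) ∂μ j) - ((∫ x, w j x ∂μ j : ℝ) : ℂ) * gam N t) atTop (𝓝 0) := by
        refine k3.congr fun j => ?_
        have e1 := wexp (μ := μ j) (mU j) (mZ j) a b
        have e2 := wexp (μ := μ j) (mU j) (measurable_const (a := (0 : ℝ))) a b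
        have e3 : ((∫ x, w j x ∂μ j : ℝ) : ℂ) = ∫ x, ((2 + cos (a * U j x + b) : ℝ) : ℂ) *
            Complex.exp ((((0 : ℝ) : ℝ) : ℂ) * Complex.I) ∂μ j := by
          rw [← integral_complex_ofReal, hw]
          simp
        have e4 : ∫ x, (w j x : ℂ) * Complex.exp (((Z j x : ℝ) : ℂ) * Complex.I) ∂μ j =
            ∫ x, ((2 + cos (a * U j x + b) : ℝ) : ℂ) *
            Complex.exp (((Z j x : ℝ) : ℂ) * Complex.I) ∂μ j := by rw [hw]
        rw [e3, e2, e4, e1, hU, hZ]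
        simp only [add_zero]
        ring
      have k5 : Tendsto (fun j => ((∫ x, (w j x : ℂ) * Complex.exp (((Z j x : ℝ) : ℂ) *
          Complex.I) ∂μ j) - ((∫ x, w j x ∂μ j : ℝ) : ℂ) * gam N t) /
            ((∫ x, w j x ∂μ j : ℝ) : ℂ)) atTop (𝓝 0) := by
        refine squeeze_zero_norm (a := fun j => ‖(∫ x, (w j x : ℂ) * Complex.exp (((Z j x : ℝ) :
          ℂ) * Complex.I) ∂μ j) - ((∫ x, w j x ∂μ j : ℝ) : ℂ) * gam N t‖) (fun j => ?_) (by
            have := k4.norm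
            rwa [norm_zero] at this)
        rw [norm_div, Complex.norm_real, Real.norm_eq_abs,
          abs_of_nonneg (by linarith [W1 j])]
        exact div_le_self (norm_nonneg _) (W1 j)
      have k6 := k5.add_const (gam N t)
      rw [zero_add] at k6
      refine k6.congr fun j => ?_
      have hne : ((∫ x, w j x ∂μ j : ℝ) : ℂ) ≠ 0 := by
        have := W1 j
        exact_mod_cast (by linarith : (∫ x, w j x ∂μ j : ℝ) ≠ 0)
      rw [sub_div, mul_div_cancel_left₀ _ hne, sub_add_cancel, ← hν2 j, hZ]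
    · intro ε hε η hη
      obtain ⟨N0, hN0⟩ := S.tight hUP hBLK hFOUR hTI hMOM hM hMT ε hε (η / 3) (by positivity)
      refine ⟨N0, fun N hN => ?_⟩
      filter_upwards [hN0 N hN] with j hj
      refine (hν4 j _).trans ?_
      linarith
  have hR : Tendsto (fun j => ∫ x, F (pathR (ρ j) (M j) (T j * x)) ∂ν j) atTop
      (𝓝 (∫ ω, F (bpath B ω) ∂P)) := by
    refine hSLU ν (fun j x => pathR (ρ j) (M j) (T j * x))
      (fun j x => pathU (ρ j) (M j) (L j) (T j * x)) P (bpath B) hν1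
      (fun j => (hRM (ρ j) (T j) (M j) (L j)).1) (fun j => (hRM (ρ j) (T j) (M j) (L j)).2)
      (bpath_aem hB) hconv ?_ F
    intro ε hε
    have h1 := (hclose ε hε).const_mul 3
    rw [mul_zero] at h1
    exact squeeze_zero (fun j => measureReal_nonneg) (fun j => hν4 j _) h1
  -- conclusion
  have hS := hSEQ c₁ c₂ K s hc₁ hs T ρ M μ hadm hT1 hT hρ hρ0 hM hδ P B hB F
  obtain ⟨f0, hf0⟩ : ∃ f0, f0 = ∫ ω, F (bpath B ω) ∂P := ⟨_, rfl⟩
  rw [← hf0] at hR hS ⊢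
  have iF : ∀ j, Integrable (fun x => F (pathR (ρ j) (M j) (T j * x))) (μ j) := fun j =>
    Integrable.of_bound ((F.continuous.measurable.comp
      (hRM (ρ j) (T j) (M j) (L j)).1).aestronglyMeasurable) ‖F‖
      (Eventually.of_forall fun x => F.norm_coe_le_norm _)
  have mc : ∀ j, Measurable (fun x => cos (a * U j x + b)) := fun j =>
    Real.measurable_cos.comp (((mU j).const_mul a).add_const b)
  have icF : ∀ j, Integrable (fun x => cos (a * U j x + b) *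
      F (pathR (ρ j) (M j) (T j * x))) (μ j) := fun j =>
    (iF j).bdd_mul (mc j).aestronglyMeasurable (c := 1)
      (Eventually.of_forall fun x => by
        rw [Real.norm_eq_abs]
        exact Real.abs_cos_le_one _)
  have ic : ∀ j, Integrable (fun x => cos (a * U j x + b)) (μ j) := fun j =>
    Integrable.of_bound (mc j).aestronglyMeasurable 1 (Eventually.of_forall fun x => by
        rw [Real.norm_eq_abs]
        exact Real.abs_cos_le_one _)
  have q1 : ∀ j, ∫ x, w j x * F (pathR (ρ j) (M j) (T j * x)) ∂μ j =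
      2 * ∫ x, F (pathR (ρ j) (M j) (T j * x)) ∂μ j +
      ∫ x, cos (a * U j x + b) * F (pathR (ρ j) (M j) (T j * x)) ∂μ j := by
    intro j
    rw [← integral_const_mul, ← integral_add ((iF j).const_mul _) (icF j), hw]
    refine integral_congr_ae (Eventually.of_forall fun x => ?_)
    show (2 + cos (a * U j x + b)) * F (pathR (ρ j) (M j) (T j * x)) = _
    ring
  have q2 : ∀ j, ∫ x, w j x ∂μ j = 2 + ∫ x, cos (a * U j x + b) ∂μ j := by
    intro j
    rw [hw]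
    show ∫ x, (2 + cos (a * U j x + b)) ∂μ j = _
    rw [integral_add (integrable_const _) (ic j)]
    simp
  have q3 : Tendsto (fun j => (∫ x, w j x ∂μ j) *
      ((∫ x, F (pathR (ρ j) (M j) (T j * x)) ∂ν j) - f0)) atTop (𝓝 0) := by
    have h1 : Tendsto (fun j => (∫ x, F (pathR (ρ j) (M j) (T j * x)) ∂ν j) - f0) atTop (𝓝 0) := by
      have := hR.sub_const f0
      rwa [sub_self] at this
    have h2 := (h1.norm).const_mul 3
    rw [norm_zero, mul_zero] at h2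
    refine squeeze_zero_norm (fun j => ?_) h2
    rw [norm_mul]
    apply mul_le_mul_of_nonneg_right _ (norm_nonneg _)
    rw [Real.norm_eq_abs, abs_of_nonneg (by linarith [W1 j])]
    exact W3 j
  have q4 : Tendsto (fun j => 2 * ((∫ x, F (pathR (ρ j) (M j) (T j * x)) ∂μ j) - f0)) atTop
      (𝓝 0) := by
    have := (hS.sub_const f0).const_mul 2
    rwa [sub_self, mul_zero] at this
  have q5 := q3.sub q4
  rw [sub_zero] at q5
  refine q5.congr fun j => ?_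
  have hW := W1 j
  have e1 : (∫ x, w j x ∂μ j) * ∫ x, F (pathR (ρ j) (M j) (T j * x)) ∂ν j =
      ∫ x, w j x * F (pathR (ρ j) (M j) (T j * x)) ∂μ j := by
    rw [hν3 j]
    field_simp
  have e2 : (∫ x, cos (a * UN (L₀ ^ 2) (T j * x) + b) * F (pathR (ρ j) (M j) (T j * x)) ∂μ j) =
      ∫ x, cos (a * U j x + b) * F (pathR (ρ j) (M j) (T j * x)) ∂μ j := by rw [hU]
  have e3 : (∫ x, cos (a * UN (L₀ ^ 2) (T j * x) + b) ∂μ j) =
      ∫ x, cos (a * U j x + b) ∂μ j := by rw [hU]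
  rw [e2, e3, mul_sub, e1, q1 j, q2 j]
  ring

end Pool.Agent.U581.LB
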