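import Pool.Agent.U581.LB.Stm

/-!
# Project LQ: short windows
-/

set_option autoImplicit false

namespace Pool.Agent.U581.LB

open Real MeasureTheory Filter Topology ProbabilityTheory
open scoped BoundedContinuousFunction NNReal

/-- the uniform distribution on `[1, 1 + h]` -/
noncomputable def mw (h : ℝ) : Measure ℝ :=
  ENNReal.ofReal (1 / h) • volume.restrict (Set.Ioc 1 (1 + h))

theorem mw_prob {h : ℝ} (h0 : 0 < h) : IsProbabilityMeasure (mw h) := ⟨by
  unfold mw
  rw [Measure.smul_apply, Measure.restrict_apply_univ, Real.volume_Ioc, smul_eq_mul,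
    ← ENNReal.ofReal_mul (by positivity)]
  have : 1 / h * (1 + h - 1) = 1 := by
    field_simp
    ring
  rw [this, ENNReal.ofReal_one]⟩

theorem int_mw {E : Type*} [NormedAddCommGroup E] [NormedSpace ℝ E] {h : ℝ} (h0 : 0 < h)
    (f : ℝ → E) : ∫ x, f x ∂(mw h) = (1 / h) • ∫ x in (1 : ℝ)..(1 + h), f x := by
  unfold mw
  rw [integral_smul_measure, intervalIntegral.integral_of_le (by linarith),
    ENNReal.toReal_ofReal (by positivity)]

theorem int_win {T H : ℝ} (hT : 0 < T) (hH : 0 < H) (f : ℝ → ℝ) :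
    ∫ x, f (T * x) ∂(mw (H / T)) = 1 / H * ∫ R in T..(T + H), f R := by
  rw [int_mw (by positivity), intervalIntegral.integral_comp_mul_left f hT.ne', smul_eq_mul,
    smul_eq_mul]
  have e1 : T * (1 + H / T) = T + H := by field_simp
  rw [e1, mul_one, ← mul_assoc]
  congr 1
  field_simp

theorem four_mw {h : ℝ} (h0 : 0 < h) {t : ℝ} (ht : 0 < |t|) :
    ‖∫ x, Complex.exp (((t * x : ℝ) : ℂ) * Complex.I) ∂(mw h)‖ ≤ 1 / h * (2 / |t|) := by
  have ht0 : t ≠ 0 := abs_pos.1 ht
  have hc : (t : ℂ) * Complex.I ≠ 0 := mul_ne_zero (by exact_mod_cast ht0) Complex.I_ne_zero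
  rw [int_mw h0, norm_smul, Real.norm_eq_abs, abs_of_pos (by positivity : 0 < 1 / h)]
  apply mul_le_mul_of_nonneg_left _ (by positivity)
  have h1 : ∀ x : ℝ, Complex.exp (((t * x : ℝ) : ℂ) * Complex.I) =
      Complex.exp ((t : ℂ) * Complex.I * (x : ℂ)) := by
    intro x
    congr 1
    push_cast
    ring
  simp_rw [h1]
  rw [integral_exp_mul_complex hc, norm_div, norm_mul, Complex.norm_I, mul_one, Complex.norm_real,
    Real.norm_eq_abs]
  have e : ∀ y : ℝ, ‖Complex.exp ((t : ℂ) * Complex.I * (y : ℂ))‖ = 1 := by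
    intro y
    rw [show (t : ℂ) * Complex.I * (y : ℂ) = ((t * y : ℝ) : ℂ) * Complex.I by push_cast; ring]
    exact Complex.norm_exp_ofReal_mul_I _
  have h2 : ‖Complex.exp ((t : ℂ) * Complex.I * ((1 + h : ℝ) : ℂ)) -
      Complex.exp ((t : ℂ) * Complex.I * ((1 : ℝ) : ℂ))‖ ≤ 2 := by
    refine (norm_sub_le _ _).trans ?_
    rw [e, e]
    norm_num
  gcongr

theorem win_adm {κ T H : ℝ} (hκ : 0 < κ) (hκ1 : κ ≤ 1 / 15) (hT : 1 ≤ T)
    (hH : T ^ (14 / 15 + κ) ≤ H) (hHT : H ≤ T) :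
    AdmL 1 2 2 (1 / 3 + 10 * κ) T (mw (H / T)) := by
  have hT0 : 0 < T := by linarith
  have hH0 : 0 < H := lt_of_lt_of_le (by positivity) hH
  have hh : 0 < H / T := by positivity
  have hh1 : H / T ≤ 1 := by rw [div_le_one hT0]; exact hHT
  refine ⟨mw_prob hh, ?_, ?_⟩
  · have h : ∀ᵐ x ∂(volume.restrict (Set.Ioc 1 (1 + H / T))), x ∈ Set.Ioc 1 (1 + H / T) :=
      ae_restrict_mem measurableSet_Ioc
    have h' : ∀ᵐ x ∂(mw (H / T)), x ∈ Set.Ioc 1 (1 + H / T) := Measure.ae_smul_measure h _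
    filter_upwards [h'] with x hx
    exact ⟨hx.1.le, hx.2.trans (by linarith)⟩
  · intro t ht _
    have ht1 : 1 ≤ |t| := (Real.one_le_rpow hT (by norm_num)).trans ht
    have htp : 0 < |t| := by linarith
    refine (four_mw hh htp).trans ?_
    have k1 : T ≤ |t| ^ (10 : ℝ) := by
      calc T = (T ^ (1 / 10 : ℝ)) ^ (10 : ℝ) := by
            rw [← Real.rpow_mul hT0.le]
            norm_num
        _ ≤ |t| ^ (10 : ℝ) := Real.rpow_le_rpow (by positivity) ht (by norm_num)
    have k2 : 1 / (H / T) ≤ |t| ^ (2 / 3 - 10 * κ) := by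
      calc 1 / (H / T) = T / H := by rw [one_div_div]
        _ ≤ T / T ^ (14 / 15 + κ) := by gcongr
        _ = T ^ (1 / 15 - κ) := by
            nth_rewrite 1 [← Real.rpow_one T]
            rw [← Real.rpow_sub hT0]
            congr 1
            ring
        _ ≤ (|t| ^ (10 : ℝ)) ^ (1 / 15 - κ) := Real.rpow_le_rpow hT0.le k1 (by linarith)
        _ = |t| ^ (2 / 3 - 10 * κ) := by
            rw [← Real.rpow_mul htp.le]
            congr 1
            ring
    calc 1 / (H / T) * (2 / |t|) ≤ |t| ^ (2 / 3 - 10 * κ) * (2 / |t|) := by gcongr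
      _ = 2 * (|t| ^ (2 / 3 - 10 * κ) * |t| ^ (-1 : ℝ)) := by
          rw [Real.rpow_neg_one]
          ring
      _ = 2 * |t| ^ (-(1 / 3 + 10 * κ)) := by
          rw [← Real.rpow_add htp]
          congr 2
          ring

end Pool.Agent.U581.LB
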