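import Pool.Agent.U581.LB.FinQ
import Pool.Agent.U581.LB.JB
import Pool.Agent.U581.LB.Win
import Pool.Agent.U461.LB.MB1
import Pool.Agent.U170.LB.MSQ
import Pool.Agent.U851.LB.FAC
import Pool.Agent.U278.LB.TILT
import Pool.Agent.U535.LB.TRG
import Pool.Agent.U934.LB.JSEQ
import Pool.Agent.U962.LB.JMAIN

/-!
# Projects LQ and LJ: the theorems
-/

set_option autoImplicit false

namespace Pool.Agent.U581.LB

theorem f_S : S_SEQ := f_SEQ Pool.Agent.U461.LB.t_MB1 Pool.Agent.U170.LB.t_MSQ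

theorem f_COS : S_COS :=
  t_COS f_UP Pool.Agent.U97.LB.t_BLK Pool.Agent.U908.LB.CLT.t_CLT Pool.Agent.U603.LB.t_FOUR
    Pool.Agent.U293.LB.TIGHT.t_TIGHT f_MOM
    (Pool.Agent.U765.LB.t_MB Pool.Agent.U461.LB.t_MB1 Pool.Agent.U480.LB.t_DIV f_UP)
    f_VARQ (Pool.Agent.U402.LB.t_APX Pool.Agent.U170.LB.t_MSQ) Pool.Agent.U653.LB.t_SLU
    Pool.Agent.U901.LB.t_RM Pool.Agent.U851.LB.t_FAC Pool.Agent.U278.LB.t_TILT f_S

theorem f_JMAIN : S_JMAIN :=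
  Pool.Agent.U962.LB.t_JMAIN (Pool.Agent.U934.LB.t_JSEQ f_COS Pool.Agent.U535.LB.TRG.t_TRG
    Pool.Agent.U170.LB.t_MSQ)

end Pool.Agent.U581.LB
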