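import Mathlib
import Pool.Agent.U581.LB.Stm

/-!
# Project LB: the mean square of `r(n)`
-/

set_option autoImplicit false

namespace Pool.Agent.U581.LB

open Real Filter Topology

/-- `r(n) / 4` -/
noncomputable def r0 (n : ℕ) : ℝ := r2 n / 4

/-- `(-1)^a μ(m)` at `2^a m²`, `m` odd, `a = 0, 1`; zero elsewhere -/
noncomputable def hh (c : ℕ) : ℝ :=
  if c % 2 = 1 then (if IsSquare c then ((ArithmeticFunction.moebius (Nat.sqrt c) : ℤ) : ℝ) else 0)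
  else (if c % 4 = 2 ∧ IsSquare (c / 2) then
    -((ArithmeticFunction.moebius (Nat.sqrt (c / 2)) : ℤ) : ℝ) else 0)

/-- **package RS1** -/
def S_RS1 : Prop := ∀ n : ℕ, 1 ≤ n → r0 n ^ 2 =
  ∑ x ∈ n.divisorsAntidiagonal, hh x.1 * ∑ y ∈ x.2.divisorsAntidiagonal, r0 y.1 * r0 y.2

/-- **package RS2** -/
def S_RS2 : Prop := ∃ C : ℝ, ∀ X : ℕ, 1 ≤ X →
  |∑ n ∈ Finset.Icc 1 X, ∑ y ∈ n.divisorsAntidiagonal, r0 y.1 * r0 y.2 -
    π ^ 2 / 16 * (X * log X)| ≤ C * X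

/-- **package RS3** -/
def S_RS3 : Prop := S_RS1 → S_RS2 → S_RS

end Pool.Agent.U581.LB
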