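import Mathlib
import Pool.Agent.U581.LB.Stm2

/-!
# Project LB: Jacobi's two square theorem
-/

set_option autoImplicit false

namespace Pool.Agent.U581.LB

open Real Filter Topology

/-- **package JAC** -/
def S_JAC : Prop := ∀ n : ℕ, 1 ≤ n →
  r0 n = ∑ d ∈ n.divisors, ((ZMod.χ₄ (d : ZMod 4) : ℤ) : ℝ)

/-- **package RS1** with Jacobi's theorem as hypothesis -/
def S_RS1J : Prop := S_JAC → S_RS1

end Pool.Agent.U581.LB
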