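import Pool.Agent.U581.LB.SeqC
import Pool.Agent.U688.LB.JAC
import Pool.Agent.U429.LB.RS1J
import Pool.Agent.U637.LB.RS2
import Pool.Agent.U723.LB.RS3
import Pool.Agent.U338.LB.UP
import Pool.Agent.U329.LB.VAR
import Pool.Agent.U446.LB.VARQ
import Pool.Agent.U97.LB.BLK
import Pool.Agent.U908.LB.CLT
import Pool.Agent.U603.LB.FOUR
import Pool.Agent.U293.LB.TIGHT
import Pool.Agent.U59.LB.TLOW
import Pool.Agent.U643.LB.MOM
import Pool.Agent.U480.LB.DIV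
import Pool.Agent.U765.LB.MB2
import Pool.Agent.U402.LB.APX
import Pool.Agent.U653.LB.SLU
import Pool.Agent.U901.LB.RM
import Pool.Agent.U750.LB.MAINQ

/-!
# Project LQ: the theorem
-/

set_option autoImplicit false

namespace Pool.Agent.U581.LB

theorem f_UP : S_UP := Pool.Agent.U338.LB.UP.t_UP

theorem f_RS : S_RS := Pool.Agent.U723.LB.RS3.t_RS3 (Pool.Agent.U429.LB.t_RS1J Pool.Agent.U688.LB.t_JAC)
  Pool.Agent.U637.LB.t_RS2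

theorem f_VARQ : S_VARQ := Pool.Agent.U446.LB.t_VARQ (Pool.Agent.U329.LB.t_VAR f_RS f_UP) f_UP

theorem f_MOM : S_MOM := Pool.Agent.U643.LB.t_MOM Pool.Agent.U59.LB.t_LOW

theorem f_SEQ (hMB1 : S_MB1) (hMSQ : S_MSQ) : S_SEQ :=
  t_SEQ f_UP Pool.Agent.U97.LB.t_BLK Pool.Agent.U908.LB.CLT.t_CLT Pool.Agent.U603.LB.t_FOUR
    Pool.Agent.U293.LB.TIGHT.t_TIGHT f_MOM (Pool.Agent.U765.LB.t_MB hMB1 Pool.Agent.U480.LB.t_DIV f_UP)
    f_VARQ (Pool.Agent.U402.LB.t_APX hMSQ) Pool.Agent.U653.LB.t_SLU Pool.Agent.U901.LB.t_RM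

theorem f_MAINQ (hMB1 : S_MB1) (hMSQ : S_MSQ) : S_MAINQ :=
  Pool.Agent.U750.LB.t_MAINQ (f_SEQ hMB1 hMSQ)

end Pool.Agent.U581.LB
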