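import Pool.Agent.U581.LB.StmQ

/-!
# Project LJ: the local Brownian motion of the circle problem is independent of the size of the error

Statements of the packages.
-/

set_option autoImplicit false

namespace Pool.Agent.U581.LB

open Real MeasureTheory Filter Topology ProbabilityTheory Pool.Agent.U581.BM
open scoped BoundedContinuousFunction NNReal

/-- **package FAC** (from `S_FOUR`-like independence and `S_DIV`): on the torus the increments are nearly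
independent of the trigonometric polynomials with small frequencies -/
def S_FAC : Prop := ∀ (A : ℝ) (N₀ : ℕ) (η : ℝ), 0 ≤ A → 0 < η → ∃ ρ₀ : ℝ, 0 < ρ₀ ∧ ∀ ρ : ℝ,
  0 < ρ → ρ ≤ ρ₀ → ∀ (c c' : ℕ → ℂ) (N : ℕ), Dom c A (sg ρ) ρ → (∀ n, N₀ < n → c' n = 0) →
    ‖∫ θ, Complex.exp (((Y (fun n => c' n + c n) N θ : ℝ) : ℂ) * Complex.I) ∂Th -
      (∫ θ, Complex.exp (((Y c' N θ : ℝ) : ℂ) * Complex.I) ∂Th) *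
        (∫ θ, Complex.exp (((Y c N θ : ℝ) : ℂ) * Complex.I) ∂Th)‖ ≤ η

/-- **package TILT**: change of measure -/
def S_TILT : Prop := ∀ (μ : Measure ℝ) (w : ℝ → ℝ), IsProbabilityMeasure μ → Measurable w →
  (∀ x, 1 ≤ w x ∧ w x ≤ 3) → ∃ ν : Measure ℝ, IsProbabilityMeasure ν ∧
    (∀ f : ℝ → ℂ, ∫ x, f x ∂ν = (∫ x, (w x : ℂ) * f x ∂μ) / ((∫ x, w x ∂μ : ℝ) : ℂ)) ∧
    (∀ f : ℝ → ℝ, ∫ x, f x ∂ν = (∫ x, w x * f x ∂μ) / ∫ x, w x ∂μ) ∧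
    (∀ s : Set ℝ, ν.real s ≤ 3 * μ.real s)

/-- **package TRG**: approximation by cosines -/
def S_TRG : Prop := ∀ (g : ℝ → ℝ), Continuous g → ∀ B ε : ℝ, 0 < B → 0 < ε →
  ∃ (n : ℕ) (a α b : Fin n → ℝ), ∀ h : ℝ, |h| ≤ B → |g h - ∑ k, a k * cos (α k * h + b k)| ≤ ε

/-- **the sequential form with a cosine** (assembly by helper581) -/
def S_COS : Prop := ∀ c₁ c₂ K s : ℝ, 0 < c₁ → 1 / 3 < s → ∀ (T ρ : ℕ → ℝ) (M : ℕ → ℕ)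
  (μ : ℕ → Measure ℝ), (∀ j, AdmL c₁ c₂ K s (T j) (μ j)) → (∀ j, 1 < T j) →
  Tendsto T atTop atTop → (∀ j, 0 < ρ j ∧ ρ j < 1) → Tendsto ρ atTop (𝓝 0) →
  Tendsto M atTop atTop →
  (∀ δ : ℝ, 0 < δ → ∀ᶠ j in atTop, T j ^ (-δ) ≤ ρ j ∧ (M j : ℝ) ≤ T j ^ δ) →
  ∀ {Ω : Type} [MeasurableSpace Ω] (P : Measure Ω) (B : ℝ≥0 → Ω → ℝ), IsBrownianReal B P →
  ∀ (F : C(unitInterval, ℝ) →ᵇ ℝ) (L₀ : ℕ) (a b : ℝ),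
    Tendsto (fun j => (∫ x, cos (a * UN (L₀ ^ 2) (T j * x) + b) *
        F (pathR (ρ j) (M j) (T j * x)) ∂μ j) -
      (∫ x, cos (a * UN (L₀ ^ 2) (T j * x) + b) ∂μ j) * ∫ ω, F (bpath B ω) ∂P) atTop (𝓝 0)

/-- **package JSEQ** (from `S_COS`, `S_TRG`, `S_MSQ`): the sequential form of the independence -/
def S_JSEQ : Prop := ∀ c₁ c₂ K s : ℝ, 0 < c₁ → 1 / 3 < s → ∀ (T ρ : ℕ → ℝ) (M : ℕ → ℕ)
  (μ : ℕ → Measure ℝ), (∀ j, AdmL c₁ c₂ K s (T j) (μ j)) → (∀ j, 1 < T j) →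
  Tendsto T atTop atTop → (∀ j, 0 < ρ j ∧ ρ j < 1) → Tendsto ρ atTop (𝓝 0) →
  Tendsto M atTop atTop →
  (∀ δ : ℝ, 0 < δ → ∀ᶠ j in atTop, T j ^ (-δ) ≤ ρ j ∧ (M j : ℝ) ≤ T j ^ δ) →
  ∀ {Ω : Type} [MeasurableSpace Ω] (P : Measure Ω) (B : ℝ≥0 → Ω → ℝ), IsBrownianReal B P →
  ∀ (F : C(unitInterval, ℝ) →ᵇ ℝ) (g : ℝ → ℝ) (l : ℝ≥0) (D : ℝ), LipschitzWith l g →
    (∀ u, |g u| ≤ D) →
    Tendsto (fun j => (∫ x, g (Pc (T j * x) / √(T j * x)) *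
        F (pathR (ρ j) (M j) (T j * x)) ∂μ j) -
      (∫ x, g (Pc (T j * x) / √(T j * x)) ∂μ j) * ∫ ω, F (bpath B ω) ∂P) atTop (𝓝 0)

/-- **package JMAIN** (from `S_JSEQ`): the independence, uniformly in the full range of widths -/
def S_JMAIN : Prop := ∀ c₁ c₂ K s : ℝ, 0 < c₁ → 1 / 3 < s →
  ∀ {Ω : Type} [MeasurableSpace Ω] (P : Measure Ω) (B : ℝ≥0 → Ω → ℝ), IsBrownianReal B P →
  ∀ (F : C(unitInterval, ℝ) →ᵇ ℝ) (g : ℝ → ℝ) (l : ℝ≥0) (D : ℝ), LipschitzWith l g →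
  (∀ u, |g u| ≤ D) → ∀ ε : ℝ, 0 < ε →
  ∃ (ρ₀ δ T₀ : ℝ) (M₀ : ℕ), 0 < ρ₀ ∧ 0 < δ ∧ ∀ (T ρ : ℝ) (M : ℕ), T₀ ≤ T → T ^ (-δ) ≤ ρ →
    ρ ≤ ρ₀ → M₀ ≤ M → (M : ℝ) ≤ T ^ δ → ∀ μ : Measure ℝ, AdmL c₁ c₂ K s T μ →
    |(∫ x, g (Pc (T * x) / √(T * x)) * F (pathR ρ M (T * x)) ∂μ) -
      (∫ x, g (Pc (T * x) / √(T * x)) ∂μ) * ∫ ω, F (bpath B ω) ∂P| ≤ ε

end Pool.Agent.U581.LB
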