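import Pool.Agent.U581.LB.SeqC
import Pool.Agent.U581.LB.StmJ

/-!
# Project LJ: joint characteristic functions
-/

set_option autoImplicit false

namespace Pool.Agent.U581.LB

open Real MeasureTheory Filter Topology ProbabilityTheory Pool.Agent.U581.BM
open scoped BoundedContinuousFunction NNReal

/-- coefficients of the truncated Voronoi series -/
noncomputable def c0 (N₀ : ℕ) (a : ℝ) (n : ℕ) : ℂ :=
  if n ≤ N₀ then ((a * cf n : ℝ) : ℂ) * Complex.exp (((-(3 * π / 4) : ℝ) : ℂ) * Complex.I) else 0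

theorem c0_zero (N₀ : ℕ) (a : ℝ) {n : ℕ} (h : N₀ < n) : c0 N₀ a n = 0 := by
  unfold c0
  rw [if_neg (by omega)]

theorem c0_norm (N₀ : ℕ) (a : ℝ) (n : ℕ) : ‖c0 N₀ a n‖ ≤ |a| * cf n := by
  unfold c0
  have hc := cf_nonneg n
  split_ifs
  · rw [norm_mul, Complex.norm_exp_ofReal_mul_I, mul_one, Complex.norm_real, Real.norm_eq_abs,
      abs_mul, abs_of_nonneg hc]
  · rw [norm_zero]
    positivity

theorem c0_l1 (N₀ : ℕ) (a : ℝ) (N : ℕ) :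
    ∑ n ∈ Finset.Icc 1 N, ‖c0 N₀ a n‖ ≤ ∑ n ∈ Finset.Icc 1 N₀, |a| * cf n := by
  have h0 : ∀ n, 0 ≤ |a| * cf n := fun n => mul_nonneg (abs_nonneg _) (cf_nonneg n)
  calc ∑ n ∈ Finset.Icc 1 N, ‖c0 N₀ a n‖ ≤ ∑ n ∈ Finset.Icc 1 (max N N₀), ‖c0 N₀ a n‖ :=
        Finset.sum_le_sum_of_subset_of_nonneg (Finset.Icc_subset_Icc_right (le_max_left _ _))
          fun _ _ _ => norm_nonneg _
    _ = ∑ n ∈ Finset.Icc 1 N₀, ‖c0 N₀ a n‖ := by
        symm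
        apply Finset.sum_subset (Finset.Icc_subset_Icc_right (le_max_right _ _))
        intro n hn hn'
        rw [c0_zero, norm_zero]
        rw [Finset.mem_Icc] at hn hn'
        omega
    _ ≤ ∑ n ∈ Finset.Icc 1 N₀, |a| * cf n := Finset.sum_le_sum fun n _ => c0_norm N₀ a n

theorem G_c0 {N₀ N : ℕ} (h : N₀ ≤ N) (a R : ℝ) : G (c0 N₀ a) N R = a * UN N₀ R := by
  unfold G UN
  rw [Finset.mul_sum, ← Finset.sum_subset (Finset.Icc_subset_Icc_right h)]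
  · refine Finset.sum_congr rfl fun n hn => ?_
    unfold c0
    rw [if_pos (Finset.mem_Icc.1 hn).2]
    have e : ((a * cf n : ℝ) : ℂ) * Complex.exp (((-(3 * π / 4) : ℝ) : ℂ) * Complex.I) *
        Complex.exp (((2 * π * (√n * R) : ℝ) : ℂ) * Complex.I) = ((a * cf n : ℝ) : ℂ) *
        Complex.exp (((2 * π * (R * √n) - 3 * π / 4 : ℝ) : ℂ) * Complex.I) := by
      rw [mul_assoc, ← Complex.exp_add]
      congr 2
      push_cast
      ring
    rw [e, Complex.re_ofReal_mul, Complex.exp_ofReal_mul_I_re]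
    ring
  · intro n hn hn'
    rw [c0_zero, zero_mul, Complex.zero_re]
    rw [Finset.mem_Icc] at hn hn'
    omega

theorem G_add (c c' : ℕ → ℂ) (N : ℕ) (R : ℝ) :
    G (fun n => c n + c' n) N R = G c N R + G c' N R := by
  unfold G
  rw [← Finset.sum_add_distrib]
  refine Finset.sum_congr rfl fun n _ => ?_
  rw [add_mul, Complex.add_re]

theorem Y_add (c c' : ℕ → ℂ) (N : ℕ) (θ : ℕ → ℝ) :
    Y (fun n => c n + c' n) N θ = Y c N θ + Y c' N θ := by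
  unfold Y Yq
  rw [← Finset.sum_add_distrib]
  refine Finset.sum_congr rfl fun q _ => ?_
  rw [← Finset.sum_add_distrib]
  refine Finset.sum_congr rfl fun n _ => ?_
  rw [add_mul, Complex.add_re]

theorem Y_l1 (c : ℕ → ℂ) (N : ℕ) (θ : ℕ → ℝ) : |Y c N θ| ≤ ∑ n ∈ Finset.Icc 1 N, ‖c n‖ := by
  refine (Y_bound c N θ).trans ?_
  unfold bq blk
  simp_rw [Finset.sum_filter]
  rw [Finset.sum_comm]
  refine Finset.sum_le_sum fun n _ => ?_
  rw [Finset.sum_ite_eq]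
  split_ifs
  · exact le_rfl
  · exact norm_nonneg _

section

variable {c₁ c₂ K s : ℝ} {T ρ : ℕ → ℝ} {N : ℕ → ℕ} {μ : ℕ → Measure ℝ}

theorem Seq.mom0 (S : Seq c₁ c₂ K s T ρ N μ) (hMOM : S_MOM) {V0 : ℝ} (hV0 : 1 ≤ V0) {k : ℕ}
    (hk : 1 ≤ k) : ∀ᶠ j in atTop, ∀ c : ℕ → ℂ, ∑ n ∈ Finset.Icc 1 (N j), ‖c n‖ ≤ V0 * N j →
    |∫ x, G c (N j) (T j * x) ^ k ∂μ j - ∫ θ, Y c (N j) θ ^ k ∂Th| ≤ T j ^ (-(s / 20)) := by
  have hs := S.s0
  have hk' : (1 : ℝ) ≤ k := by exact_mod_cast hk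
  have hK := S.K0
  obtain ⟨E, hE⟩ : ∃ E : ℕ, E = 2 ^ k := ⟨_, rfl⟩
  have hE1 : (1 : ℝ) ≤ E := by
    rw [hE]
    exact_mod_cast Nat.one_le_two_pow
  filter_upwards [S.Ns (1 / (4 * E)) (by positivity),
    ev_const S.Tl ((k : ℝ) ^ E) (δ := 1 / 2) (by norm_num), S.Ns (1 / 2) (by norm_num),
    ev_const S.Tl (2 * π * k) (δ := 1 / 2) (by norm_num), S.Ns (s / (40 * k)) (by positivity),
    ev_const S.Tl (K * V0 ^ k) (δ := s / 40) (by positivity)] with j g1 g2 g3 g4 g5 g6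
  intro c hl1
  have hT1 := S.T1 j
  have hT0 : 0 < T j := by linarith
  have hN1 : (1 : ℝ) ≤ N j := by exact_mod_cast S.N1 j
  have hN0 : (0 : ℝ) ≤ N j := by linarith
  have p1 : ((k : ℝ) * N j) ^ E ≤ T j ^ (3 / 4 : ℝ) := by
    rw [mul_pow]
    have : (N j : ℝ) ^ E ≤ T j ^ (1 / 4 : ℝ) := by
      calc (N j : ℝ) ^ E ≤ (T j ^ (1 / (4 * E) : ℝ)) ^ E := pow_le_pow_left₀ hN0 g1 _
        _ = T j ^ (1 / 4 : ℝ) := by
            rw [← Real.rpow_natCast, ← Real.rpow_mul hT0.le]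
            congr 1
            field_simp
    calc (k : ℝ) ^ E * (N j : ℝ) ^ E ≤ T j ^ (1 / 2 : ℝ) * T j ^ (1 / 4 : ℝ) := by gcongr
      _ = T j ^ (3 / 4 : ℝ) := by
          rw [← Real.rpow_add hT0]
          norm_num
  have c1 : T j ^ (1 / 10 : ℝ) ≤ 2 * π * T j / ((k : ℝ) * N j) ^ (2 ^ k) := by
    rw [← hE, le_div_iff₀ (by positivity)]
    calc T j ^ (1 / 10 : ℝ) * ((k : ℝ) * N j) ^ E ≤ T j ^ (1 / 10 : ℝ) * T j ^ (3 / 4 : ℝ) := by gcongr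
      _ = T j ^ (17 / 20 : ℝ) := by
          rw [← Real.rpow_add hT0]
          norm_num
      _ ≤ T j ^ (1 : ℝ) := Real.rpow_le_rpow_of_exponent_le hT1.le (by norm_num)
      _ = T j := Real.rpow_one _
      _ ≤ 2 * π * T j := by nlinarith [Real.pi_gt_three]
  have c2 : 2 * π * ((k : ℝ) * N j) * T j ≤ T j ^ 2 := by
    have h1 : 2 * π * k * N j ≤ T j := by
      calc 2 * π * k * N j ≤ T j ^ (1 / 2 : ℝ) * T j ^ (1 / 2 : ℝ) := by gcongr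
        _ = T j := by
            rw [← Real.rpow_add hT0]
            norm_num
    calc 2 * π * ((k : ℝ) * N j) * T j = (2 * π * k * N j) * T j := by ring
      _ ≤ T j * T j := mul_le_mul_of_nonneg_right h1 hT0.le
      _ = T j ^ 2 := by ring
  refine (hMOM c₁ c₂ K s (T j) (μ j) (S.adm j) hK (by linarith) hT1.le k (N j) hk (S.N1 j) c1 c2
    c).trans ?_
  have hl2 : (∑ n ∈ Finset.Icc 1 (N j), ‖c n‖) ^ k ≤ V0 ^ k * T j ^ (s / 40) := by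
    calc (∑ n ∈ Finset.Icc 1 (N j), ‖c n‖) ^ k ≤ (V0 * N j) ^ k :=
          pow_le_pow_left₀ (Finset.sum_nonneg fun _ _ => norm_nonneg _) hl1 k
      _ = V0 ^ k * (N j : ℝ) ^ k := mul_pow _ _ _
      _ ≤ V0 ^ k * (T j ^ (s / (40 * k))) ^ k := by gcongr
      _ = V0 ^ k * T j ^ (s / 40) := by
          rw [← Real.rpow_natCast (T j ^ (s / (40 * k))), ← Real.rpow_mul hT0.le]
          congr 2
          field_simp
  calc K * T j ^ (-(s / 10)) * (∑ n ∈ Finset.Icc 1 (N j), ‖c n‖) ^ k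
      ≤ K * T j ^ (-(s / 10)) * (V0 ^ k * T j ^ (s / 40)) :=
        mul_le_mul_of_nonneg_left hl2 (by positivity)
    _ = (K * V0 ^ k) * (T j ^ (-(s / 10)) * T j ^ (s / 40)) := by ring
    _ ≤ T j ^ (s / 40) * (T j ^ (-(s / 10)) * T j ^ (s / 40)) := by gcongr
    _ = T j ^ (-(s / 20)) := by
        rw [← Real.rpow_add hT0, ← Real.rpow_add hT0]
        congr 1
        ring

theorem Seq.chr0 (S : Seq c₁ c₂ K s T ρ N μ) (hMOM : S_MOM) (hFOUR : S_FOUR) {V0 : ℝ}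
    (hV0 : 1 ≤ V0) {e : ℕ → ℝ} (he : Tendsto e atTop (𝓝 0)) {p : ℕ → (ℕ → ℂ) → Prop}
    (hp1 : ∀ᶠ j in atTop, ∀ c, p j c → ∑ n ∈ Finset.Icc 1 (N j), ‖c n‖ ≤ V0 * N j)
    (hp2 : ∀ m : ℕ, ∀ᶠ j in atTop, ∀ c, p j c →
      ∫ θ, Y c (N j) θ ^ (2 * m) ∂Th ≤ e m * ((2 * m).factorial : ℝ))
    {η : ℝ} (hη : 0 < η) :
    ∀ᶠ j in atTop, ∀ c : ℕ → ℂ, p j c →
    ‖∫ x, Complex.exp (((G c (N j) (T j * x) : ℝ) : ℂ) * Complex.I) ∂μ j -
      ∫ θ, Complex.exp (((Y c (N j) θ : ℝ) : ℂ) * Complex.I) ∂Th‖ ≤ η := by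
  obtain ⟨m, hm1, hmη⟩ : ∃ m : ℕ, 1 ≤ m ∧ 2 * e m ≤ η / 2 := by
    have h1 : Tendsto (fun m : ℕ => 2 * e m) atTop (𝓝 (2 * 0)) := he.const_mul _
    rw [mul_zero] at h1
    obtain ⟨m, h2, h3⟩ := ((h1.eventually (gt_mem_nhds (half_pos hη))).and
      (eventually_ge_atTop 1)).exists
    exact ⟨m, h3, h2.le⟩
  have hs := S.s0
  have ev2 : ∀ᶠ j in atTop, (2 * m + 1 : ℝ) * T j ^ (-(s / 20)) < η / 2 := by
    have h1 : Tendsto (fun j => (2 * m + 1 : ℝ) * T j ^ (-(s / 20))) atTop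
        (𝓝 ((2 * m + 1 : ℝ) * 0)) :=
      ((tendsto_rpow_neg_atTop (by linarith)).comp S.Tl).const_mul _
    rw [mul_zero] at h1
    exact h1.eventually (gt_mem_nhds (half_pos hη))
  have ev3 : ∀ᶠ j in atTop, ∀ k ∈ Finset.Icc 1 (2 * m), ∀ c : ℕ → ℂ,
      ∑ n ∈ Finset.Icc 1 (N j), ‖c n‖ ≤ V0 * N j →
      |∫ x, G c (N j) (T j * x) ^ k ∂μ j - ∫ θ, Y c (N j) θ ^ k ∂Th| ≤ T j ^ (-(s / 20)) := by
    rw [Finset.eventually_all]
    intro k hk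
    exact S.mom0 hMOM hV0 (Finset.mem_Icc.1 hk).1
  filter_upwards [hp1, hp2 m, ev2, ev3] with j g0 g1 g2 g3'
  intro c hc
  have g3 : ∀ k ∈ Finset.Icc 1 (2 * m),
      |∫ x, G c (N j) (T j * x) ^ k ∂μ j - ∫ θ, Y c (N j) θ ^ k ∂Th| ≤ T j ^ (-(s / 20)) :=
    fun k hk => g3' k hk c (g0 c hc)
  have hP : IsProbabilityMeasure (μ j) := (S.adm j).prob
  have hT1 := S.T1 j
  have hT0 : 0 < T j := by linarith
  obtain ⟨t, ht⟩ : ∃ t, t = T j ^ (-(s / 20)) := ⟨_, rfl⟩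
  have ht0 : 0 < t := by rw [ht]; positivity
  rw [← ht] at g2 g3
  have a1 := chr_tay (P := μ j) (g := fun x => G c (N j) (T j * x))
    ((G_cont c (N j)).measurable.comp (measurable_const_mul (T j))) (fun x => G_bound c (N j) _) m
  have a2 := chr_tay (P := Th) (g := Y c (N j)) (hFOUR c (N j)).1 (fun x => Y_bound c (N j) _) m
  have a3 := g1 c hc
  obtain ⟨g, hg⟩ : ∃ g : ℕ → ℝ, g = fun k => ∫ x, G c (N j) (T j * x) ^ k ∂μ j := ⟨_, rfl⟩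
  obtain ⟨y, hy⟩ : ∃ y : ℕ → ℝ, y = fun k => ∫ θ, Y c (N j) θ ^ k ∂Th := ⟨_, rfl⟩
  have hgy : ∀ k ∈ Finset.range (2 * m), |g k - y k| ≤ t := by
    intro k hk
    rcases Nat.eq_zero_or_pos k with h | h
    · subst h
      rw [hg, hy]
      simp [ht0.le]
    · rw [hg, hy]
      exact g3 k (Finset.mem_Icc.2 ⟨h, (Finset.mem_range.1 hk).le⟩)
  have hgy2 : |g (2 * m) - y (2 * m)| ≤ t := by
    rw [hg, hy]
    exact g3 (2 * m) (Finset.mem_Icc.2 ⟨by omega, le_rfl⟩)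
  have hF : (1 : ℝ) ≤ ((2 * m).factorial : ℝ) := by
    exact_mod_cast Nat.one_le_iff_ne_zero.2 (Nat.factorial_ne_zero _)
  have a3' : y (2 * m) / ((2 * m).factorial : ℝ) ≤ e m := by
    rw [div_le_iff₀ (by positivity), hy]
    exact a3
  have a4 : g (2 * m) / ((2 * m).factorial : ℝ) ≤ e m + t := by
    have h1 : g (2 * m) ≤ y (2 * m) + t := by have := (abs_le.1 hgy2).2; linarith
    calc g (2 * m) / ((2 * m).factorial : ℝ) ≤ (y (2 * m) + t) / ((2 * m).factorial : ℝ) := by gcongr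
      _ = y (2 * m) / ((2 * m).factorial : ℝ) + t / ((2 * m).factorial : ℝ) := add_div _ _ _
      _ ≤ e m + t := add_le_add a3' (div_le_self ht0.le hF)
  have a5 : ‖∑ k ∈ Finset.range (2 * m), Complex.I ^ k / (k.factorial : ℂ) * ((g k : ℝ) : ℂ) -
      ∑ k ∈ Finset.range (2 * m), Complex.I ^ k / (k.factorial : ℂ) * ((y k : ℝ) : ℂ)‖ ≤
        2 * m * t := by
    rw [← Finset.sum_sub_distrib]
    have h1 : ∀ k ∈ Finset.range (2 * m), ‖Complex.I ^ k / (k.factorial : ℂ) * ((g k : ℝ) : ℂ) -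
        Complex.I ^ k / (k.factorial : ℂ) * ((y k : ℝ) : ℂ)‖ ≤ t := by
      intro k hk
      rw [← mul_sub, norm_mul, norm_div, norm_pow, Complex.norm_I, one_pow, ← Complex.ofReal_sub,
        Complex.norm_real, Complex.norm_natCast, Real.norm_eq_abs]
      have h2 : (1 : ℝ) ≤ (k.factorial : ℝ) := by
        exact_mod_cast Nat.one_le_iff_ne_zero.2 (Nat.factorial_ne_zero _)
      have h3 : (1 : ℝ) / (k.factorial : ℝ) ≤ 1 := by
        rw [div_le_one (by linarith)]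
        exact h2
      calc 1 / (k.factorial : ℝ) * |g k - y k| ≤ 1 * t :=
            mul_le_mul h3 (hgy k hk) (abs_nonneg _) (by norm_num)
        _ = t := one_mul t
    refine (norm_sum_le _ _).trans ((Finset.sum_le_sum h1).trans (le_of_eq ?_))
    rw [Finset.sum_const, Finset.card_range, nsmul_eq_mul]
    push_cast
    ring
  rw [hg] at a5 a4
  rw [hy] at a5 a3'
  have a7 := norm_sub_le_norm_sub_add_norm_sub
    (∫ x, Complex.exp (((G c (N j) (T j * x) : ℝ) : ℂ) * Complex.I) ∂μ j)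
    (∑ k ∈ Finset.range (2 * m), Complex.I ^ k / (k.factorial : ℂ) *
      ((∫ x, G c (N j) (T j * x) ^ k ∂μ j : ℝ) : ℂ))
    (∫ θ, Complex.exp (((Y c (N j) θ : ℝ) : ℂ) * Complex.I) ∂Th)
  have a8 := norm_sub_le_norm_sub_add_norm_sub
    (∑ k ∈ Finset.range (2 * m), Complex.I ^ k / (k.factorial : ℂ) *
      ((∫ x, G c (N j) (T j * x) ^ k ∂μ j : ℝ) : ℂ))
    (∑ k ∈ Finset.range (2 * m), Complex.I ^ k / (k.factorial : ℂ) *
      ((∫ θ, Y c (N j) θ ^ k ∂Th : ℝ) : ℂ))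
    (∫ θ, Complex.exp (((Y c (N j) θ : ℝ) : ℂ) * Complex.I) ∂Th)
  rw [norm_sub_rev (∑ k ∈ Finset.range (2 * m), Complex.I ^ k / (k.factorial : ℂ) *
      ((∫ θ, Y c (N j) θ ^ k ∂Th : ℝ) : ℂ))] at a8
  have e9 : (2 * m + 1 : ℝ) * t = 2 * m * t + t := by ring
  linarith

/-- sums of a bounded and a dominated coefficient sequence -/
def Cls (A B : ℝ) (ρ : ℝ) (c : ℕ → ℂ) : Prop :=
  ∃ c' c'' : ℕ → ℂ, c = (fun n => c' n + c'' n) ∧ (∀ N, ∑ n ∈ Finset.Icc 1 N, ‖c' n‖ ≤ B) ∧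
    Dom c'' A (sg ρ) ρ

theorem pow_split (x y : ℝ) (m : ℕ) : (x + y) ^ (2 * m) ≤ (9 / 4) ^ m * y ^ (2 * m) +
    9 ^ m * x ^ (2 * m) := by
  rcases Nat.eq_zero_or_pos m with rfl | hm
  · norm_num
  have hx : 0 ≤ x ^ (2 * m) := by rw [pow_mul]; positivity
  have hy : 0 ≤ y ^ (2 * m) := by rw [pow_mul]; positivity
  rcases le_total |y| (2 * |x|) with h | h
  · have h1 : |x + y| ≤ 3 * |x| := (abs_add_le _ _).trans (by linarith)
    have h2 : |x + y| ^ (2 * m) ≤ (3 * |x|) ^ (2 * m) := pow_le_pow_left₀ (abs_nonneg _) h1 _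
    rw [mul_pow, Even.pow_abs (even_two_mul m), Even.pow_abs (even_two_mul m)] at h2
    have h3 : (3 : ℝ) ^ (2 * m) = 9 ^ m := by rw [pow_mul]; norm_num
    rw [h3] at h2
    have : 0 ≤ (9 / 4 : ℝ) ^ m * y ^ (2 * m) := by positivity
    linarith
  · have h1 : |x + y| ≤ 3 / 2 * |y| := (abs_add_le _ _).trans (by linarith)
    have h2 : |x + y| ^ (2 * m) ≤ (3 / 2 * |y|) ^ (2 * m) := pow_le_pow_left₀ (abs_nonneg _) h1 _
    rw [mul_pow, Even.pow_abs (even_two_mul m), Even.pow_abs (even_two_mul m)] at h2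
    have h3 : (3 / 2 : ℝ) ^ (2 * m) = (9 / 4) ^ m := by rw [pow_mul]; norm_num
    rw [h3] at h2
    have : 0 ≤ (9 : ℝ) ^ m * x ^ (2 * m) := by positivity
    linarith

theorem Seq.chr1 (S : Seq c₁ c₂ K s T ρ N μ) (hMOM : S_MOM) (hUP : S_UP) (hMB : S_MB)
    (hFOUR : S_FOUR) {A B : ℝ} (hA : 0 ≤ A) (hB : 0 ≤ B) {η : ℝ} (hη : 0 < η) :
    ∀ᶠ j in atTop, ∀ c : ℕ → ℂ, Cls A B (ρ j) c →
    ‖∫ x, Complex.exp (((G c (N j) (T j * x) : ℝ) : ℂ) * Complex.I) ∂μ j -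
      ∫ θ, Complex.exp (((Y c (N j) θ : ℝ) : ℂ) * Complex.I) ∂Th‖ ≤ η := by
  obtain ⟨V0, hV0, hV⟩ := l1_bound hUP A
  obtain ⟨C, hC, hm⟩ := hMB A hA
  have he : Tendsto (fun m : ℕ => C * (9 / 16 : ℝ) ^ m + (9 * B ^ 2) ^ m / (m.factorial : ℝ)) atTop
      (𝓝 0) := by
    have h1 : Tendsto (fun m : ℕ => C * (9 / 16 : ℝ) ^ m) atTop (𝓝 (C * 0)) :=
      (tendsto_pow_atTop_nhds_zero_of_lt_one (by norm_num) (by norm_num)).const_mul _
    have h2 := h1.add (FloorSemiring.tendsto_pow_div_factorial_atTop (9 * B ^ 2))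
    rwa [mul_zero, add_zero] at h2
  refine S.chr0 hMOM hFOUR (V0 := V0 + B) (by linarith) he (p := fun j c => Cls A B (ρ j) c) ?_ ?_ hη
  · filter_upwards [ev_log S.r01 S.r0] with j g0
    rintro c ⟨c', c'', rfl, h1, h2⟩
    have hN1 : (1 : ℝ) ≤ N j := by exact_mod_cast S.N1 j
    obtain ⟨hl, -⟩ := hV (ρ j) (N j) c'' (S.r01 j).1 (S.r01 j).2 g0 h2
    have hl1 : ∑ n ∈ Finset.Icc 1 (N j), ‖c'' n‖ ≤ V0 * N j := by
      have h1 : (∑ n ∈ Finset.Icc 1 (N j), ‖c'' n‖) ^ 2 ≤ (V0 * N j) ^ 2 := by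
        refine hl.trans ?_
        have : 1 ≤ V0 * N j := by nlinarith
        nlinarith
      exact le_of_sq_le_sq h1 (by positivity)
    calc ∑ n ∈ Finset.Icc 1 (N j), ‖c' n + c'' n‖ ≤ ∑ n ∈ Finset.Icc 1 (N j), (‖c' n‖ + ‖c'' n‖) :=
          Finset.sum_le_sum fun n _ => norm_add_le _ _
      _ = ∑ n ∈ Finset.Icc 1 (N j), ‖c' n‖ + ∑ n ∈ Finset.Icc 1 (N j), ‖c'' n‖ :=
          Finset.sum_add_distrib
      _ ≤ B + V0 * N j := add_le_add (h1 _) hl1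
      _ ≤ (V0 + B) * N j := by nlinarith
  · intro m
    obtain ⟨ρ₀, hρ₀, hb⟩ := hm m
    have ev1 : ∀ᶠ j in atTop, ρ j < ρ₀ := S.r0.eventually (gt_mem_nhds hρ₀)
    filter_upwards [ev1] with j g1
    rintro c ⟨c', c'', rfl, h1, h2⟩
    have k1 := hb (ρ j) (S.r01 j).1 g1.le c'' (N j) h2
    have hy' : ∀ θ, |Y c' (N j) θ| ≤ B := fun θ => (Y_l1 c' (N j) θ).trans (h1 _)
    have ib : ∀ c : ℕ → ℂ, Integrable (fun θ => Y c (N j) θ ^ (2 * m)) Th := fun c =>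
      int_bdd ((hFOUR c (N j)).1.pow_const _) (B := (∑ q ∈ Finset.Icc 1 (N j), bq c (N j) q) ^ (2 * m))
        fun θ => by
          rw [abs_pow]
          exact pow_le_pow_left₀ (abs_nonneg _) (Y_bound c (N j) θ) _
    have k2 : ∫ θ, Y (fun n => c' n + c'' n) (N j) θ ^ (2 * m) ∂Th ≤
        ∫ θ, ((9 / 4) ^ m * Y c'' (N j) θ ^ (2 * m) + 9 ^ m * B ^ (2 * m)) ∂Th := by
      refine integral_mono (ib _) (((ib _).const_mul _).add (integrable_const _)) fun θ => ?_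
      show Y (fun n => c' n + c'' n) (N j) θ ^ (2 * m) ≤
        (9 / 4) ^ m * Y c'' (N j) θ ^ (2 * m) + 9 ^ m * B ^ (2 * m)
      rw [Y_add]
      refine (pow_split _ _ m).trans ?_
      have : Y c' (N j) θ ^ (2 * m) ≤ B ^ (2 * m) := by
        rw [← Even.pow_abs (even_two_mul m)]
        exact pow_le_pow_left₀ (abs_nonneg _) (hy' θ) _
      gcongr
    have k3 : ∫ θ, ((9 / 4) ^ m * Y c'' (N j) θ ^ (2 * m) + 9 ^ m * B ^ (2 * m)) ∂Th =
        (9 / 4) ^ m * ∫ θ, Y c'' (N j) θ ^ (2 * m) ∂Th + 9 ^ m * B ^ (2 * m) := by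
      rw [integral_add ((ib _).const_mul _) (integrable_const _), integral_const_mul]
      simp
    rw [k3] at k2
    refine k2.trans ?_
    have hF : (m.factorial : ℝ) ≤ ((2 * m).factorial : ℝ) := by
      exact_mod_cast Nat.factorial_le (by omega)
    have hF0 : (0 : ℝ) < m.factorial := by exact_mod_cast Nat.factorial_pos m
    have k4 : (9 / 4 : ℝ) ^ m * ∫ θ, Y c'' (N j) θ ^ (2 * m) ∂Th ≤
        C * (9 / 16 : ℝ) ^ m * ((2 * m).factorial : ℝ) := by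
      calc (9 / 4 : ℝ) ^ m * ∫ θ, Y c'' (N j) θ ^ (2 * m) ∂Th
          ≤ (9 / 4 : ℝ) ^ m * (C * ((2 * m).factorial : ℝ) / 4 ^ m) :=
            mul_le_mul_of_nonneg_left k1 (by positivity)
        _ = C * ((9 / 4 : ℝ) ^ m / 4 ^ m) * ((2 * m).factorial : ℝ) := by ring
        _ = C * (9 / 16 : ℝ) ^ m * ((2 * m).factorial : ℝ) := by
            rw [← div_pow]
            norm_num
    have k5 : (9 : ℝ) ^ m * B ^ (2 * m) ≤
        (9 * B ^ 2) ^ m / (m.factorial : ℝ) * ((2 * m).factorial : ℝ) := by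
      have e1 : (9 : ℝ) ^ m * B ^ (2 * m) = (9 * B ^ 2) ^ m := by rw [mul_pow, pow_mul]
      rw [e1, div_mul_eq_mul_div, le_div_iff₀ hF0]
      exact mul_le_mul_of_nonneg_left hF (by positivity)
    rw [add_mul]
    exact add_le_add k4 k5

end

end Pool.Agent.U581.LB
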