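import Pool.Agent.U581.LB.TorC

/-!
# Project LB: the invariance principle on the torus
-/

set_option autoImplicit false

namespace Pool.Agent.U581.LB

open Real MeasureTheory Filter Topology ProbabilityTheory Pool.Agent.U581.BM
open scoped BoundedContinuousFunction NNReal

theorem int_bdd {f : (ℕ → ℝ) → ℝ} (hm : Measurable f) {B : ℝ} (hb : ∀ θ, |f θ| ≤ B) :
    Integrable f Th :=
  Integrable.of_bound hm.aestronglyMeasurable B (Eventually.of_forall hb)

theorem pathT_meas (hFOUR : S_FOUR) [MeasurableSpace C(unitInterval, ℝ)]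
    [BorelSpace C(unitInterval, ℝ)] (ρ : ℝ) (M N : ℕ) : Measurable (pathT ρ M N) := by
  have hc : Continuous fun z => polygon M (ext0 M z) := polygon_cont M fun i => ext0_cont M i
  have e : pathT ρ M N = fun θ => polygon M (ext0 M (WithLp.toLp 2 fun i : Fin (M + 1) =>
      Y (cc ρ ((i : ℕ) / M)) N θ)) := by
    funext θ
    unfold pathT
    apply polygon_congr
    intro i hi
    unfold ext0
    rw [dif_pos (by omega)]
  rw [e]
  refine hc.measurable.comp ((WithLp.measurable_toLp 2 _).comp ?_)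
  exact measurable_pi_lambda _ fun i => (hFOUR _ _).1

theorem abs_le4 {a δ : ℝ} (hδ : 0 < δ) : |a| ≤ δ + a ^ 4 / δ ^ 3 := by
  have h4 : 0 ≤ a ^ 4 / δ ^ 3 := by positivity
  rcases le_total |a| δ with h | h
  · linarith
  · have h1 : |a| * δ ^ 3 ≤ a ^ 4 := by
      have h2 : δ ^ 3 ≤ |a| ^ 3 := pow_le_pow_left₀ hδ.le h 3
      have h3 : a ^ 4 = |a| * |a| ^ 3 := by
        have : a ^ 4 = |a| ^ 4 := by
          rw [← abs_pow, abs_of_nonneg (by positivity)]
        rw [this]; ring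
      rw [h3]
      exact mul_le_mul_of_nonneg_left h2 (abs_nonneg _)
    have h5 : |a| ≤ a ^ 4 / δ ^ 3 := by
      rw [le_div_iff₀ (by positivity)]
      exact h1
    linarith

theorem near (hFOUR : S_FOUR) {K : ℝ} (hK : 0 < K)
    (hfour : ∀ (ρ u v : ℝ) (N : ℕ), 0 < ρ → ρ < 1 → 1 ≤ log (1 / ρ) → u ≤ v → v ≤ u + 1 →
      ∫ θ, (Y (cc ρ v) N θ - Y (cc ρ u) N θ) ^ 4 ∂Th ≤ K * (v - u) ^ (3 / 2 : ℝ))
    {ρ : ℝ} (h0 : 0 < ρ) (h1 : ρ < 1) (hL : 1 ≤ log (1 / ρ)) {M : ℕ} (hM : 0 < M) (N : ℕ)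
    (s : unitInterval) {δ : ℝ} (hδ : 0 < δ) :
    Integrable (fun θ => |pathT ρ M N θ s - Y (cc ρ s) N θ|) Th ∧
    ∫ θ, |pathT ρ M N θ s - Y (cc ρ s) N θ| ∂Th ≤
      2 * δ + 2 * K * (1 / (M : ℝ)) ^ (3 / 2 : ℝ) / δ ^ 3 := by
  have hM' : (0 : ℝ) < M := by exact_mod_cast hM
  obtain ⟨m, hm, hm1, hm2⟩ := exists_block hM s
  obtain ⟨l, hl⟩ : ∃ l : ℝ, l = M * s - m := ⟨_, rfl⟩
  have hl0 : 0 ≤ l := by rw [hl]; linarith
  have hl1 : l ≤ 1 := by rw [hl]; linarith
  have e1 : ∀ θ, pathT ρ M N θ s = Y (cc ρ ((m : ℝ) / M)) N θ +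
      (Y (cc ρ (((m + 1 : ℕ) : ℝ) / M)) N θ - Y (cc ρ ((m : ℝ) / M)) N θ) * l := by
    intro θ
    unfold pathT
    rw [polygon_eq _ s hm hm1 hm2, hl]
  have mY : ∀ u : ℝ, Measurable (Y (cc ρ u) N) := fun u => (hFOUR _ _).1
  have mP : Measurable fun θ => pathT ρ M N θ s := by
    simp_rw [e1]
    exact (mY _).add (((mY _).sub (mY _)).mul_const _)
  obtain ⟨Bd, hBd⟩ : ∃ Bd : ℝ → ℝ, ∀ u θ, |Y (cc ρ u) N θ| ≤ Bd u :=
    ⟨fun u => ∑ q ∈ Finset.Icc 1 N, bq (cc ρ u) N q, fun u θ => Y_bound _ _ _⟩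
  have hBd0 : ∀ u, 0 ≤ Bd u := fun u => (abs_nonneg _).trans (hBd u 0)
  have i4 : ∀ u v, Integrable (fun θ => (Y (cc ρ v) N θ - Y (cc ρ u) N θ) ^ 4) Th := by
    intro u v
    refine int_bdd (((mY _).sub (mY _)).pow_const 4) (B := (Bd v + Bd u) ^ 4) fun θ => ?_
    rw [abs_pow]
    apply pow_le_pow_left₀ (abs_nonneg _)
    exact (abs_sub _ _).trans (add_le_add (hBd v θ) (hBd u θ))
  have hb : ∀ θ, |pathT ρ M N θ s - Y (cc ρ s) N θ| ≤
      2 * δ + ((Y (cc ρ s) N θ - Y (cc ρ ((m : ℝ) / M)) N θ) ^ 4 +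
        (Y (cc ρ (((m + 1 : ℕ) : ℝ) / M)) N θ - Y (cc ρ ((m : ℝ) / M)) N θ) ^ 4) / δ ^ 3 := by
    intro θ
    rw [e1 θ]
    obtain ⟨a, ha⟩ : ∃ a, a = Y (cc ρ s) N θ - Y (cc ρ ((m : ℝ) / M)) N θ := ⟨_, rfl⟩
    obtain ⟨b, hb⟩ : ∃ b, b = Y (cc ρ (((m + 1 : ℕ) : ℝ) / M)) N θ - Y (cc ρ ((m : ℝ) / M)) N θ :=
      ⟨_, rfl⟩
    have e2 : Y (cc ρ ((m : ℝ) / M)) N θ +
      (Y (cc ρ (((m + 1 : ℕ) : ℝ) / M)) N θ - Y (cc ρ ((m : ℝ) / M)) N θ) * l -
        Y (cc ρ s) N θ = b * l - a := by rw [ha, hb]; ring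
    rw [e2, ← ha, ← hb]
    have h3 : |b * l - a| ≤ |b| + |a| := by
      refine (abs_sub _ _).trans ?_
      rw [abs_mul, abs_of_nonneg hl0]
      have := mul_le_mul_of_nonneg_left hl1 (abs_nonneg b)
      linarith
    have h4 := abs_le4 (a := a) hδ
    have h5 := abs_le4 (a := b) hδ
    rw [add_div]
    linarith
  have iD : Integrable (fun θ => |pathT ρ M N θ s - Y (cc ρ s) N θ|) Th := by
    refine Integrable.mono' (g := fun θ => 2 * δ + ((Y (cc ρ s) N θ - Y (cc ρ ((m : ℝ) / M)) N θ) ^ 4 +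
        (Y (cc ρ (((m + 1 : ℕ) : ℝ) / M)) N θ - Y (cc ρ ((m : ℝ) / M)) N θ) ^ 4) / δ ^ 3) ?_ ?_ ?_
    · exact (integrable_const _).add (((i4 _ _).add (i4 _ _)).div_const _)
    · exact (mP.sub (mY _)).abs.aestronglyMeasurable
    · refine Eventually.of_forall fun θ => ?_
      rw [Real.norm_eq_abs, abs_abs]
      exact hb θ
  refine ⟨iD, ?_⟩
  have h6 : ∫ θ, |pathT ρ M N θ s - Y (cc ρ s) N θ| ∂Th ≤
      ∫ θ, (2 * δ + ((Y (cc ρ s) N θ - Y (cc ρ ((m : ℝ) / M)) N θ) ^ 4 +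
        (Y (cc ρ (((m + 1 : ℕ) : ℝ) / M)) N θ - Y (cc ρ ((m : ℝ) / M)) N θ) ^ 4) / δ ^ 3) ∂Th :=
    integral_mono iD ((integrable_const _).add (((i4 _ _).add (i4 _ _)).div_const _)) hb
  refine h6.trans ?_
  have i5 : Integrable (fun θ => ((Y (cc ρ s) N θ - Y (cc ρ ((m : ℝ) / M)) N θ) ^ 4 +
        (Y (cc ρ (((m + 1 : ℕ) : ℝ) / M)) N θ - Y (cc ρ ((m : ℝ) / M)) N θ) ^ 4) / δ ^ 3) Th :=
    ((i4 _ _).add (i4 _ _)).div_const _
  rw [integral_add (integrable_const _) i5, integral_div, integral_add (i4 _ _) (i4 _ _)]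
  simp only [integral_const, probReal_univ, smul_eq_mul, one_mul]
  have hms : (m : ℝ) / M ≤ s := by rw [div_le_iff₀ hM']; linarith
  have hms' : (s : ℝ) - (m : ℝ) / M ≤ 1 / M := by
    have : (s : ℝ) ≤ (m + 1) / M := by rw [le_div_iff₀ hM']; linarith
    rw [add_div] at this
    linarith
  have hM1 : 1 / (M : ℝ) ≤ 1 := by
    rw [div_le_one hM']
    exact_mod_cast hM
  have k1 := hfour ρ ((m : ℝ) / M) s N h0 h1 hL hms (by linarith)
  have k2 := hfour ρ ((m : ℝ) / M) (((m + 1 : ℕ) : ℝ) / M) N h0 h1 hL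
    (by push_cast; rw [add_div]; have := div_pos one_pos hM'; linarith)
    (by push_cast; rw [add_div]; linarith)
  have k3 : ((s : ℝ) - (m : ℝ) / M) ^ (3 / 2 : ℝ) ≤ (1 / (M : ℝ)) ^ (3 / 2 : ℝ) :=
    Real.rpow_le_rpow (by linarith) hms' (by norm_num)
  have k4 : (((m + 1 : ℕ) : ℝ) / M - (m : ℝ) / M) = 1 / (M : ℝ) := by
    push_cast
    rw [add_div]
    ring
  rw [k4] at k2
  have k5 := mul_le_mul_of_nonneg_left k3 hK.le
  have k6 : (∫ θ, (Y (cc ρ s) N θ - Y (cc ρ ((m : ℝ) / M)) N θ) ^ 4 ∂Th +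
      ∫ θ, (Y (cc ρ (((m + 1 : ℕ) : ℝ) / M)) N θ - Y (cc ρ ((m : ℝ) / M)) N θ) ^ 4 ∂Th) / δ ^ 3 ≤
      2 * K * (1 / (M : ℝ)) ^ (3 / 2 : ℝ) / δ ^ 3 := by
    gcongr
    linarith
  linarith

theorem Rf_lim {ρ : ℕ → ℝ} {L : ℕ → ℕ}
    (hV : ∀ a b : ℕ, 0 < a → a ≤ b → Tendsto (fun j => Rf (ρ j) (L j ^ 2) ((a : ℝ) / b)) atTop
      (𝓝 ((a : ℝ) / b))) (N : ℕ) {i k : ℕ} (hi : i ≤ N) (hk : k ≤ N) :
    Tendsto (fun j => Rf (ρ j) (L j ^ 2) (((pt N i : unitInterval) : ℝ) - (pt N k : unitInterval)))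
      atTop (𝓝 |((pt N i : unitInterval) : ℝ) - (pt N k : unitInterval)|) := by
  rcases Nat.eq_zero_or_pos N with h0 | h0
  · have hi' : i = 0 := by omega
    have hk' : k = 0 := by omega
    subst hi'
    subst hk'
    simp [Rf_zero]
  · have key : ∀ a b : ℕ, a ≤ b → b ≤ N → Tendsto (fun j => Rf (ρ j) (L j ^ 2)
        (((pt N b : unitInterval) : ℝ) - (pt N a : unitInterval)))
        atTop (𝓝 |((pt N b : unitInterval) : ℝ) - (pt N a : unitInterval)|) := by
      intro a b hab hb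
      rw [pt_val h0 hb, pt_val h0 (hab.trans hb)]
      have e : (b : ℝ) / N - (a : ℝ) / N = ((b - a : ℕ) : ℝ) / N := by
        rw [Nat.cast_sub hab]
        ring
      rw [e, abs_of_nonneg (by positivity)]
      rcases eq_or_lt_of_le hab with h | h
      · subst h
        simp [Rf_zero]
      · exact hV (b - a) N (by omega) (by omega)
    rcases le_total k i with h | h
    · exact key k i h hi
    · have h2 := key i k h hk
      rw [abs_sub_comm]
      refine h2.congr fun j => ?_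
      rw [← Rf_abs (ρ j) _ (((pt N k : unitInterval) : ℝ) - (pt N i : unitInterval)), abs_sub_comm,
        Rf_abs]

theorem t_TOR (hUP : S_UP) (hBLK : S_BLK) (hCLT : S_CLT) (hFOUR : S_FOUR) (hTI : S_TIGHT) :
    S_TOR := by
  intro ρ M L hρ hρ0 hM hV Ω _ P B hB F
  have hP : IsProbabilityMeasure P := hB.isGaussianProcess.isProbabilityMeasure
  letI : MeasurableSpace C(unitInterval, ℝ) := borel _
  haveI : BorelSpace C(unitInterval, ℝ) := ⟨rfl⟩
  obtain ⟨K, hK, hfour⟩ := four_incr hUP hBLK hFOUR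
  obtain ⟨C, hC, hch⟩ := char_lin hBLK hCLT hFOUR
  have evL : ∀ᶠ j in atTop, 1 ≤ log (1 / ρ j) := by
    have h1 : ∀ᶠ j in atTop, ρ j < exp (-1) := hρ0.eventually (gt_mem_nhds (by positivity))
    filter_upwards [h1] with j hj
    rw [one_div, Real.log_inv]
    have := Real.log_lt_log (hρ j).1 hj
    rw [Real.log_exp] at this
    linarith
  have evM : ∀ᶠ j in atTop, 0 < M j := hM.eventually (eventually_gt_atTop 0)
  refine donsker_abs (ν := fun _ => Th) (X := fun j => pathT (ρ j) (M j) (L j ^ 2))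
    (Z := bpath B) (P := P) (fun j => pathT_meas hFOUR _ _ _) (bpath_aem hB) ?_ ?_ F
  · -- the characteristic functions
    intro N t
    rw [bchar hB N t]
    obtain ⟨u, hu⟩ : ∃ u : ℕ → ℝ, u = fun i => ((pt N i : unitInterval) : ℝ) := ⟨_, rfl⟩
    have hu01 : ∀ i, 0 ≤ u i ∧ u i ≤ 1 := fun i => by
      rw [hu]
      exact ⟨(pt N i).2.1, (pt N i).2.2⟩
    have hu0 : u 0 = 0 := by
      rw [hu]
      show ((pt N 0 : unitInterval) : ℝ) = 0
      unfold pt
      simp
    have hR : ∀ i ∈ Finset.range (N + 1), ∀ k ∈ Finset.range (N + 1),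
        Tendsto (fun j => Rf (ρ j) (L j ^ 2) (u i - u k)) atTop (𝓝 |u i - u k|) := by
      intro i hi k hk
      rw [hu]
      exact Rf_lim (fun a b ha hab => hV a b ha hab) N (by have := Finset.mem_range.1 hi; omega)
        (by have := Finset.mem_range.1 hk; omega)
    have hR0 : ∀ i ∈ Finset.range (N + 1),
        Tendsto (fun j => Rf (ρ j) (L j ^ 2) (u i)) atTop (𝓝 (u i)) := by
      intro i hi
      have h1 := hR i hi 0 (Finset.mem_range.2 (by omega))
      rw [hu0] at h1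
      simp only [sub_zero] at h1
      rw [abs_of_nonneg (hu01 i).1] at h1
      exact h1
    -- the limit of the variance
    have hVl : Tendsto (fun j => V (fun n => ∑ i ∈ Finset.range (N + 1), (t i : ℂ) *
        cc (ρ j) (u i) n) (L j ^ 2)) atTop (𝓝 (∑ i ∈ Finset.range (N + 1),
          ∑ k ∈ Finset.range (N + 1), t i * t k * min (u i) (u k))) := by
      simp_rw [V_lin]
      have e1 : ∑ i ∈ Finset.range (N + 1), ∑ k ∈ Finset.range (N + 1),
          t i * t k * min (u i) (u k) = 1 / 2 * ∑ i ∈ Finset.range (N + 1),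
            ∑ k ∈ Finset.range (N + 1), t i * t k * (u i + u k - |u i - u k|) := by
        rw [Finset.mul_sum]
        refine Finset.sum_congr rfl fun i _ => ?_
        rw [Finset.mul_sum]
        refine Finset.sum_congr rfl fun k _ => ?_
        rw [min_def]
        split_ifs with h
        · rw [abs_of_nonpos (by linarith)]
          ring
        · rw [abs_of_nonneg (by linarith)]
          ring
      rw [e1]
      refine Tendsto.const_mul _ (tendsto_finsetSum _ fun i hi => tendsto_finsetSum _ fun k hk => ?_)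
      exact Tendsto.const_mul _ (((hR0 i hi).add (hR0 k hk)).sub (hR i hi k hk))
    obtain ⟨W, hW⟩ : ∃ W : ℝ, W = ∑ i ∈ Finset.range (N + 1),
          ∑ k ∈ Finset.range (N + 1), t i * t k * min (u i) (u k) := ⟨_, rfl⟩
    rw [← hW] at hVl
    have hG : ((exp (-((∑ i ∈ Finset.range (N + 1), ∑ j ∈ Finset.range (N + 1),
      t i * t j * min ((pt N i : unitInterval) : ℝ) ((pt N j : unitInterval) : ℝ)) / 2)) : ℝ) : ℂ) =
        ((exp (-(W / 2)) : ℝ) : ℂ) := by
      rw [hW, hu]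
    rw [hG]
    -- the characteristic functions at the points of the grid
    have hY : Tendsto (fun j => ∫ θ, Complex.exp (((∑ i ∈ Finset.range (N + 1),
        t i * Y (cc (ρ j) (u i)) (L j ^ 2) θ : ℝ) : ℂ) * Complex.I) ∂Th) atTop
        (𝓝 ((exp (-(W / 2)) : ℝ) : ℂ)) := by
      have h1 : Tendsto (fun j => ((exp (-(V (fun n => ∑ i ∈ Finset.range (N + 1), (t i : ℂ) *
        cc (ρ j) (u i) n) (L j ^ 2) / 2)) : ℝ) : ℂ)) atTop (𝓝 ((exp (-(W / 2)) : ℝ) : ℂ)) := by
        refine (Complex.continuous_ofReal.tendsto _).comp ?_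
        refine (Real.continuous_exp.tendsto _).comp ?_
        exact (hVl.div_const 2).neg
      have h2 : Tendsto (fun j => C * ((∑ i ∈ Finset.range (N + 1), |t i|) ^ 3 +
          (∑ i ∈ Finset.range (N + 1), |t i|) ^ 4) * ρ j ^ (1 / 2 : ℝ)) atTop (𝓝 0) := by
        have h3 : Tendsto (fun j => ρ j ^ (1 / 2 : ℝ)) atTop (𝓝 0) := by
          have := hρ0.rpow_const (p := (1 / 2 : ℝ)) (Or.inr (by norm_num))
          rwa [Real.zero_rpow (by norm_num)] at this
        have := h3.const_mul (C * ((∑ i ∈ Finset.range (N + 1), |t i|) ^ 3 +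
          (∑ i ∈ Finset.range (N + 1), |t i|) ^ 4))
        rwa [mul_zero] at this
      have h4 : Tendsto (fun j => ∫ θ, Complex.exp (((∑ i ∈ Finset.range (N + 1),
        t i * Y (cc (ρ j) (u i)) (L j ^ 2) θ : ℝ) : ℂ) * Complex.I) ∂Th -
          ((exp (-(V (fun n => ∑ i ∈ Finset.range (N + 1), (t i : ℂ) *
        cc (ρ j) (u i) n) (L j ^ 2) / 2)) : ℝ) : ℂ)) atTop (𝓝 0) := by
        refine squeeze_zero_norm' ?_ h2
        filter_upwards [evL] with j hj
        exact hch (ρ j) (L j ^ 2) (Finset.range (N + 1)) t u (hρ j).1 (hρ j).2 hj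
          fun i _ => hu01 i
      have h5 := h4.add h1
      rw [zero_add] at h5
      refine h5.congr fun j => ?_
      ring
    -- the difference
    have hD : Tendsto (fun j => (∫ θ, Complex.exp (((∑ i ∈ Finset.range (N + 1),
        t i * pathT (ρ j) (M j) (L j ^ 2) θ (pt N i) : ℝ) : ℂ) * Complex.I) ∂Th) -
        ∫ θ, Complex.exp (((∑ i ∈ Finset.range (N + 1),
        t i * Y (cc (ρ j) (u i)) (L j ^ 2) θ : ℝ) : ℂ) * Complex.I) ∂Th) atTop (𝓝 0) := by
      rw [Metric.tendsto_atTop]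
      intro ε hε
      obtain ⟨A, hA⟩ : ∃ A, A = ∑ i ∈ Finset.range (N + 1), |t i| := ⟨_, rfl⟩
      have hA0 : 0 ≤ A := by rw [hA]; exact Finset.sum_nonneg fun _ _ => abs_nonneg _
      obtain ⟨δ, hδ, hδe⟩ : ∃ δ : ℝ, 0 < δ ∧ A * (3 * δ) < ε := by
        refine ⟨ε / (4 * (A + 1)), by positivity, ?_⟩
        rw [show A * (3 * (ε / (4 * (A + 1)))) = ε * (3 * A / (4 * (A + 1))) by ring]
        have : 3 * A / (4 * (A + 1)) < 1 := by
          rw [div_lt_one (by positivity)]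
          linarith
        nlinarith
      have evS : ∀ᶠ j in atTop, 2 * K * (1 / (M j : ℝ)) ^ (3 / 2 : ℝ) / δ ^ 3 < δ := by
        have h1 : Tendsto (fun j => (1 / (M j : ℝ))) atTop (𝓝 0) := by
          have := tendsto_one_div_atTop_nhds_zero_nat (𝕜 := ℝ)
          exact this.comp hM
        have h2 := h1.rpow_const (p := (3 / 2 : ℝ)) (Or.inr (by norm_num))
        rw [Real.zero_rpow (by norm_num)] at h2
        have h3 := (h2.const_mul (2 * K)).div_const (δ ^ 3)
        rw [mul_zero, zero_div] at h3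
        exact h3.eventually (gt_mem_nhds hδ)
      obtain ⟨j0, hj0⟩ := eventually_atTop.1 (evL.and (evM.and evS))
      refine ⟨j0, fun j hj => ?_⟩
      obtain ⟨g1, g2, g3⟩ := hj0 j hj
      have gn := fun i => near hFOUR hK hfour (hρ j).1 (hρ j).2 g1 g2 (L j ^ 2) (pt N i) hδ
      have mY : ∀ v : ℝ, Measurable (Y (cc (ρ j) v) (L j ^ 2)) := fun v => (hFOUR _ _).1
      have mX : ∀ s : unitInterval, Measurable (fun θ => pathT (ρ j) (M j) (L j ^ 2) θ s) := by
        intro s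
        exact (continuous_eval_const s).measurable.comp (pathT_meas hFOUR _ _ _)
      have i1 : Integrable (fun θ => Complex.exp (((∑ i ∈ Finset.range (N + 1),
        t i * pathT (ρ j) (M j) (L j ^ 2) θ (pt N i) : ℝ) : ℂ) * Complex.I)) Th := by
        refine Integrable.of_bound (Measurable.aestronglyMeasurable ?_) 1
          (Eventually.of_forall fun θ => (Complex.norm_exp_ofReal_mul_I _).le)
        refine Complex.measurable_exp.comp (Measurable.mul_const ?_ _)
        refine Complex.measurable_ofReal.comp ?_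
        exact Finset.measurable_fun_sum _ fun i _ => (mX _).const_mul _
      have i2 : Integrable (fun θ => Complex.exp (((∑ i ∈ Finset.range (N + 1),
        t i * Y (cc (ρ j) (u i)) (L j ^ 2) θ : ℝ) : ℂ) * Complex.I)) Th := by
        refine Integrable.of_bound (Measurable.aestronglyMeasurable ?_) 1
          (Eventually.of_forall fun θ => (Complex.norm_exp_ofReal_mul_I _).le)
        refine Complex.measurable_exp.comp (Measurable.mul_const ?_ _)
        refine Complex.measurable_ofReal.comp ?_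
        exact Finset.measurable_fun_sum _ fun i _ => (mY _).const_mul _
      rw [dist_zero_right, ← integral_sub i1 i2]
      refine lt_of_le_of_lt (norm_integral_le_integral_norm _) ?_
      have hb : ∀ θ, ‖Complex.exp (((∑ i ∈ Finset.range (N + 1),
        t i * pathT (ρ j) (M j) (L j ^ 2) θ (pt N i) : ℝ) : ℂ) * Complex.I) -
          Complex.exp (((∑ i ∈ Finset.range (N + 1),
        t i * Y (cc (ρ j) (u i)) (L j ^ 2) θ : ℝ) : ℂ) * Complex.I)‖ ≤
          ∑ i ∈ Finset.range (N + 1), |t i| *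
            |pathT (ρ j) (M j) (L j ^ 2) θ (pt N i) - Y (cc (ρ j) (u i)) (L j ^ 2) θ| := by
        intro θ
        have h1 : ∀ a b : ℝ, ‖Complex.exp ((a : ℂ) * Complex.I) - Complex.exp ((b : ℂ) * Complex.I)‖
            ≤ |a - b| := by
          intro a b
          have e : Complex.exp ((a : ℂ) * Complex.I) - Complex.exp ((b : ℂ) * Complex.I) =
              Complex.exp ((b : ℂ) * Complex.I) *
                (Complex.exp (((a - b : ℝ) : ℂ) * Complex.I) - 1) := by
            rw [mul_sub, ← Complex.exp_add, mul_one]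
            congr 2
            push_cast
            ring
          rw [e, norm_mul, Complex.norm_exp_ofReal_mul_I, one_mul]
          have := Real.norm_exp_I_mul_ofReal_sub_one_le (x := a - b)
          rw [mul_comm Complex.I] at this
          exact this
        refine (h1 _ _).trans ?_
        rw [← Finset.sum_sub_distrib]
        refine (Finset.abs_sum_le_sum_abs _ _).trans (Finset.sum_le_sum fun i _ => ?_)
        rw [← mul_sub, abs_mul]
      have i3 : ∀ i ∈ Finset.range (N + 1), Integrable (fun θ => |t i| *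
          |pathT (ρ j) (M j) (L j ^ 2) θ (pt N i) - Y (cc (ρ j) (u i)) (L j ^ 2) θ|) Th := by
        intro i _
        have := (gn i).1
        rw [hu]
        exact this.const_mul _
      refine lt_of_le_of_lt (integral_mono (i1.sub i2).norm (integrable_finsetSum _ i3) hb) ?_
      rw [integral_finsetSum _ i3]
      have h7 : ∀ i ∈ Finset.range (N + 1), ∫ θ, |t i| *
          |pathT (ρ j) (M j) (L j ^ 2) θ (pt N i) - Y (cc (ρ j) (u i)) (L j ^ 2) θ| ∂Th ≤
          |t i| * (3 * δ) := by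
        intro i _
        rw [integral_const_mul]
        apply mul_le_mul_of_nonneg_left _ (abs_nonneg _)
        have := (gn i).2
        rw [hu]
        refine this.trans ?_
        linarith
      refine lt_of_le_of_lt (Finset.sum_le_sum h7) ?_
      rw [← Finset.sum_mul, ← hA]
      exact hδe
    have h8 := hD.add hY
    rw [zero_add] at h8
    refine h8.congr fun j => ?_
    ring
  · -- tightness
    intro ε hε η hη
    obtain ⟨N0, hN0⟩ := hTI K ε η hK hε hη
    refine ⟨N0, fun N hN => ?_⟩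
    obtain ⟨M0, hM0⟩ := hN0 N hN
    have evM0 : ∀ᶠ j in atTop, M0 ≤ M j := hM.eventually (eventually_ge_atTop M0)
    filter_upwards [evL, evM, evM0] with j g1 g2 g3
    have hM' : (0 : ℝ) < M j := by exact_mod_cast g2
    have h := hM0 (M j) g3 (ℕ → ℝ) Th (fun i θ => Y (cc (ρ j) ((i : ℝ) / M j)) (L j ^ 2) θ)
      (fun i => (hFOUR _ _).1) (fun i => ⟨_, fun θ => Y_bound _ _ θ⟩) ?_
    · exact h
    · intro a b hab hb
      have h1 : (a : ℝ) ≤ b := by exact_mod_cast hab
      have h2 : (b : ℝ) ≤ M j := by exact_mod_cast hb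
      have h3 := hfour (ρ j) ((a : ℝ) / M j) ((b : ℝ) / M j) (L j ^ 2) (hρ j).1 (hρ j).2 g1
        (by gcongr) (by
          rw [div_le_iff₀ hM', add_mul, div_mul_cancel₀ _ hM'.ne']
          have : (0 : ℝ) ≤ a := Nat.cast_nonneg _
          linarith)
      rw [← sub_div] at h3
      exact h3

end Pool.Agent.U581.LB
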