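import Pool.Agent.U581.LB.StmQ
import Pool.Agent.U581.LB.TorD

/-!
# Project LQ: basic facts
-/

set_option autoImplicit false

namespace Pool.Agent.U581.LB

open Real MeasureTheory Filter Topology ProbabilityTheory Pool.Agent.U581.BM
open scoped BoundedContinuousFunction NNReal Nat

/-! ## Taylor's formula for `exp (i z)` -/

noncomputable def tay (n : ℕ) (z : ℝ) : ℂ :=
  Complex.exp ((z : ℂ) * Complex.I) - ∑ k ∈ Finset.range n, ((z : ℂ) * Complex.I) ^ k / (k ! : ℂ)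

theorem tay_deriv (n : ℕ) (z : ℝ) : HasDerivAt (tay (n + 1)) (Complex.I * tay n z) z := by
  unfold tay
  have h0 : HasDerivAt (fun z : ℝ => (z : ℂ) * Complex.I) Complex.I z := by
    have := (Complex.ofRealCLM.hasDerivAt (x := z)).mul_const Complex.I
    simpa using this
  have h1 : HasDerivAt (fun z : ℝ => Complex.exp ((z : ℂ) * Complex.I))
      (Complex.exp ((z : ℂ) * Complex.I) * Complex.I) z := h0.cexp
  have h2 : HasDerivAt (fun z : ℝ => ∑ k ∈ Finset.range (n + 1),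
      ((z : ℂ) * Complex.I) ^ k / (k ! : ℂ))
      (∑ k ∈ Finset.range (n + 1), (k * ((z : ℂ) * Complex.I) ^ (k - 1) * Complex.I) / (k ! : ℂ)) z := by
    refine HasDerivAt.fun_sum fun k _ => ?_
    exact (h0.pow k).div_const _
  have h3 := h1.fun_sub h2
  refine h3.congr_deriv ?_
  rw [Finset.sum_range_succ', mul_sub, Finset.mul_sum]
  simp only [Nat.cast_zero, zero_mul, zero_div, add_zero]
  congr 1
  · ring
  · refine Finset.sum_congr rfl fun k _ => ?_
    rw [Nat.add_sub_cancel, Nat.factorial_succ]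
    push_cast
    have hk : ((k : ℂ) + 1) ≠ 0 := by exact_mod_cast Nat.succ_ne_zero k
    have hk2 : ((k ! : ℕ) : ℂ) ≠ 0 := by exact_mod_cast Nat.factorial_ne_zero k
    field_simp

theorem tay_zero (n : ℕ) : tay (n + 1) 0 = 0 := by
  unfold tay
  rw [Finset.sum_range_succ']
  simp

theorem tay_bound (n : ℕ) : ∀ z : ℝ, 0 ≤ z → ‖tay n z‖ ≤ z ^ n / (n ! : ℝ) := by
  induction n with
  | zero =>
    intro z _
    unfold tay
    simp [Complex.norm_exp_ofReal_mul_I]
  | succ n ih =>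
    intro z hz
    have hB : ∀ x : ℝ, HasDerivAt (fun x : ℝ => x ^ (n + 1) / ((n + 1)! : ℝ)) (x ^ n / (n ! : ℝ)) x := by
      intro x
      have h1 := (hasDerivAt_pow (n + 1) x).div_const ((n + 1)! : ℝ)
      refine h1.congr_deriv ?_
      rw [Nat.add_sub_cancel, Nat.factorial_succ]
      push_cast
      have hk : ((n : ℝ) + 1) ≠ 0 := by exact_mod_cast Nat.succ_ne_zero n
      have hk2 : ((n ! : ℕ) : ℝ) ≠ 0 := by exact_mod_cast Nat.factorial_ne_zero n
      field_simp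
    refine image_norm_le_of_norm_deriv_right_le_deriv_boundary (a := 0) (b := z)
      (f' := fun x => Complex.I * tay n x) (fun x _ => (tay_deriv n x).continuousAt.continuousWithinAt)
      (fun x _ => (tay_deriv n x).hasDerivWithinAt) ?_ hB ?_ ⟨hz, le_rfl⟩
    · rw [tay_zero]
      simp
    · intro x hx
      rw [norm_mul, Complex.norm_I, one_mul]
      exact ih x hx.1

theorem tay_conj (n : ℕ) (z : ℝ) : tay n (-z) = starRingEnd ℂ (tay n z) := by
  unfold tay
  rw [map_sub, map_sum, ← Complex.exp_conj]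
  simp only [map_div₀, map_pow, map_mul, Complex.conj_ofReal, Complex.conj_I, map_natCast]
  push_cast
  simp only [neg_mul, mul_neg]

theorem tay_even (m : ℕ) (z : ℝ) : ‖tay (2 * m) z‖ ≤ z ^ (2 * m) / ((2 * m)! : ℝ) := by
  rcases le_total 0 z with h | h
  · exact tay_bound _ z h
  · have h1 := tay_bound (2 * m) (-z) (by linarith)
    rw [tay_conj, Complex.norm_conj, Even.neg_pow (even_two_mul m)] at h1
    exact h1

/-! ## Trigonometric polynomials on the line -/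

theorem G_lin (s : Finset ℕ) (t : ℕ → ℝ) (c : ℕ → ℕ → ℂ) (N : ℕ) (R : ℝ) :
    G (fun n => ∑ i ∈ s, (t i : ℂ) * c i n) N R = ∑ i ∈ s, t i * G (c i) N R := by
  unfold G
  simp_rw [Finset.mul_sum]
  rw [Finset.sum_comm]
  refine Finset.sum_congr rfl fun n _ => ?_
  rw [Finset.sum_mul, Complex.re_sum]
  refine Finset.sum_congr rfl fun i _ => ?_
  rw [mul_assoc, Complex.re_ofReal_mul]

theorem G_sub (c c' : ℕ → ℂ) (N : ℕ) (R : ℝ) :
    G (fun n => c n - c' n) N R = G c N R - G c' N R := by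
  unfold G
  rw [← Finset.sum_sub_distrib]
  refine Finset.sum_congr rfl fun n _ => ?_
  rw [sub_mul, Complex.sub_re]

theorem G_bound (c : ℕ → ℂ) (N : ℕ) (R : ℝ) : |G c N R| ≤ ∑ n ∈ Finset.Icc 1 N, ‖c n‖ := by
  unfold G
  refine (Finset.abs_sum_le_sum_abs _ _).trans (Finset.sum_le_sum fun n _ => ?_)
  refine (Complex.abs_re_le_norm _).trans ?_
  rw [norm_mul, Complex.norm_exp_ofReal_mul_I, mul_one]

theorem G_cont (c : ℕ → ℂ) (N : ℕ) : Continuous (G c N) := by
  unfold G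
  fun_prop

theorem G_cc (ρ u R : ℝ) (N : ℕ) : (UN N (R + ρ * u) - UN N R) / sg ρ = G (cc ρ u) N R := by
  unfold UN G cc
  rw [← Finset.sum_sub_distrib, Finset.sum_div]
  refine Finset.sum_congr rfl fun n _ => ?_
  have e : ((cf n / sg ρ : ℝ) : ℂ) * Complex.exp (((-(3 * π / 4) : ℝ) : ℂ) * Complex.I) *
      (Complex.exp (((2 * π * (√n * (ρ * u)) : ℝ) : ℂ) * Complex.I) - 1) *
      Complex.exp (((2 * π * (√n * R) : ℝ) : ℂ) * Complex.I) = ((cf n / sg ρ : ℝ) : ℂ) *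
      (Complex.exp (((2 * π * ((R + ρ * u) * √n) - 3 * π / 4 : ℝ) : ℂ) * Complex.I) -
        Complex.exp (((2 * π * (R * √n) - 3 * π / 4 : ℝ) : ℂ) * Complex.I)) := by
    rw [mul_assoc, mul_assoc, sub_mul, one_mul, mul_sub, ← Complex.exp_add, ← Complex.exp_add,
      ← Complex.exp_add]
    congr 3
    · push_cast
      ring
    · push_cast
      ring
  rw [e, Complex.re_ofReal_mul, Complex.sub_re, Complex.exp_ofReal_mul_I_re,
    Complex.exp_ofReal_mul_I_re]
  ring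

theorem pathU_eq (ρ : ℝ) (M L : ℕ) (R : ℝ) :
    pathU ρ M L R = polygon M fun i => G (cc ρ (i / M)) (L ^ 2) R := by
  unfold pathU
  simp_rw [G_cc]

theorem Dom.mono {c : ℕ → ℂ} {A g h h' : ℝ} (D : Dom c A g h) (h0 : 0 ≤ h) (hh : h ≤ h') :
    Dom c A g h' := by
  refine ⟨fun n => (D.sq n).trans ?_⟩
  have := min_mono2 (n := n) h0 hh
  gcongr

/-! ## The variance -/

theorem VAR_lim (hVARQ : S_VARQ) {ρ : ℕ → ℝ} {N : ℕ → ℕ} (hρ : ∀ j, 0 < ρ j ∧ ρ j < 1)
    (hρ0 : Tendsto ρ atTop (𝓝 0)) (hN : ∀ᶠ j in atTop, ρ j ^ (-4 : ℝ) ≤ N j) (a b : ℕ)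
    (ha : 0 < a) (hab : a ≤ b) :
    Tendsto (fun j => Rf (ρ j) (N j) ((a : ℝ) / b)) atTop (𝓝 ((a : ℝ) / b)) := by
  have ha' : (0 : ℝ) < a := by exact_mod_cast ha
  have hb' : (0 : ℝ) < b := by exact_mod_cast (lt_of_lt_of_le ha hab)
  obtain ⟨r, hr⟩ : ∃ r : ℝ, r = (a : ℝ) / b := ⟨_, rfl⟩
  have hr0 : 0 < r := by rw [hr]; positivity
  have hr1 : r ≤ 1 := by
    rw [hr, div_le_one hb']
    exact_mod_cast hab
  rw [← hr]
  have hlog : Tendsto (fun j => log (1 / ρ j)) atTop atTop := by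
    have h1 : Tendsto (fun j => 1 / ρ j) atTop atTop := by
      simp_rw [one_div]
      refine Tendsto.inv_tendsto_nhdsGT_zero ?_
      rw [tendsto_nhdsWithin_iff]
      exact ⟨hρ0, Eventually.of_forall fun j => (hρ j).1⟩
    exact Real.tendsto_log_atTop.comp h1
  -- the main term
  have hq : Tendsto (fun j => (ρ j * r * log (1 / (ρ j * r))) / (ρ j * log (1 / ρ j))) atTop (𝓝 r) := by
    have h1 : Tendsto (fun j => r * (1 + log (1 / r) / log (1 / ρ j))) atTop (𝓝 (r * (1 + 0))) := by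
      refine Tendsto.const_mul _ (Tendsto.const_add _ ?_)
      exact Tendsto.const_div_atTop hlog _
    rw [add_zero, mul_one] at h1
    refine h1.congr' ?_
    refine Eventually.of_forall fun j => ?_
    have hp := (hρ j).1
    have hl := log_inv_pos (hρ j).1 (hρ j).2
    have e1 : log (1 / (ρ j * r)) = log (1 / ρ j) + log (1 / r) := by
      rw [← Real.log_mul (by positivity) (by positivity)]
      congr 1
      field_simp
    show r * (1 + log (1 / r) / log (1 / ρ j)) =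
      ρ j * r * log (1 / (ρ j * r)) / (ρ j * log (1 / ρ j))
    rw [e1]
    field_simp
  rw [Metric.tendsto_atTop] at hq ⊢
  intro ε hε
  obtain ⟨e, he, he1⟩ : ∃ e : ℝ, 0 < e ∧ e / 16 * (1 + ε) ≤ ε / 4 := by
    refine ⟨ε / (1 + ε), by positivity, ?_⟩
    rw [div_div, div_mul_eq_mul_div, div_le_div_iff₀ (by positivity) (by positivity)]
    nlinarith [mul_pos hε hε]
  obtain ⟨h0, hh0, -, hV⟩ := hVARQ e he
  obtain ⟨j1, hj1⟩ := hq (min 1 (ε / 2) / 1) (by positivity)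
  have ev1 : ∀ᶠ j in atTop, ρ j < h0 := hρ0.eventually (gt_mem_nhds hh0)
  have ev2 : ∀ᶠ j in atTop, ρ j < r ^ 3 := hρ0.eventually (gt_mem_nhds (by positivity))
  obtain ⟨j2, hj2⟩ := eventually_atTop.1 (ev1.and (ev2.and hN))
  refine ⟨max j1 j2, fun j hj => ?_⟩
  have g1 := hj1 j ((le_max_left _ _).trans hj)
  obtain ⟨g2, g3, g4⟩ := hj2 j ((le_max_right _ _).trans hj)
  have hp := (hρ j).1
  have hl := log_inv_pos (hρ j).1 (hρ j).2
  obtain ⟨q, hqd⟩ : ∃ q, q = (ρ j * r * log (1 / (ρ j * r))) / (ρ j * log (1 / ρ j)) := ⟨_, rfl⟩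
  rw [← hqd, Real.dist_eq] at g1
  have g1a : |q - r| < 1 := lt_of_lt_of_le g1 (by rw [div_one]; exact min_le_left _ _)
  have g1b : |q - r| < ε / 2 := lt_of_lt_of_le g1 (by rw [div_one]; exact min_le_right _ _)
  have hh : ρ j * r ≤ h0 := by nlinarith
  have hNj : (ρ j * r) ^ (-3 : ℝ) ≤ N j := by
    refine le_trans ?_ g4
    rw [Real.mul_rpow hp.le hr0.le]
    have e1 : r ^ (-3 : ℝ) ≤ (ρ j) ^ (-1 : ℝ) := by
      rw [Real.rpow_neg hr0.le, Real.rpow_neg hp.le, Real.rpow_one]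
      apply inv_anti₀ hp
      have : r ^ (3 : ℝ) = r ^ 3 := by
        rw [← Real.rpow_natCast]; norm_num
      rw [this]
      exact g3.le
    calc ρ j ^ (-3 : ℝ) * r ^ (-3 : ℝ) ≤ ρ j ^ (-3 : ℝ) * (ρ j) ^ (-1 : ℝ) :=
          mul_le_mul_of_nonneg_left e1 (by positivity)
      _ = ρ j ^ (-4 : ℝ) := by
          rw [← Real.rpow_add hp]
          norm_num
  have k1 := hV (ρ j * r) (by positivity) hh (N j) hNj
  have k2 : Rf (ρ j) (N j) r - q = (∑ n ∈ Finset.Icc 1 (N j), cf n ^ 2 *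
      (1 - cos (2 * π * (√n * (ρ j * r)))) - 16 * (ρ j * r * log (1 / (ρ j * r)))) /
        (16 * (ρ j * log (1 / ρ j))) := by
    have e : q = 16 * (ρ j * r * log (1 / (ρ j * r))) / (16 * (ρ j * log (1 / ρ j))) := by
      rw [hqd, mul_div_mul_left _ _ (by norm_num)]
    rw [e, sub_div]
    unfold Rf
    rw [sg_sq (hρ j).1 (hρ j).2]
  have k3 : |Rf (ρ j) (N j) r - q| ≤ e / 16 * q := by
    rw [k2, abs_div, abs_of_pos (show 0 < 16 * (ρ j * log (1 / ρ j)) by positivity),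
      div_le_iff₀ (by positivity)]
    refine k1.trans (le_of_eq ?_)
    have e : q * (ρ j * log (1 / ρ j)) = ρ j * r * log (1 / (ρ j * r)) := by
      rw [hqd, div_mul_cancel₀]
      positivity
    rw [← e]
    ring
  have hq2 : q ≤ 1 + ε := by have := (abs_lt.1 g1b).2; linarith
  have k4 : e / 16 * q ≤ e / 16 * (1 + ε) := mul_le_mul_of_nonneg_left hq2 (by positivity)
  rw [Real.dist_eq]
  have k5 : |Rf (ρ j) (N j) r - r| ≤ |Rf (ρ j) (N j) r - q| + |q - r| := abs_sub_le _ _ _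
  linarith

/-! ## Polygons and fourth moments -/

theorem near' {X : Type*} [MeasurableSpace X] {P : Measure X} [IsProbabilityMeasure P]
    {S : ℝ → X → ℝ} (hm : ∀ u, Measurable (S u)) {Bd : ℝ → ℝ} (hBd : ∀ u x, |S u x| ≤ Bd u)
    {M : ℕ} (hM : 0 < M) {e : ℝ}
    (hfour : ∀ u v : ℝ, 0 ≤ u → u ≤ v → v ≤ 1 → v ≤ u + 1 / M →
      ∫ x, (S v x - S u x) ^ 4 ∂P ≤ e)
    (s : unitInterval) {δ : ℝ} (hδ : 0 < δ) :
    Measurable (fun x => polygon M (fun i => S ((i : ℝ) / M) x) s) ∧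
    Integrable (fun x => |polygon M (fun i => S ((i : ℝ) / M) x) s - S s x|) P ∧
    ∫ x, |polygon M (fun i => S ((i : ℝ) / M) x) s - S s x| ∂P ≤ 2 * δ + 2 * e / δ ^ 3 := by
  have hM' : (0 : ℝ) < M := by exact_mod_cast hM
  obtain ⟨m, hm', hm1, hm2⟩ := exists_block hM s
  obtain ⟨l, hl⟩ : ∃ l : ℝ, l = M * s - m := ⟨_, rfl⟩
  have hl0 : 0 ≤ l := by rw [hl]; linarith
  have hl1 : l ≤ 1 := by rw [hl]; linarith
  have e1 : ∀ x, polygon M (fun i => S ((i : ℝ) / M) x) s = S ((m : ℝ) / M) x +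
      (S (((m + 1 : ℕ) : ℝ) / M) x - S ((m : ℝ) / M) x) * l := by
    intro x
    rw [polygon_eq _ s hm' hm1 hm2, hl]
  have mP : Measurable fun x => polygon M (fun i => S ((i : ℝ) / M) x) s := by
    simp_rw [e1]
    exact (hm _).add (((hm _).sub (hm _)).mul_const _)
  have i4 : ∀ u v, Integrable (fun x => (S v x - S u x) ^ 4) P := by
    intro u v
    refine Integrable.of_bound (((hm _).sub (hm _)).pow_const 4).aestronglyMeasurable
      ((Bd v + Bd u) ^ 4) (Eventually.of_forall fun x => ?_)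
    rw [Real.norm_eq_abs, abs_pow]
    apply pow_le_pow_left₀ (abs_nonneg _)
    exact (abs_sub _ _).trans (add_le_add (hBd v x) (hBd u x))
  have hb : ∀ x, |polygon M (fun i => S ((i : ℝ) / M) x) s - S s x| ≤
      2 * δ + ((S s x - S ((m : ℝ) / M) x) ^ 4 +
        (S (((m + 1 : ℕ) : ℝ) / M) x - S ((m : ℝ) / M) x) ^ 4) / δ ^ 3 := by
    intro x
    rw [e1 x]
    obtain ⟨a, ha⟩ : ∃ a, a = S s x - S ((m : ℝ) / M) x := ⟨_, rfl⟩
    obtain ⟨b, hb⟩ : ∃ b, b = S (((m + 1 : ℕ) : ℝ) / M) x - S ((m : ℝ) / M) x := ⟨_, rfl⟩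
    have e2 : S ((m : ℝ) / M) x + (S (((m + 1 : ℕ) : ℝ) / M) x - S ((m : ℝ) / M) x) * l -
        S s x = b * l - a := by rw [ha, hb]; ring
    rw [e2, ← ha, ← hb]
    have h3 : |b * l - a| ≤ |b| + |a| := by
      refine (abs_sub _ _).trans ?_
      rw [abs_mul, abs_of_nonneg hl0]
      have := mul_le_mul_of_nonneg_left hl1 (abs_nonneg b)
      linarith
    have h4 := abs_le4 (a := a) hδ
    have h5 := abs_le4 (a := b) hδ
    rw [add_div]
    linarith
  have i5 : Integrable (fun x => ((S s x - S ((m : ℝ) / M) x) ^ 4 +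
        (S (((m + 1 : ℕ) : ℝ) / M) x - S ((m : ℝ) / M) x) ^ 4) / δ ^ 3) P :=
    ((i4 _ _).add (i4 _ _)).div_const _
  have i6 : Integrable (fun x => 2 * δ + ((S s x - S ((m : ℝ) / M) x) ^ 4 +
        (S (((m + 1 : ℕ) : ℝ) / M) x - S ((m : ℝ) / M) x) ^ 4) / δ ^ 3) P :=
    (integrable_const _).add i5
  have iD : Integrable (fun x => |polygon M (fun i => S ((i : ℝ) / M) x) s - S s x|) P := by
    refine Integrable.mono' i6 ?_ ?_
    · exact (mP.sub (hm _)).abs.aestronglyMeasurable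
    · refine Eventually.of_forall fun x => ?_
      rw [Real.norm_eq_abs, abs_abs]
      exact hb x
  refine ⟨mP, iD, ?_⟩
  refine (integral_mono iD i6 hb).trans ?_
  rw [integral_add (integrable_const _) i5, integral_div, integral_add (i4 _ _) (i4 _ _)]
  simp only [integral_const, probReal_univ, smul_eq_mul, one_mul]
  have hms : (m : ℝ) / M ≤ s := by rw [div_le_iff₀ hM']; linarith
  have hms' : (s : ℝ) ≤ (m : ℝ) / M + 1 / M := by
    have : (s : ℝ) ≤ (m + 1) / M := by rw [le_div_iff₀ hM']; linarith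
    rw [add_div] at this
    linarith
  have hmM : (((m + 1 : ℕ) : ℝ)) / M ≤ 1 := by
    rw [div_le_one hM']
    exact_mod_cast hm'
  have hinv := div_pos one_pos hM'
  have k1 := hfour ((m : ℝ) / M) s (by positivity) hms s.2.2 hms'
  have k2 := hfour ((m : ℝ) / M) (((m + 1 : ℕ) : ℝ) / M) (by positivity)
    (by push_cast; rw [add_div]; linarith) hmM (by push_cast; rw [add_div])
  have k6 : (∫ x, (S s x - S ((m : ℝ) / M) x) ^ 4 ∂P +
      ∫ x, (S (((m + 1 : ℕ) : ℝ) / M) x - S ((m : ℝ) / M) x) ^ 4 ∂P) / δ ^ 3 ≤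
      2 * e / δ ^ 3 := by
    gcongr
    linarith
  linarith

end Pool.Agent.U581.LB
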