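import Pool.Agent.U581.LB.SeqA

/-!
# Project LQ: moments and characteristic functions
-/

set_option autoImplicit false

namespace Pool.Agent.U581.LB

open Real MeasureTheory Filter Topology ProbabilityTheory Pool.Agent.U581.BM
open scoped BoundedContinuousFunction NNReal Nat

/-- the sequences under consideration -/
structure Seq (c₁ c₂ K s : ℝ) (T ρ : ℕ → ℝ) (N : ℕ → ℕ) (μ : ℕ → Measure ℝ) : Prop where
  adm : ∀ j, AdmL c₁ c₂ K s (T j) (μ j)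
  s0 : 1 / 3 < s
  T1 : ∀ j, 1 < T j
  Tl : Tendsto T atTop atTop
  r01 : ∀ j, 0 < ρ j ∧ ρ j < 1
  r0 : Tendsto ρ atTop (𝓝 0)
  N1 : ∀ j, 1 ≤ N j
  Ns : ∀ δ : ℝ, 0 < δ → ∀ᶠ j in atTop, (N j : ℝ) ≤ T j ^ δ
  Nr : ∀ᶠ j in atTop, ρ j ^ (-4 : ℝ) ≤ N j

theorem ev_const {T : ℕ → ℝ} (Tl : Tendsto T atTop atTop) (D : ℝ) {δ : ℝ} (hδ : 0 < δ) :
    ∀ᶠ j in atTop, D ≤ T j ^ δ :=
  ((tendsto_rpow_atTop hδ).comp Tl).eventually (eventually_ge_atTop D)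

theorem ev_log {ρ : ℕ → ℝ} (hρ : ∀ j, 0 < ρ j ∧ ρ j < 1) (hρ0 : Tendsto ρ atTop (𝓝 0)) :
    ∀ᶠ j in atTop, 1 ≤ log (1 / ρ j) := by
  have h1 : ∀ᶠ j in atTop, ρ j < exp (-1) := hρ0.eventually (gt_mem_nhds (by positivity))
  filter_upwards [h1] with j hj
  rw [one_div, Real.log_inv]
  have := Real.log_lt_log (hρ j).1 hj
  rw [Real.log_exp] at this
  linarith

theorem l1_bound (hUP : S_UP) (A : ℝ) : ∃ V0 : ℝ, 1 ≤ V0 ∧ ∀ (ρ : ℝ) (N : ℕ) (c : ℕ → ℂ),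
    0 < ρ → ρ < 1 → 1 ≤ log (1 / ρ) → Dom c A (sg ρ) ρ →
    (∑ n ∈ Finset.Icc 1 N, ‖c n‖) ^ 2 ≤ V0 * N ∧ V c N ≤ V0 := by
  obtain ⟨C, hC, -, hU⟩ := hUP
  refine ⟨A ^ 2 * C / 4 + 1, by nlinarith [mul_nonneg (sq_nonneg A) hC.le], ?_⟩
  intro ρ N c h0 h1 hL D
  have hV := D.V N
  have hu := hU N ρ h0 h1.le
  have hg := sg_pos h0 h1
  have k1 : (A / sg ρ) ^ 2 * ∑ n ∈ Finset.Icc 1 N, cf n ^ 2 * min 2 (2 * π ^ 2 * (n * ρ ^ 2)) ≤
      A ^ 2 * C / 8 := by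
    calc (A / sg ρ) ^ 2 * ∑ n ∈ Finset.Icc 1 N, cf n ^ 2 * min 2 (2 * π ^ 2 * (n * ρ ^ 2))
        ≤ (A / sg ρ) ^ 2 * (C * (ρ * (1 + log (1 / ρ)))) :=
          mul_le_mul_of_nonneg_left hu (by positivity)
      _ ≤ (A / sg ρ) ^ 2 * (C * (ρ * (2 * log (1 / ρ)))) := by
          apply mul_le_mul_of_nonneg_left _ (by positivity)
          apply mul_le_mul_of_nonneg_left _ hC.le
          apply mul_le_mul_of_nonneg_left _ h0.le
          linarith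
      _ = A ^ 2 * C / 8 := by
          rw [div_pow, sg_sq h0 h1]
          have : log (1 / ρ) ≠ 0 := by linarith
          field_simp
          ring
  have k2 : V c N ≤ A ^ 2 * C / 8 := hV.trans k1
  have hAC : 0 ≤ A ^ 2 * C := by positivity
  refine ⟨?_, by linarith⟩
  have k3 : (∑ n ∈ Finset.Icc 1 N, ‖c n‖) ^ 2 ≤ N * ∑ n ∈ Finset.Icc 1 N, ‖c n‖ ^ 2 := by
    have := sq_sum_le_card_mul_sum_sq (s := Finset.Icc 1 N) (f := fun n => ‖c n‖)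
    rwa [Nat.card_Icc, Nat.add_sub_cancel] at this
  have k4 : ∑ n ∈ Finset.Icc 1 N, ‖c n‖ ^ 2 = 2 * V c N := by
    unfold V
    ring
  rw [k4] at k3
  have hN : (0 : ℝ) ≤ N := Nat.cast_nonneg _
  nlinarith

section

variable {c₁ c₂ K s : ℝ} {T ρ : ℕ → ℝ} {N : ℕ → ℕ} {μ : ℕ → Measure ℝ}

theorem Seq.K0 (S : Seq c₁ c₂ K s T ρ N μ) : 0 ≤ K := by
  have h1 := S.T1 0
  have h2 := (S.adm 0).dec (T 0) (by
    rw [abs_of_pos (by linarith)]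
    calc T 0 ^ (1 / 10 : ℝ) ≤ T 0 ^ (1 : ℝ) := Real.rpow_le_rpow_of_exponent_le h1.le (by norm_num)
      _ = T 0 := Real.rpow_one _) (by
    rw [abs_of_pos (by linarith)]
    nlinarith)
  have h3 : 0 ≤ K * |T 0| ^ (-s) := (norm_nonneg _).trans h2
  by_contra h
  push Not at h
  have h4 : 0 < |T 0| ^ (-s) := Real.rpow_pos_of_pos (abs_pos.2 (by linarith)) _
  nlinarith

theorem Seq.mom (S : Seq c₁ c₂ K s T ρ N μ) (hMOM : S_MOM) (hUP : S_UP) (A : ℝ) {k : ℕ}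
    (hk : 1 ≤ k) : ∀ᶠ j in atTop, ∀ c : ℕ → ℂ, Dom c A (sg (ρ j)) (ρ j) →
    |∫ x, G c (N j) (T j * x) ^ k ∂μ j - ∫ θ, Y c (N j) θ ^ k ∂Th| ≤ T j ^ (-(s / 20)) := by
  obtain ⟨V0, hV0, hV⟩ := l1_bound hUP A
  have hs := S.s0
  have hk' : (1 : ℝ) ≤ k := by exact_mod_cast hk
  have hK := S.K0
  obtain ⟨E, hE⟩ : ∃ E : ℕ, E = 2 ^ k := ⟨_, rfl⟩
  have hE1 : (1 : ℝ) ≤ E := by
    rw [hE]
    exact_mod_cast Nat.one_le_two_pow
  filter_upwards [ev_log S.r01 S.r0, S.Ns (1 / (4 * E)) (by positivity),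
    ev_const S.Tl ((k : ℝ) ^ E) (δ := 1 / 2) (by norm_num), S.Ns (1 / 2) (by norm_num),
    ev_const S.Tl (2 * π * k) (δ := 1 / 2) (by norm_num), S.Ns (s / (40 * k)) (by positivity),
    ev_const S.Tl (K * V0 ^ k) (δ := s / 40) (by positivity)] with j g0 g1 g2 g3 g4 g5 g6
  intro c D
  have hT1 := S.T1 j
  have hT0 : 0 < T j := by linarith
  have hN1 : (1 : ℝ) ≤ N j := by exact_mod_cast S.N1 j
  have hN0 : (0 : ℝ) ≤ N j := by linarith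
  have p1 : ((k : ℝ) * N j) ^ E ≤ T j ^ (3 / 4 : ℝ) := by
    rw [mul_pow]
    have : (N j : ℝ) ^ E ≤ T j ^ (1 / 4 : ℝ) := by
      calc (N j : ℝ) ^ E ≤ (T j ^ (1 / (4 * E) : ℝ)) ^ E := pow_le_pow_left₀ hN0 g1 _
        _ = T j ^ (1 / 4 : ℝ) := by
            rw [← Real.rpow_natCast, ← Real.rpow_mul hT0.le]
            congr 1
            field_simp
    calc (k : ℝ) ^ E * (N j : ℝ) ^ E ≤ T j ^ (1 / 2 : ℝ) * T j ^ (1 / 4 : ℝ) := by gcongr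
      _ = T j ^ (3 / 4 : ℝ) := by
          rw [← Real.rpow_add hT0]
          norm_num
  have c1 : T j ^ (1 / 10 : ℝ) ≤ 2 * π * T j / ((k : ℝ) * N j) ^ (2 ^ k) := by
    rw [← hE, le_div_iff₀ (by positivity)]
    calc T j ^ (1 / 10 : ℝ) * ((k : ℝ) * N j) ^ E ≤ T j ^ (1 / 10 : ℝ) * T j ^ (3 / 4 : ℝ) := by gcongr
      _ = T j ^ (17 / 20 : ℝ) := by
          rw [← Real.rpow_add hT0]
          norm_num
      _ ≤ T j ^ (1 : ℝ) := Real.rpow_le_rpow_of_exponent_le hT1.le (by norm_num)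
      _ = T j := Real.rpow_one _
      _ ≤ 2 * π * T j := by nlinarith [Real.pi_gt_three]
  have c2 : 2 * π * ((k : ℝ) * N j) * T j ≤ T j ^ 2 := by
    have h1 : 2 * π * k * N j ≤ T j := by
      calc 2 * π * k * N j ≤ T j ^ (1 / 2 : ℝ) * T j ^ (1 / 2 : ℝ) := by gcongr
        _ = T j := by
            rw [← Real.rpow_add hT0]
            norm_num
    calc 2 * π * ((k : ℝ) * N j) * T j = (2 * π * k * N j) * T j := by ring
      _ ≤ T j * T j := mul_le_mul_of_nonneg_right h1 hT0.le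
      _ = T j ^ 2 := by ring
  refine (hMOM c₁ c₂ K s (T j) (μ j) (S.adm j) hK (by linarith) hT1.le k (N j) hk (S.N1 j) c1 c2
    c).trans ?_
  obtain ⟨hl, -⟩ := hV (ρ j) (N j) c (S.r01 j).1 (S.r01 j).2 g0 D
  have hl1 : ∑ n ∈ Finset.Icc 1 (N j), ‖c n‖ ≤ V0 * N j := by
    have h1 : (∑ n ∈ Finset.Icc 1 (N j), ‖c n‖) ^ 2 ≤ (V0 * N j) ^ 2 := by
      refine hl.trans ?_
      have : 1 ≤ V0 * N j := by nlinarith
      nlinarith
    exact le_of_sq_le_sq h1 (by positivity)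
  have hl2 : (∑ n ∈ Finset.Icc 1 (N j), ‖c n‖) ^ k ≤ V0 ^ k * T j ^ (s / 40) := by
    calc (∑ n ∈ Finset.Icc 1 (N j), ‖c n‖) ^ k ≤ (V0 * N j) ^ k :=
          pow_le_pow_left₀ (Finset.sum_nonneg fun _ _ => norm_nonneg _) hl1 k
      _ = V0 ^ k * (N j : ℝ) ^ k := mul_pow _ _ _
      _ ≤ V0 ^ k * (T j ^ (s / (40 * k))) ^ k := by gcongr
      _ = V0 ^ k * T j ^ (s / 40) := by
          rw [← Real.rpow_natCast (T j ^ (s / (40 * k))), ← Real.rpow_mul hT0.le]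
          congr 2
          field_simp
  calc K * T j ^ (-(s / 10)) * (∑ n ∈ Finset.Icc 1 (N j), ‖c n‖) ^ k
      ≤ K * T j ^ (-(s / 10)) * (V0 ^ k * T j ^ (s / 40)) :=
        mul_le_mul_of_nonneg_left hl2 (by positivity)
    _ = (K * V0 ^ k) * (T j ^ (-(s / 10)) * T j ^ (s / 40)) := by ring
    _ ≤ T j ^ (s / 40) * (T j ^ (-(s / 10)) * T j ^ (s / 40)) := by gcongr
    _ = T j ^ (-(s / 20)) := by
        rw [← Real.rpow_add hT0, ← Real.rpow_add hT0]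
        congr 1
        ring

theorem chr_tay {X : Type*} [MeasurableSpace X] {P : Measure X} [IsProbabilityMeasure P]
    {g : X → ℝ} (hg : Measurable g) {B : ℝ} (hB : ∀ x, |g x| ≤ B) (m : ℕ) :
    ‖∫ x, Complex.exp (((g x : ℝ) : ℂ) * Complex.I) ∂P -
      ∑ k ∈ Finset.range (2 * m), Complex.I ^ k / (k ! : ℂ) * ((∫ x, g x ^ k ∂P : ℝ) : ℂ)‖ ≤
      (∫ x, g x ^ (2 * m) ∂P) / ((2 * m)! : ℝ) := by
  have ip : ∀ k, Integrable (fun x => g x ^ k) P := fun k =>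
    Integrable.of_bound (hg.pow_const k).aestronglyMeasurable (B ^ k)
      (Eventually.of_forall fun x => by
        rw [Real.norm_eq_abs, abs_pow]
        exact pow_le_pow_left₀ (abs_nonneg _) (hB x) k)
  have ie : Integrable (fun x => Complex.exp (((g x : ℝ) : ℂ) * Complex.I)) P := by
    refine Integrable.of_bound (Measurable.aestronglyMeasurable ?_) 1
      (Eventually.of_forall fun θ => (Complex.norm_exp_ofReal_mul_I _).le)
    exact Complex.measurable_exp.comp ((Complex.measurable_ofReal.comp hg).mul_const _)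
  have ik : ∀ k ∈ Finset.range (2 * m),
      Integrable (fun x => Complex.I ^ k / (k ! : ℂ) * ((g x ^ k : ℝ) : ℂ)) P :=
    fun k _ => ((ip k).ofReal).const_mul _
  have e1 : ∑ k ∈ Finset.range (2 * m), Complex.I ^ k / (k ! : ℂ) * ((∫ x, g x ^ k ∂P : ℝ) : ℂ) =
      ∫ x, ∑ k ∈ Finset.range (2 * m), Complex.I ^ k / (k ! : ℂ) * ((g x ^ k : ℝ) : ℂ) ∂P := by
    rw [integral_finsetSum _ ik]
    refine Finset.sum_congr rfl fun k _ => ?_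
    rw [integral_const_mul]
    congr 1
    exact integral_complex_ofReal.symm
  rw [e1, ← integral_sub ie (integrable_finsetSum _ ik), ← integral_div]
  refine norm_integral_le_of_norm_le ((ip (2 * m)).div_const _) (Eventually.of_forall fun x => ?_)
  have e2 : Complex.exp (((g x : ℝ) : ℂ) * Complex.I) - ∑ k ∈ Finset.range (2 * m),
      Complex.I ^ k / (k ! : ℂ) * ((g x ^ k : ℝ) : ℂ) = tay (2 * m) (g x) := by
    unfold tay
    congr 1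
    refine Finset.sum_congr rfl fun k _ => ?_
    rw [mul_pow]
    push_cast
    ring
  rw [e2]
  exact tay_even m (g x)

theorem Seq.chr (S : Seq c₁ c₂ K s T ρ N μ) (hMOM : S_MOM) (hUP : S_UP) (hMB : S_MB)
    (hFOUR : S_FOUR) {A : ℝ} (hA : 0 ≤ A) {η : ℝ} (hη : 0 < η) :
    ∀ᶠ j in atTop, ∀ c : ℕ → ℂ, Dom c A (sg (ρ j)) (ρ j) →
    ‖∫ x, Complex.exp (((G c (N j) (T j * x) : ℝ) : ℂ) * Complex.I) ∂μ j -
      ∫ θ, Complex.exp (((Y c (N j) θ : ℝ) : ℂ) * Complex.I) ∂Th‖ ≤ η := by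
  obtain ⟨C, hC, hm⟩ := hMB A hA
  obtain ⟨m, hm1, hmη⟩ : ∃ m : ℕ, 1 ≤ m ∧ 2 * C / 4 ^ m ≤ η / 2 := by
    have h1 : Tendsto (fun m : ℕ => 2 * C * (1 / 4 : ℝ) ^ m) atTop (𝓝 (2 * C * 0)) :=
      (tendsto_pow_atTop_nhds_zero_of_lt_one (by norm_num) (by norm_num)).const_mul _
    rw [mul_zero] at h1
    obtain ⟨m, h2, h3⟩ := ((h1.eventually (gt_mem_nhds (half_pos hη))).and
      (eventually_ge_atTop 1)).exists
    refine ⟨m, h3, ?_⟩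
    rw [one_div, inv_pow, ← div_eq_mul_inv] at h2
    exact h2.le
  obtain ⟨ρ₀, hρ₀, hb⟩ := hm m
  have ev1 : ∀ᶠ j in atTop, ρ j < ρ₀ := S.r0.eventually (gt_mem_nhds hρ₀)
  have hs := S.s0
  have ev2 : ∀ᶠ j in atTop, (2 * m + 1 : ℝ) * T j ^ (-(s / 20)) < η / 2 := by
    have h1 : Tendsto (fun j => (2 * m + 1 : ℝ) * T j ^ (-(s / 20))) atTop
        (𝓝 ((2 * m + 1 : ℝ) * 0)) :=
      ((tendsto_rpow_neg_atTop (by linarith)).comp S.Tl).const_mul _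
    rw [mul_zero] at h1
    exact h1.eventually (gt_mem_nhds (half_pos hη))
  have ev3 : ∀ᶠ j in atTop, ∀ k ∈ Finset.Icc 1 (2 * m), ∀ c : ℕ → ℂ, Dom c A (sg (ρ j)) (ρ j) →
      |∫ x, G c (N j) (T j * x) ^ k ∂μ j - ∫ θ, Y c (N j) θ ^ k ∂Th| ≤ T j ^ (-(s / 20)) := by
    rw [Finset.eventually_all]
    intro k hk
    exact S.mom hMOM hUP A (Finset.mem_Icc.1 hk).1
  filter_upwards [ev1, ev2, ev3] with j g1 g2 g3
  intro c D
  have hP : IsProbabilityMeasure (μ j) := (S.adm j).prob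
  have hT1 := S.T1 j
  have hT0 : 0 < T j := by linarith
  obtain ⟨t, ht⟩ : ∃ t, t = T j ^ (-(s / 20)) := ⟨_, rfl⟩
  have ht0 : 0 < t := by rw [ht]; positivity
  rw [← ht] at g2 g3
  have a1 := chr_tay (P := μ j) (g := fun x => G c (N j) (T j * x))
    ((G_cont c (N j)).measurable.comp (measurable_const_mul (T j))) (fun x => G_bound c (N j) _) m
  have a2 := chr_tay (P := Th) (g := Y c (N j)) (hFOUR c (N j)).1 (fun x => Y_bound c (N j) _) m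
  have a3 := hb (ρ j) (S.r01 j).1 g1.le c (N j) D
  obtain ⟨g, hg⟩ : ∃ g : ℕ → ℝ, g = fun k => ∫ x, G c (N j) (T j * x) ^ k ∂μ j := ⟨_, rfl⟩
  obtain ⟨y, hy⟩ : ∃ y : ℕ → ℝ, y = fun k => ∫ θ, Y c (N j) θ ^ k ∂Th := ⟨_, rfl⟩
  have hgy : ∀ k ∈ Finset.range (2 * m), |g k - y k| ≤ t := by
    intro k hk
    rcases Nat.eq_zero_or_pos k with h | h
    · subst h
      rw [hg, hy]
      simp [ht0.le]
    · rw [hg, hy]
      exact g3 k (Finset.mem_Icc.2 ⟨h, (Finset.mem_range.1 hk).le⟩) c D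
  have hgy2 : |g (2 * m) - y (2 * m)| ≤ t := by
    rw [hg, hy]
    exact g3 (2 * m) (Finset.mem_Icc.2 ⟨by omega, le_rfl⟩) c D
  have hF : (1 : ℝ) ≤ ((2 * m)! : ℝ) := by exact_mod_cast Nat.one_le_iff_ne_zero.2 (Nat.factorial_ne_zero _)
  have a3' : y (2 * m) / ((2 * m)! : ℝ) ≤ C / 4 ^ m := by
    rw [div_le_iff₀ (by positivity), hy]
    calc ∫ θ, Y c (N j) θ ^ (2 * m) ∂Th ≤ C * ((2 * m)! : ℝ) / 4 ^ m := a3
      _ = C / 4 ^ m * ((2 * m)! : ℝ) := by ring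
  have a4 : g (2 * m) / ((2 * m)! : ℝ) ≤ C / 4 ^ m + t := by
    have h1 : g (2 * m) ≤ y (2 * m) + t := by have := (abs_le.1 hgy2).2; linarith
    calc g (2 * m) / ((2 * m)! : ℝ) ≤ (y (2 * m) + t) / ((2 * m)! : ℝ) := by gcongr
      _ = y (2 * m) / ((2 * m)! : ℝ) + t / ((2 * m)! : ℝ) := add_div _ _ _
      _ ≤ C / 4 ^ m + t := add_le_add a3' (div_le_self ht0.le hF)
  have a5 : ‖∑ k ∈ Finset.range (2 * m), Complex.I ^ k / (k ! : ℂ) * ((g k : ℝ) : ℂ) -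
      ∑ k ∈ Finset.range (2 * m), Complex.I ^ k / (k ! : ℂ) * ((y k : ℝ) : ℂ)‖ ≤ 2 * m * t := by
    rw [← Finset.sum_sub_distrib]
    have h1 : ∀ k ∈ Finset.range (2 * m), ‖Complex.I ^ k / (k ! : ℂ) * ((g k : ℝ) : ℂ) -
        Complex.I ^ k / (k ! : ℂ) * ((y k : ℝ) : ℂ)‖ ≤ t := by
      intro k hk
      rw [← mul_sub, norm_mul, norm_div, norm_pow, Complex.norm_I, one_pow, ← Complex.ofReal_sub,
        Complex.norm_real, Complex.norm_natCast, Real.norm_eq_abs]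
      have h2 : (1 : ℝ) ≤ (k ! : ℝ) := by
        exact_mod_cast Nat.one_le_iff_ne_zero.2 (Nat.factorial_ne_zero _)
      have h3 : (1 : ℝ) / (k ! : ℝ) ≤ 1 := by
        rw [div_le_one (by linarith)]
        exact h2
      calc 1 / (k ! : ℝ) * |g k - y k| ≤ 1 * t :=
            mul_le_mul h3 (hgy k hk) (abs_nonneg _) (by norm_num)
        _ = t := one_mul t
    refine (norm_sum_le _ _).trans ((Finset.sum_le_sum h1).trans (le_of_eq ?_))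
    rw [Finset.sum_const, Finset.card_range, nsmul_eq_mul]
    push_cast
    ring
  have a6 : 2 * C / 4 ^ m = C / 4 ^ m + C / 4 ^ m := by ring
  rw [hg] at a5 a4
  rw [hy] at a5 a3'
  have a7 := norm_sub_le_norm_sub_add_norm_sub
    (∫ x, Complex.exp (((G c (N j) (T j * x) : ℝ) : ℂ) * Complex.I) ∂μ j)
    (∑ k ∈ Finset.range (2 * m), Complex.I ^ k / (k ! : ℂ) *
      ((∫ x, G c (N j) (T j * x) ^ k ∂μ j : ℝ) : ℂ))
    (∫ θ, Complex.exp (((Y c (N j) θ : ℝ) : ℂ) * Complex.I) ∂Th)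
  have a8 := norm_sub_le_norm_sub_add_norm_sub
    (∑ k ∈ Finset.range (2 * m), Complex.I ^ k / (k ! : ℂ) *
      ((∫ x, G c (N j) (T j * x) ^ k ∂μ j : ℝ) : ℂ))
    (∑ k ∈ Finset.range (2 * m), Complex.I ^ k / (k ! : ℂ) *
      ((∫ θ, Y c (N j) θ ^ k ∂Th : ℝ) : ℂ))
    (∫ θ, Complex.exp (((Y c (N j) θ : ℝ) : ℂ) * Complex.I) ∂Th)
  rw [norm_sub_rev (∑ k ∈ Finset.range (2 * m), Complex.I ^ k / (k ! : ℂ) *
      ((∫ θ, Y c (N j) θ ^ k ∂Th : ℝ) : ℂ))] at a8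
  have e9 : (2 * m + 1 : ℝ) * t = 2 * m * t + t := by ring
  linarith

/-- fourth moments of increments -/
theorem Seq.four (S : Seq c₁ c₂ K s T ρ N μ) (hMOM : S_MOM) (hUP : S_UP) {K4 : ℝ}
    (hfour : ∀ (ρ u v : ℝ) (N : ℕ), 0 < ρ → ρ < 1 → 1 ≤ log (1 / ρ) → u ≤ v → v ≤ u + 1 →
      ∫ θ, (Y (cc ρ v) N θ - Y (cc ρ u) N θ) ^ 4 ∂Th ≤ K4 * (v - u) ^ (3 / 2 : ℝ)) :
    ∀ᶠ j in atTop, ∀ u v : ℝ, 0 ≤ u → u ≤ v → v ≤ 1 →
    ∫ x, (G (cc (ρ j) v) (N j) (T j * x) - G (cc (ρ j) u) (N j) (T j * x)) ^ 4 ∂μ j ≤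
      K4 * (v - u) ^ (3 / 2 : ℝ) + T j ^ (-(s / 20)) := by
  filter_upwards [S.mom hMOM hUP 1 (k := 4) (by norm_num), ev_log S.r01 S.r0] with j g1 g2
  intro u v hu huv hv
  have hr := S.r01 j
  have D : Dom (fun n => cc (ρ j) v n - cc (ρ j) u n) 1 (sg (ρ j)) (ρ j) := by
    refine Dom.mono dom_sub (mul_nonneg hr.1.le (by linarith)) ?_
    nlinarith [hr.1]
  have h1 := g1 _ D
  simp_rw [G_sub, Y_sub] at h1
  have h2 := hfour (ρ j) u v (N j) hr.1 hr.2 g2 huv (by linarith)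
  have := (abs_le.1 h1).2
  linarith

end

end Pool.Agent.U581.LB
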