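import Pool.Agent.U581.LB.SeqB

/-!
# Project LQ: the sequential form
-/

set_option autoImplicit false

namespace Pool.Agent.U581.LB

open Real MeasureTheory Filter Topology ProbabilityTheory Pool.Agent.U581.BM
open scoped BoundedContinuousFunction NNReal

theorem Rf_lim' {ρ : ℕ → ℝ} {L : ℕ → ℕ}
    (hV : ∀ a b : ℕ, 0 < a → a ≤ b → Tendsto (fun j => Rf (ρ j) (L j) ((a : ℝ) / b)) atTop
      (𝓝 ((a : ℝ) / b))) (N : ℕ) {i k : ℕ} (hi : i ≤ N) (hk : k ≤ N) :
    Tendsto (fun j => Rf (ρ j) (L j) (((pt N i : unitInterval) : ℝ) - (pt N k : unitInterval)))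
      atTop (𝓝 |((pt N i : unitInterval) : ℝ) - (pt N k : unitInterval)|) := by
  rcases Nat.eq_zero_or_pos N with h0 | h0
  · have hi' : i = 0 := by omega
    have hk' : k = 0 := by omega
    subst hi'
    subst hk'
    simp [Rf_zero]
  · have key : ∀ a b : ℕ, a ≤ b → b ≤ N → Tendsto (fun j => Rf (ρ j) (L j)
        (((pt N b : unitInterval) : ℝ) - (pt N a : unitInterval)))
        atTop (𝓝 |((pt N b : unitInterval) : ℝ) - (pt N a : unitInterval)|) := by
      intro a b hab hb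
      rw [pt_val h0 hb, pt_val h0 (hab.trans hb)]
      have e : (b : ℝ) / N - (a : ℝ) / N = ((b - a : ℕ) : ℝ) / N := by
        rw [Nat.cast_sub hab]
        ring
      rw [e, abs_of_nonneg (by positivity)]
      rcases eq_or_lt_of_le hab with h | h
      · subst h
        simp [Rf_zero]
      · exact hV (b - a) N (by omega) (by omega)
    rcases le_total k i with h | h
    · exact key k i h hi
    · have h2 := key i k h hk
      rw [abs_sub_comm]
      refine h2.congr fun j => ?_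
      rw [← Rf_abs (ρ j) _ (((pt N k : unitInterval) : ℝ) - (pt N i : unitInterval)), abs_sub_comm,
        Rf_abs]

theorem torus_char (hBLK : S_BLK) (hCLT : S_CLT) (hFOUR : S_FOUR) {ρ : ℕ → ℝ} {L : ℕ → ℕ}
    (hρ : ∀ j, 0 < ρ j ∧ ρ j < 1) (hρ0 : Tendsto ρ atTop (𝓝 0))
    (hV : ∀ a b : ℕ, 0 < a → a ≤ b → Tendsto (fun j => Rf (ρ j) (L j) ((a : ℝ) / b)) atTop
      (𝓝 ((a : ℝ) / b))) (N : ℕ) (t : ℕ → ℝ) :
    Tendsto (fun j => ∫ θ, Complex.exp (((∑ i ∈ Finset.range (N + 1),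
        t i * Y (cc (ρ j) ((pt N i : unitInterval) : ℝ)) (L j) θ : ℝ) : ℂ) * Complex.I) ∂Th) atTop
        (𝓝 ((exp (-((∑ i ∈ Finset.range (N + 1), ∑ j ∈ Finset.range (N + 1),
      t i * t j * min ((pt N i : unitInterval) : ℝ) ((pt N j : unitInterval) : ℝ)) / 2)) : ℝ) : ℂ)) := by
  obtain ⟨C, hC, hch⟩ := char_lin hBLK hCLT hFOUR
  obtain ⟨u, hu⟩ : ∃ u : ℕ → ℝ, u = fun i => ((pt N i : unitInterval) : ℝ) := ⟨_, rfl⟩
  have hu01 : ∀ i, 0 ≤ u i ∧ u i ≤ 1 := fun i => by
    rw [hu]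
    exact ⟨(pt N i).2.1, (pt N i).2.2⟩
  have hu0 : u 0 = 0 := by
    rw [hu]
    show ((pt N 0 : unitInterval) : ℝ) = 0
    unfold pt
    simp
  have hR : ∀ i ∈ Finset.range (N + 1), ∀ k ∈ Finset.range (N + 1),
      Tendsto (fun j => Rf (ρ j) (L j) (u i - u k)) atTop (𝓝 |u i - u k|) := by
    intro i hi k hk
    rw [hu]
    exact Rf_lim' hV N (by have := Finset.mem_range.1 hi; omega)
      (by have := Finset.mem_range.1 hk; omega)
  have hR0 : ∀ i ∈ Finset.range (N + 1),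
      Tendsto (fun j => Rf (ρ j) (L j) (u i)) atTop (𝓝 (u i)) := by
    intro i hi
    have h1 := hR i hi 0 (Finset.mem_range.2 (by omega))
    rw [hu0] at h1
    simp only [sub_zero] at h1
    rw [abs_of_nonneg (hu01 i).1] at h1
    exact h1
  -- the limit of the variance
  have hVl : Tendsto (fun j => V (fun n => ∑ i ∈ Finset.range (N + 1), (t i : ℂ) *
      cc (ρ j) (u i) n) (L j)) atTop (𝓝 (∑ i ∈ Finset.range (N + 1),
        ∑ k ∈ Finset.range (N + 1), t i * t k * min (u i) (u k))) := by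
    simp_rw [V_lin]
    have e1 : ∑ i ∈ Finset.range (N + 1), ∑ k ∈ Finset.range (N + 1),
        t i * t k * min (u i) (u k) = 1 / 2 * ∑ i ∈ Finset.range (N + 1),
          ∑ k ∈ Finset.range (N + 1), t i * t k * (u i + u k - |u i - u k|) := by
      rw [Finset.mul_sum]
      refine Finset.sum_congr rfl fun i _ => ?_
      rw [Finset.mul_sum]
      refine Finset.sum_congr rfl fun k _ => ?_
      rw [min_def]
      split_ifs with h
      · rw [abs_of_nonpos (by linarith)]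
        ring
      · rw [abs_of_nonneg (by linarith)]
        ring
    rw [e1]
    refine Tendsto.const_mul _ (tendsto_finsetSum _ fun i hi => tendsto_finsetSum _ fun k hk => ?_)
    exact Tendsto.const_mul _ (((hR0 i hi).add (hR0 k hk)).sub (hR i hi k hk))
  obtain ⟨W, hW⟩ : ∃ W : ℝ, W = ∑ i ∈ Finset.range (N + 1),
        ∑ k ∈ Finset.range (N + 1), t i * t k * min (u i) (u k) := ⟨_, rfl⟩
  rw [← hW] at hVl
  have hG : ((exp (-((∑ i ∈ Finset.range (N + 1), ∑ j ∈ Finset.range (N + 1),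
    t i * t j * min ((pt N i : unitInterval) : ℝ) ((pt N j : unitInterval) : ℝ)) / 2)) : ℝ) : ℂ) =
      ((exp (-(W / 2)) : ℝ) : ℂ) := by
    rw [hW, hu]
  rw [hG]
  have hY : Tendsto (fun j => ∫ θ, Complex.exp (((∑ i ∈ Finset.range (N + 1),
      t i * Y (cc (ρ j) (u i)) (L j) θ : ℝ) : ℂ) * Complex.I) ∂Th) atTop
      (𝓝 ((exp (-(W / 2)) : ℝ) : ℂ)) := by
    have h1 : Tendsto (fun j => ((exp (-(V (fun n => ∑ i ∈ Finset.range (N + 1), (t i : ℂ) *
      cc (ρ j) (u i) n) (L j) / 2)) : ℝ) : ℂ)) atTop (𝓝 ((exp (-(W / 2)) : ℝ) : ℂ)) := by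
      refine (Complex.continuous_ofReal.tendsto _).comp ?_
      refine (Real.continuous_exp.tendsto _).comp ?_
      exact (hVl.div_const 2).neg
    have h2 : Tendsto (fun j => C * ((∑ i ∈ Finset.range (N + 1), |t i|) ^ 3 +
        (∑ i ∈ Finset.range (N + 1), |t i|) ^ 4) * ρ j ^ (1 / 2 : ℝ)) atTop (𝓝 0) := by
      have h3 : Tendsto (fun j => ρ j ^ (1 / 2 : ℝ)) atTop (𝓝 0) := by
        have := hρ0.rpow_const (p := (1 / 2 : ℝ)) (Or.inr (by norm_num))
        rwa [Real.zero_rpow (by norm_num)] at this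
      have := h3.const_mul (C * ((∑ i ∈ Finset.range (N + 1), |t i|) ^ 3 +
        (∑ i ∈ Finset.range (N + 1), |t i|) ^ 4))
      rwa [mul_zero] at this
    have h4 : Tendsto (fun j => ∫ θ, Complex.exp (((∑ i ∈ Finset.range (N + 1),
      t i * Y (cc (ρ j) (u i)) (L j) θ : ℝ) : ℂ) * Complex.I) ∂Th -
        ((exp (-(V (fun n => ∑ i ∈ Finset.range (N + 1), (t i : ℂ) *
      cc (ρ j) (u i) n) (L j) / 2)) : ℝ) : ℂ)) atTop (𝓝 0) := by
      refine squeeze_zero_norm' ?_ h2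
      filter_upwards [ev_log hρ hρ0] with j hj
      exact hch (ρ j) (L j) (Finset.range (N + 1)) t u (hρ j).1 (hρ j).2 hj
        fun i _ => hu01 i
    have h5 := h4.add h1
    rw [zero_add] at h5
    refine h5.congr fun j => ?_
    ring
  rw [hu] at hY
  exact hY

theorem expdiff {X : Type*} [MeasurableSpace X] {P : Measure X} [IsProbabilityMeasure P]
    (s : Finset ℕ) (t : ℕ → ℝ) {f g : ℕ → X → ℝ} (hf : ∀ i, Measurable (f i))
    (hg : ∀ i, Measurable (g i)) (hi : ∀ i, Integrable (fun x => |f i x - g i x|) P) :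
    ‖∫ x, Complex.exp (((∑ i ∈ s, t i * f i x : ℝ) : ℂ) * Complex.I) ∂P -
      ∫ x, Complex.exp (((∑ i ∈ s, t i * g i x : ℝ) : ℂ) * Complex.I) ∂P‖ ≤
      ∑ i ∈ s, |t i| * ∫ x, |f i x - g i x| ∂P := by
  have ie : ∀ h : ℕ → X → ℝ, (∀ i, Measurable (h i)) →
      Integrable (fun x => Complex.exp (((∑ i ∈ s, t i * h i x : ℝ) : ℂ) * Complex.I)) P := by
    intro h hh
    refine Integrable.of_bound (Measurable.aestronglyMeasurable ?_) 1
      (Eventually.of_forall fun θ => (Complex.norm_exp_ofReal_mul_I _).le)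
    refine Complex.measurable_exp.comp (Measurable.mul_const ?_ _)
    refine Complex.measurable_ofReal.comp ?_
    exact Finset.measurable_fun_sum _ fun i _ => (hh _).const_mul _
  rw [← integral_sub (ie f hf) (ie g hg)]
  have i3 : ∀ i ∈ s, Integrable (fun x => |t i| * |f i x - g i x|) P := fun i _ =>
    (hi i).const_mul _
  have hb : ∀ x, ‖Complex.exp (((∑ i ∈ s, t i * f i x : ℝ) : ℂ) * Complex.I) -
      Complex.exp (((∑ i ∈ s, t i * g i x : ℝ) : ℂ) * Complex.I)‖ ≤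
      ∑ i ∈ s, |t i| * |f i x - g i x| := by
    intro x
    have h1 : ∀ a b : ℝ, ‖Complex.exp ((a : ℂ) * Complex.I) - Complex.exp ((b : ℂ) * Complex.I)‖
        ≤ |a - b| := by
      intro a b
      have e : Complex.exp ((a : ℂ) * Complex.I) - Complex.exp ((b : ℂ) * Complex.I) =
          Complex.exp ((b : ℂ) * Complex.I) *
            (Complex.exp (((a - b : ℝ) : ℂ) * Complex.I) - 1) := by
        rw [mul_sub, ← Complex.exp_add, mul_one]
        congr 2
        push_cast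
        ring
      rw [e, norm_mul, Complex.norm_exp_ofReal_mul_I, one_mul]
      have := Real.norm_exp_I_mul_ofReal_sub_one_le (x := a - b)
      rw [mul_comm Complex.I] at this
      exact this
    refine (h1 _ _).trans ?_
    rw [← Finset.sum_sub_distrib]
    refine (Finset.abs_sum_le_sum_abs _ _).trans (Finset.sum_le_sum fun i _ => ?_)
    rw [← mul_sub, abs_mul]
  refine (norm_integral_le_of_norm_le (integrable_finsetSum _ i3) (Eventually.of_forall hb)).trans ?_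
  rw [integral_finsetSum _ i3]
  refine le_of_eq (Finset.sum_congr rfl fun i _ => ?_)
  rw [integral_const_mul]

section

variable {c₁ c₂ K s : ℝ} {T ρ : ℕ → ℝ} {L : ℕ → ℕ} {μ : ℕ → Measure ℝ}

theorem Seq.conv (S : Seq c₁ c₂ K s T ρ (fun j => L j ^ 2) μ) (hUP : S_UP) (hBLK : S_BLK)
    (hCLT : S_CLT) (hFOUR : S_FOUR) (hTI : S_TIGHT) (hMOM : S_MOM) (hMB : S_MB) (hVARQ : S_VARQ)
    (hRM : S_RM) {M : ℕ → ℕ} (hM : Tendsto M atTop atTop)
    (hMT : ∀ δ : ℝ, 0 < δ → ∀ᶠ j in atTop, (M j : ℝ) ≤ T j ^ δ)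
    [MeasurableSpace C(unitInterval, ℝ)] [BorelSpace C(unitInterval, ℝ)]
    {Ω : Type} [MeasurableSpace Ω] (P : Measure Ω) (B : ℝ≥0 → Ω → ℝ) (hB : IsBrownianReal B P)
    (F : C(unitInterval, ℝ) →ᵇ ℝ) :
    Tendsto (fun j => ∫ x, F (pathU (ρ j) (M j) (L j) (T j * x)) ∂μ j) atTop
      (𝓝 (∫ ω, F (bpath B ω) ∂P)) := by
  have hP : IsProbabilityMeasure P := hB.isGaussianProcess.isProbabilityMeasure
  have hμ : ∀ j, IsProbabilityMeasure (μ j) := fun j => (S.adm j).prob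
  have hs := S.s0
  obtain ⟨K4, hK4, hfour⟩ := four_incr hUP hBLK hFOUR
  have evM : ∀ᶠ j in atTop, 0 < M j := hM.eventually (eventually_gt_atTop 0)
  have mG : ∀ (c : ℕ → ℂ) (N : ℕ) (T : ℝ), Measurable fun x => G c N (T * x) := fun c N T =>
    (G_cont c N).measurable.comp (measurable_const_mul T)
  refine donsker_abs (ν := μ) (X := fun j x => pathU (ρ j) (M j) (L j) (T j * x))
    (Z := bpath B) (P := P) (fun j => (hRM (ρ j) (T j) (M j) (L j)).2) (bpath_aem hB) ?_ ?_ F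
  · -- the characteristic functions
    intro N t
    rw [bchar hB N t]
    have hY := torus_char hBLK hCLT hFOUR S.r01 S.r0
      (fun a b ha hab => VAR_lim hVARQ S.r01 S.r0 S.Nr a b ha hab) N t
    obtain ⟨A, hA⟩ : ∃ A, A = ∑ i ∈ Finset.range (N + 1), |t i| := ⟨_, rfl⟩
    have hA0 : 0 ≤ A := by rw [hA]; exact Finset.sum_nonneg fun _ _ => abs_nonneg _
    -- from the torus to the line
    have h1 : Tendsto (fun j => (∫ x, Complex.exp (((∑ i ∈ Finset.range (N + 1), t i *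
        G (cc (ρ j) ((pt N i : unitInterval) : ℝ)) (L j ^ 2) (T j * x) : ℝ) : ℂ) * Complex.I)
          ∂μ j) - ∫ θ, Complex.exp (((∑ i ∈ Finset.range (N + 1), t i *
        Y (cc (ρ j) ((pt N i : unitInterval) : ℝ)) (L j ^ 2) θ : ℝ) : ℂ) * Complex.I) ∂Th) atTop
        (𝓝 0) := by
      rw [Metric.tendsto_atTop]
      intro η hη
      obtain ⟨j0, hj0⟩ := eventually_atTop.1 (S.chr hMOM hUP hMB hFOUR hA0 (half_pos hη))
      refine ⟨j0, fun j hj => ?_⟩
      have h2 := hj0 j hj (fun n => ∑ i ∈ Finset.range (N + 1), (t i : ℂ) *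
        cc (ρ j) ((pt N i : unitInterval) : ℝ) n) (by
          rw [hA]
          exact dom_lin (S.r01 j).1 (Finset.range (N + 1)) t
            (fun i => ((pt N i : unitInterval) : ℝ)) fun i _ => ⟨(pt N i).2.1, (pt N i).2.2⟩)
      simp_rw [G_lin, Y_lin] at h2
      rw [dist_zero_right]
      linarith
    -- from the polygon to the points of the grid
    have h2 : Tendsto (fun j => (∫ x, Complex.exp (((∑ i ∈ Finset.range (N + 1), t i *
        pathU (ρ j) (M j) (L j) (T j * x) (pt N i) : ℝ) : ℂ) * Complex.I) ∂μ j) -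
        ∫ x, Complex.exp (((∑ i ∈ Finset.range (N + 1), t i *
        G (cc (ρ j) ((pt N i : unitInterval) : ℝ)) (L j ^ 2) (T j * x) : ℝ) : ℂ) * Complex.I)
          ∂μ j) atTop (𝓝 0) := by
      rw [Metric.tendsto_atTop]
      intro ε hε
      obtain ⟨δ, hδ, hδe⟩ : ∃ δ : ℝ, 0 < δ ∧ A * (3 * δ) < ε := by
        refine ⟨ε / (4 * (A + 1)), by positivity, ?_⟩
        rw [show A * (3 * (ε / (4 * (A + 1)))) = ε * (3 * A / (4 * (A + 1))) by ring]
        have : 3 * A / (4 * (A + 1)) < 1 := by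
          rw [div_lt_one (by positivity)]
          linarith
        nlinarith
      have evS : ∀ᶠ j in atTop,
          2 * (K4 * (1 / (M j : ℝ)) ^ (3 / 2 : ℝ) + T j ^ (-(s / 20))) / δ ^ 3 < δ := by
        have h1 : Tendsto (fun j => (1 / (M j : ℝ))) atTop (𝓝 0) := by
          have := tendsto_one_div_atTop_nhds_zero_nat (𝕜 := ℝ)
          exact this.comp hM
        have h2 := h1.rpow_const (p := (3 / 2 : ℝ)) (Or.inr (by norm_num))
        rw [Real.zero_rpow (by norm_num)] at h2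
        have h4 : Tendsto (fun j => T j ^ (-(s / 20))) atTop (𝓝 0) :=
          (tendsto_rpow_neg_atTop (by linarith)).comp S.Tl
        have h3 := (((h2.const_mul K4).add h4).const_mul 2).div_const (δ ^ 3)
        rw [mul_zero, add_zero, mul_zero, zero_div] at h3
        exact h3.eventually (gt_mem_nhds hδ)
      obtain ⟨j0, hj0⟩ := eventually_atTop.1 (evM.and (evS.and (S.four hMOM hUP hfour)))
      refine ⟨j0, fun j hj => ?_⟩
      obtain ⟨g2, g3, g4⟩ := hj0 j hj
      have hMj : (0 : ℝ) < M j := by exact_mod_cast g2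
      have gn := fun i : ℕ => near' (P := μ j) (S := fun u x => G (cc (ρ j) u) (L j ^ 2) (T j * x))
        (fun u => mG _ _ _) (Bd := fun u => ∑ n ∈ Finset.Icc 1 (L j ^ 2), ‖cc (ρ j) u n‖)
        (fun u x => G_bound _ _ _) g2 (e := K4 * (1 / (M j : ℝ)) ^ (3 / 2 : ℝ) + T j ^ (-(s / 20)))
        (by
          intro u v hu huv hv hvM
          refine (g4 u v hu huv hv).trans ?_
          have : (v - u) ^ (3 / 2 : ℝ) ≤ (1 / (M j : ℝ)) ^ (3 / 2 : ℝ) :=
            Real.rpow_le_rpow (by linarith) (by linarith) (by norm_num)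
          have := mul_le_mul_of_nonneg_left this hK4.le
          linarith) (pt N i) hδ
      have h5 := expdiff (P := μ j) (Finset.range (N + 1)) t
        (f := fun i x => polygon (M j) (fun i => G (cc (ρ j) ((i : ℝ) / M j)) (L j ^ 2) (T j * x))
          (pt N i))
        (g := fun i x => G (cc (ρ j) ((pt N i : unitInterval) : ℝ)) (L j ^ 2) (T j * x))
        (fun i => (gn i).1) (fun i => mG _ _ _) (fun i => (gn i).2.1)
      rw [dist_zero_right]
      simp_rw [pathU_eq]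
      refine lt_of_le_of_lt h5 ?_
      have h7 : ∀ i ∈ Finset.range (N + 1), |t i| * ∫ x, |polygon (M j) (fun i =>
          G (cc (ρ j) ((i : ℝ) / M j)) (L j ^ 2) (T j * x)) (pt N i) -
          G (cc (ρ j) ((pt N i : unitInterval) : ℝ)) (L j ^ 2) (T j * x)| ∂μ j ≤
          |t i| * (3 * δ) := by
        intro i _
        apply mul_le_mul_of_nonneg_left _ (abs_nonneg _)
        refine ((gn i).2.2).trans ?_
        linarith
      refine lt_of_le_of_lt (Finset.sum_le_sum h7) ?_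
      rw [← Finset.sum_mul, ← hA]
      exact hδe
    have h8 := (h2.add h1).add hY
    rw [zero_add, zero_add] at h8
    refine h8.congr fun j => ?_
    ring
  · -- tightness
    intro ε hε η hη
    obtain ⟨N0, hN0⟩ := hTI (K4 + 1) ε η (by linarith) hε hη
    refine ⟨N0, fun N hN => ?_⟩
    obtain ⟨M0, hM0⟩ := hN0 N hN
    have evM0 : ∀ᶠ j in atTop, M0 ≤ M j := hM.eventually (eventually_ge_atTop M0)
    filter_upwards [evM, evM0, S.four hMOM hUP hfour, hMT (s / 30) (by linarith)] with j g2 g3 g4 g5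
    have hM' : (0 : ℝ) < M j := by exact_mod_cast g2
    have hT1 := S.T1 j
    have hT0 : 0 < T j := by linarith
    have ht : T j ^ (-(s / 20)) ≤ (1 / (M j : ℝ)) ^ (3 / 2 : ℝ) := by
      rw [one_div, Real.inv_rpow hM'.le, Real.rpow_neg hT0.le]
      apply inv_anti₀ (by positivity)
      calc (M j : ℝ) ^ (3 / 2 : ℝ) ≤ (T j ^ (s / 30)) ^ (3 / 2 : ℝ) :=
            Real.rpow_le_rpow hM'.le g5 (by norm_num)
        _ = T j ^ (s / 20) := by
            rw [← Real.rpow_mul hT0.le]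
            congr 1
            ring
    have h := hM0 (M j) g3 ℝ (μ j) (fun i x => G (cc (ρ j) ((i : ℝ) / M j)) (L j ^ 2) (T j * x))
      (fun i => mG _ _ _) (fun i => ⟨_, fun x => G_bound _ _ _⟩) ?_
    · simp_rw [pathU_eq]
      exact h
    · intro a b hab hb
      rcases eq_or_lt_of_le hab with rfl | hlt
      · simp
      have h1 : (a : ℝ) ≤ b := by exact_mod_cast hab
      have h2 : (b : ℝ) ≤ M j := by exact_mod_cast hb
      have h1' : (a : ℝ) + 1 ≤ b := by exact_mod_cast hlt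
      have h3 := g4 ((a : ℝ) / M j) ((b : ℝ) / M j) (by positivity) (by gcongr)
        (by rw [div_le_one hM']; exact h2)
      rw [← sub_div] at h3
      refine h3.trans ?_
      have h6 : (1 / (M j : ℝ)) ^ (3 / 2 : ℝ) ≤ (((b : ℝ) - a) / M j) ^ (3 / 2 : ℝ) := by
        apply Real.rpow_le_rpow (by positivity) _ (by norm_num)
        gcongr
        linarith
      have e : (K4 + 1) * (((b : ℝ) - a) / M j) ^ (3 / 2 : ℝ) =
        K4 * (((b : ℝ) - a) / M j) ^ (3 / 2 : ℝ) + (((b : ℝ) - a) / M j) ^ (3 / 2 : ℝ) := by ring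
      rw [e]
      linarith

end

theorem t_SEQ (hUP : S_UP) (hBLK : S_BLK) (hCLT : S_CLT) (hFOUR : S_FOUR) (hTI : S_TIGHT)
    (hMOM : S_MOM) (hMB : S_MB) (hVARQ : S_VARQ) (hAPX : S_APX) (hSLU : S_SLU) (hRM : S_RM) :
    S_SEQ := by
  intro c₁ c₂ K s hc₁ hs T ρ M μ hadm hT1 hT hρ hρ0 hM hδ Ω _ P B hB F
  have hP : IsProbabilityMeasure P := hB.isGaussianProcess.isProbabilityMeasure
  letI : MeasurableSpace C(unitInterval, ℝ) := borel _
  haveI : BorelSpace C(unitInterval, ℝ) := ⟨rfl⟩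
  obtain ⟨C, τ, T₀, hC, hτ, hapx⟩ := hAPX c₁ c₂ K s hc₁ hs
  obtain ⟨b, hb2, hbτ⟩ : ∃ b : ℕ, 2 ≤ b ∧ 3 ≤ b * τ := by
    refine ⟨⌈3 / τ⌉₊ + 2, by omega, ?_⟩
    have h1 := Nat.le_ceil (3 / τ)
    rw [div_le_iff₀ hτ] at h1
    push_cast
    nlinarith
  obtain ⟨m, hm⟩ : ∃ m : ℕ → ℝ, m = fun j => max (1 / ρ j) (M j) := ⟨_, rfl⟩
  have hm1 : ∀ j, 1 / ρ j ≤ m j := fun j => by rw [hm]; exact le_max_left _ _
  have hm2 : ∀ j, (M j : ℝ) ≤ m j := fun j => by rw [hm]; exact le_max_right _ _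
  have hm0 : ∀ j, 1 ≤ m j := fun j => by
    refine le_trans ?_ (hm1 j)
    rw [le_div_iff₀ (hρ j).1]
    linarith [(hρ j).2]
  obtain ⟨L, hL⟩ : ∃ L : ℕ → ℕ, L = fun j => ⌈m j ^ b⌉₊ := ⟨_, rfl⟩
  have hL1 : ∀ j, m j ^ b ≤ L j := fun j => by rw [hL]; exact Nat.le_ceil _
  have hL2 : ∀ j, (L j : ℝ) ≤ m j ^ b + 1 := fun j => by
    rw [hL]
    exact (Nat.ceil_lt_add_one (by have := hm0 j; positivity)).le
  have hLone : ∀ j, 1 ≤ L j := fun j => by
    have h1 : (1 : ℝ) ≤ L j := (one_le_pow₀ (hm0 j)).trans (hL1 j)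
    exact_mod_cast h1
  have hmT : ∀ δ : ℝ, 0 < δ → ∀ᶠ j in atTop, m j ≤ T j ^ δ := by
    intro δ hδ0
    filter_upwards [hδ δ hδ0] with j hj
    rw [hm]
    apply max_le _ hj.2
    have hT0 : 0 < T j := by linarith [hT1 j]
    rw [one_div]
    have h1 := inv_anti₀ (by positivity) hj.1
    rwa [Real.rpow_neg hT0.le, inv_inv] at h1
  have hNT : ∀ δ : ℝ, 0 < δ → ∀ᶠ j in atTop, ((L j ^ 2 : ℕ) : ℝ) ≤ T j ^ δ := by
    intro δ hδ0
    have hbp : (0 : ℝ) < b := by exact_mod_cast (by omega : 0 < b)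
    filter_upwards [hmT (δ / (4 * b)) (by positivity), ev_const hT 4 (half_pos hδ0)] with j g1 g2
    have hT0 : 0 < T j := by linarith [hT1 j]
    have h1 : m j ^ b ≤ T j ^ (δ / 4) := by
      calc m j ^ b ≤ (T j ^ (δ / (4 * b))) ^ b :=
            pow_le_pow_left₀ (by linarith [hm0 j]) g1 b
        _ = T j ^ (δ / 4) := by
            rw [← Real.rpow_natCast, ← Real.rpow_mul hT0.le]
            congr 1
            field_simp
    have h2 : (1 : ℝ) ≤ T j ^ (δ / 4) := (one_le_pow₀ (hm0 j)).trans h1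
    have h3 : (L j : ℝ) ≤ 2 * T j ^ (δ / 4) := by linarith [hL2 j]
    push_cast
    calc (L j : ℝ) ^ 2 ≤ (2 * T j ^ (δ / 4)) ^ 2 := pow_le_pow_left₀ (Nat.cast_nonneg _) h3 2
      _ = 4 * (T j ^ (δ / 4) * T j ^ (δ / 4)) := by ring
      _ = 4 * T j ^ (δ / 2) := by
          rw [← Real.rpow_add hT0]
          congr 2
          ring
      _ ≤ T j ^ (δ / 2) * T j ^ (δ / 2) := by gcongr
      _ = T j ^ δ := by
          rw [← Real.rpow_add hT0]
          congr 1
          ring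
  have S : Seq c₁ c₂ K s T ρ (fun j => L j ^ 2) μ := by
    refine ⟨hadm, hs, hT1, hT, hρ, hρ0, fun j => Nat.one_le_pow _ _ (hLone j), hNT, ?_⟩
    refine Eventually.of_forall fun j => ?_
    have h1 : (1 / ρ j) ^ 2 ≤ L j := by
      have h2 : (1 / ρ j) ^ 2 ≤ m j ^ 2 := pow_le_pow_left₀ (by have := (hρ j).1; positivity) (hm1 j) 2
      exact h2.trans ((pow_le_pow_right₀ (hm0 j) hb2).trans (hL1 j))
    have h3 : ((1 / ρ j) ^ 2) ^ 2 ≤ (L j : ℝ) ^ 2 := pow_le_pow_left₀ (by positivity) h1 2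
    have h4 : ρ j ^ (-4 : ℝ) = ((1 / ρ j) ^ 2) ^ 2 := by
      rw [Real.rpow_neg (hρ j).1.le, one_div, ← pow_mul, inv_pow]
      congr 1
      rw [← Real.rpow_natCast]
      norm_num
    rw [h4]
    push_cast
    exact h3
  refine hSLU μ (fun j x => pathR (ρ j) (M j) (T j * x))
    (fun j x => pathU (ρ j) (M j) (L j) (T j * x)) P (bpath B) (fun j => (hadm j).prob)
    (fun j => (hRM (ρ j) (T j) (M j) (L j)).1) (fun j => (hRM (ρ j) (T j) (M j) (L j)).2)
    (bpath_aem hB) ?_ ?_ F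
  · intro F'
    exact S.conv hUP hBLK hCLT hFOUR hTI hMOM hMB hVARQ hRM hM
      (fun δ h => (hδ δ h).mono fun j hj => hj.2) P B hB F'
  · intro ε hε
    have hlim : Tendsto (fun j => C / (8 * ε ^ 2) * ρ j) atTop (𝓝 0) := by
      have := hρ0.const_mul (C / (8 * ε ^ 2))
      rwa [mul_zero] at this
    refine squeeze_zero' (Eventually.of_forall fun j => measureReal_nonneg) ?_ hlim
    filter_upwards [ev_log hρ hρ0, hT.eventually (eventually_ge_atTop T₀), hNT τ hτ,
      hM.eventually (eventually_ge_atTop 1)] with j g1 g2 g3 g4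
    have hr := (hρ j).1
    have hLτ : (L j : ℝ) ≤ T j ^ τ := by
      refine le_trans ?_ g3
      have : L j ≤ L j ^ 2 := by
        have := hLone j
        nlinarith
      exact_mod_cast this
    refine (hapx (T j) (ρ j) (M j) (L j) g2 hr (hρ j).2 g4 (hLone j) hLτ (μ j) (hadm j) ε hε).trans ?_
    have hmp : 0 < m j := by linarith [hm0 j]
    have k1 : (L j : ℝ) ^ (-τ) ≤ m j ^ (-3 : ℝ) := by
      calc (L j : ℝ) ^ (-τ) ≤ (m j ^ b) ^ (-τ) :=
            Real.rpow_le_rpow_of_nonpos (by positivity) (hL1 j) (by linarith)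
        _ = m j ^ (-(b * τ)) := by
            rw [← Real.rpow_natCast, ← Real.rpow_mul hmp.le]
            congr 1
            ring
        _ ≤ m j ^ (-3 : ℝ) := Real.rpow_le_rpow_of_exponent_le (hm0 j) (by linarith)
    have k2 : (M j : ℝ) + 1 ≤ 2 * m j := by linarith [hm0 j, hm2 j]
    have k3 : 16 * ρ j ≤ sg (ρ j) ^ 2 := by
      rw [sg_sq hr (hρ j).2]
      nlinarith
    have k4 : m j ^ (-3 : ℝ) * m j = m j ^ (-2 : ℝ) := by
      nth_rewrite 2 [← Real.rpow_one (m j)]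
      rw [← Real.rpow_add hmp]
      norm_num
    have k5 : m j ^ (-2 : ℝ) ≤ ρ j ^ 2 := by
      have h1 : (1 / ρ j) ^ (2 : ℝ) ≤ m j ^ (2 : ℝ) :=
        Real.rpow_le_rpow (by positivity) (hm1 j) (by norm_num)
      rw [Real.rpow_neg hmp.le]
      calc (m j ^ (2 : ℝ))⁻¹ ≤ ((1 / ρ j) ^ (2 : ℝ))⁻¹ := inv_anti₀ (by positivity) h1
        _ = ρ j ^ 2 := by
            rw [one_div, Real.inv_rpow hr.le, inv_inv, ← Real.rpow_natCast]
            norm_num
    calc C * (M j + 1) * (L j : ℝ) ^ (-τ) / (ε ^ 2 * sg (ρ j) ^ 2)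
        ≤ C * (2 * m j) * m j ^ (-3 : ℝ) / (ε ^ 2 * (16 * ρ j)) := by gcongr
      _ = C / (8 * ε ^ 2) * (m j ^ (-3 : ℝ) * m j) / ρ j := by
          field_simp
          ring
      _ = C / (8 * ε ^ 2) * m j ^ (-2 : ℝ) / ρ j := by rw [k4]
      _ ≤ C / (8 * ε ^ 2) * ρ j ^ 2 / ρ j := by gcongr
      _ = C / (8 * ε ^ 2) * ρ j := by
          field_simp

end Pool.Agent.U581.LB
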