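import Pool.Agent.U581.LB.TorA

/-!
# Project LB: fourth moments of the increments
-/

set_option autoImplicit false

namespace Pool.Agent.U581.LB

open Real MeasureTheory Filter Topology ProbabilityTheory Pool.Agent.U581.BM
open scoped BoundedContinuousFunction NNReal

/-- `s (1 + log (1 / (ρ s))) ≤ 6 s^(3/4) log (1 / ρ)` -/
theorem log_gain {ρ s : ℝ} (h0 : 0 < ρ) (h1 : ρ < 1) (hL : 1 ≤ log (1 / ρ)) (hs : 0 < s)
    (hs1 : s ≤ 1) : ρ * s * (1 + log (1 / (ρ * s))) ≤ 6 * s ^ (3 / 4 : ℝ) * (ρ * log (1 / ρ)) := by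
  have e1 : log (1 / (ρ * s)) = log (1 / ρ) + log (1 / s) := by
    rw [← Real.log_mul (by positivity) (by positivity)]
    congr 1
    field_simp
  have h2 : log (1 / s) ≤ 4 * (1 / s) ^ (1 / 4 : ℝ) := by
    have := Real.log_le_rpow_div (show 0 ≤ 1 / s by positivity) (show (0:ℝ) < 1/4 by norm_num)
    linarith
  have h3 : (1:ℝ) ≤ (1 / s) ^ (1 / 4 : ℝ) :=
    Real.one_le_rpow (by rw [le_div_iff₀ hs]; linarith) (by norm_num)
  have h4 : s * (1 / s) ^ (1 / 4 : ℝ) = s ^ (3 / 4 : ℝ) := by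
    rw [one_div, Real.inv_rpow hs.le, ← Real.rpow_neg hs.le]
    nth_rewrite 1 [← Real.rpow_one s]
    rw [← Real.rpow_add hs]
    norm_num
  have h5 : 1 + log (1 / (ρ * s)) ≤ 6 * (1 / s) ^ (1 / 4 : ℝ) * log (1 / ρ) := by
    rw [e1]
    have h6 : 0 ≤ (1 / s) ^ (1 / 4 : ℝ) := by linarith
    nlinarith
  calc ρ * s * (1 + log (1 / (ρ * s))) ≤ ρ * s * (6 * (1 / s) ^ (1 / 4 : ℝ) * log (1 / ρ)) :=
        mul_le_mul_of_nonneg_left h5 (by positivity)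
    _ = 6 * (s * (1 / s) ^ (1 / 4 : ℝ)) * (ρ * log (1 / ρ)) := by ring
    _ = _ := by rw [h4]

/-- **the fourth moments of the increments** -/
theorem four_incr (hUP : S_UP) (hBLK : S_BLK) (hFOUR : S_FOUR) : ∃ K : ℝ, 0 < K ∧
    ∀ (ρ u v : ℝ) (N : ℕ), 0 < ρ → ρ < 1 → 1 ≤ log (1 / ρ) → u ≤ v → v ≤ u + 1 →
      ∫ θ, (Y (cc ρ v) N θ - Y (cc ρ u) N θ) ^ 4 ∂Th ≤ K * (v - u) ^ (3 / 2 : ℝ) := by
  obtain ⟨C1, hC1, -, hU⟩ := hUP
  obtain ⟨C2, hC2, hB⟩ := hBLK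
  refine ⟨3 * (6 * C1 / 16) ^ 2 + C2 / 256, by positivity, ?_⟩
  intro ρ u v N h0 h1 hL huv hv1
  rcases eq_or_lt_of_le huv with rfl | huv'
  · simp
  obtain ⟨s, hs⟩ : ∃ s, s = v - u := ⟨_, rfl⟩
  have hs0 : 0 < s := by rw [hs]; linarith
  have hs1 : s ≤ 1 := by rw [hs]; linarith
  have hg := sg_pos h0 h1
  have hg2 := sg_sq h0 h1
  obtain ⟨c, hc⟩ : ∃ c : ℕ → ℂ, c = fun n => cc ρ v n - cc ρ u n := ⟨_, rfl⟩
  have D : Dom c 1 (sg ρ) (ρ * s) := by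
    rw [hc, hs]
    exact dom_sub
  have hh0 : 0 < ρ * s := by positivity
  have hh1 : ρ * s ≤ 1 := by nlinarith
  have e0 : ∀ θ, Y (cc ρ v) N θ - Y (cc ρ u) N θ = Y c N θ := fun θ => by rw [hc, Y_sub]
  simp only [e0]
  rw [← hs]
  have h4 := (hFOUR c N).2.2
  have hV := D.V N
  have hU1 := hU N (ρ * s) hh0 hh1
  have hB1 := (hB N (ρ * s) hh0 hh1).2
  have hF := D.four zero_le_one hg hh0.le N
  have hlg := log_gain h0 h1 hL hs0 hs1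
  have hρL : 0 < ρ * log (1 / ρ) := by have := log_inv_pos h0 h1; positivity
  -- the variance
  have hV2 : V c N ≤ 6 * C1 / 16 * s ^ (3 / 4 : ℝ) := by
    refine hV.trans ?_
    rw [div_pow, one_pow, hg2]
    calc 1 / (16 * (ρ * log (1 / ρ))) * ∑ n ∈ Finset.Icc 1 N, cf n ^ 2 *
          min 2 (2 * π ^ 2 * (n * (ρ * s) ^ 2))
        ≤ 1 / (16 * (ρ * log (1 / ρ))) * (C1 * (6 * s ^ (3 / 4 : ℝ) * (ρ * log (1 / ρ)))) := by
          apply mul_le_mul_of_nonneg_left _ (by positivity)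
          exact hU1.trans (mul_le_mul_of_nonneg_left hlg hC1.le)
      _ = 6 * C1 / 16 * s ^ (3 / 4 : ℝ) := by
          have := hρL.ne'
          have h5 : log (1 / ρ) ≠ 0 := (log_inv_pos h0 h1).ne'
          field_simp
  have hVsq : V c N ^ 2 ≤ (6 * C1 / 16) ^ 2 * s ^ (3 / 2 : ℝ) := by
    calc V c N ^ 2 ≤ (6 * C1 / 16 * s ^ (3 / 4 : ℝ)) ^ 2 := pow_le_pow_left₀ (V_nonneg c N) hV2 2
      _ = (6 * C1 / 16) ^ 2 * s ^ (3 / 2 : ℝ) := by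
          rw [mul_pow, ← Real.rpow_natCast (s ^ (3 / 4 : ℝ)), ← Real.rpow_mul hs0.le]
          norm_num
  -- the blocks
  have hbl : ∑ q ∈ Finset.Icc 1 N, bq c N q ^ 2 * vq c N q ≤ C2 / 256 * s ^ (3 / 2 : ℝ) := by
    refine hF.trans ?_
    have h6 : (1 / sg ρ) ^ 4 = 1 / (256 * (ρ * log (1 / ρ)) ^ 2) := by
      have : (1 / sg ρ) ^ 4 = 1 / (sg ρ ^ 2) ^ 2 := by
        rw [div_pow, one_pow, ← pow_mul]
      rw [this, hg2, mul_pow]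
      norm_num
    rw [h6]
    have h7 : (ρ * s) ^ (5 / 2 : ℝ) ≤ ρ ^ 2 * s ^ (3 / 2 : ℝ) := by
      rw [Real.mul_rpow h0.le hs0.le]
      have a1 : ρ ^ (5 / 2 : ℝ) ≤ ρ ^ 2 := by
        rw [← Real.rpow_natCast ρ 2]
        exact Real.rpow_le_rpow_of_exponent_ge h0 h1.le (by norm_num)
      have a2 : s ^ (5 / 2 : ℝ) ≤ s ^ (3 / 2 : ℝ) :=
        Real.rpow_le_rpow_of_exponent_ge hs0 hs1 (by norm_num)
      exact mul_le_mul a1 a2 (by positivity) (by positivity)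
    have h8 : ρ ^ 2 ≤ (ρ * log (1 / ρ)) ^ 2 := by
      apply pow_le_pow_left₀ h0.le
      nlinarith
    have h9 : 0 ≤ s ^ (3 / 2 : ℝ) := by positivity
    calc 1 / (256 * (ρ * log (1 / ρ)) ^ 2) * ∑ q ∈ Finset.Icc 1 N, Bh N q (ρ * s) ^ 2 * Vh N q (ρ * s)
        ≤ 1 / (256 * (ρ * log (1 / ρ)) ^ 2) * (C2 * (ρ ^ 2 * s ^ (3 / 2 : ℝ))) := by
          apply mul_le_mul_of_nonneg_left _ (by positivity)
          exact hB1.trans (mul_le_mul_of_nonneg_left h7 hC2.le)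
      _ ≤ 1 / (256 * (ρ * log (1 / ρ)) ^ 2) * (C2 * ((ρ * log (1 / ρ)) ^ 2 * s ^ (3 / 2 : ℝ))) := by
          gcongr
      _ = C2 / 256 * s ^ (3 / 2 : ℝ) := by
          have := hρL.ne'
          have h5 : log (1 / ρ) ≠ 0 := (log_inv_pos h0 h1).ne'
          field_simp
  calc ∫ θ, Y c N θ ^ 4 ∂Th ≤ 3 * V c N ^ 2 + ∑ q ∈ Finset.Icc 1 N, bq c N q ^ 2 * vq c N q := h4
    _ ≤ 3 * ((6 * C1 / 16) ^ 2 * s ^ (3 / 2 : ℝ)) + C2 / 256 * s ^ (3 / 2 : ℝ) := by linarith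
    _ = _ := by ring

end Pool.Agent.U581.LB
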